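import Mathlib

/-!
# The multilinear form used in `MP_9df269_ag`

`FF` is a form of multidegree (1,1,1,1,1); this file contains the elementary
algebraic facts about it.
-/

set_option linter.all false

namespace Pool.Agent.Hhelper17.Batyrev

/-- The form of multidegree (1,1,1,1,1). -/
def FF {S : Type*} [CommRing S] (t x y z w : Fin 2 → S) : S :=
  t 0 * (x 0 * y 0 * z 0 * w 0 + x 1 * y 1 * z 1 * w 1)
  + (3 * t 0 + t 1) * (x 0 * y 0 * z 1 * w 1 + x 1 * y 1 * z 0 * w 0)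
  + (t 1 - 3 * t 0) * (x 0 * y 1 * z 0 * w 1 + x 1 * y 0 * z 1 * w 0)
  + (t 1 - t 0) * (x 0 * y 1 * z 1 * w 0 + x 1 * y 0 * z 0 * w 1)

/-- unit vector -/
def ee {S : Type*} [CommRing S] (i : Fin 2) : Fin 2 → S := fun j => if j = i then 1 else 0

section ring
variable {S : Type*} [CommRing S]

@[simp] theorem ee_zero_zero : (ee 0 : Fin 2 → S) 0 = 1 := by simp [ee]
@[simp] theorem ee_zero_one : (ee 0 : Fin 2 → S) 1 = 0 := by simp [ee]
@[simp] theorem ee_one_zero : (ee 1 : Fin 2 → S) 0 = 0 := by simp [ee]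
@[simp] theorem ee_one_one : (ee 1 : Fin 2 → S) 1 = 1 := by simp [ee]

theorem FF_t (t x y z w : Fin 2 → S) :
    FF t x y z w = t 0 * FF (ee 0) x y z w + t 1 * FF (ee 1) x y z w := by
  simp only [FF, ee_zero_zero, ee_zero_one, ee_one_zero, ee_one_one]; ring

theorem FF_x (t x y z w : Fin 2 → S) :
    FF t x y z w = x 0 * FF t (ee 0) y z w + x 1 * FF t (ee 1) y z w := by
  simp only [FF, ee_zero_zero, ee_zero_one, ee_one_zero, ee_one_one]; ring

theorem FF_y (t x y z w : Fin 2 → S) :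
    FF t x y z w = y 0 * FF t x (ee 0) z w + y 1 * FF t x (ee 1) z w := by
  simp only [FF, ee_zero_zero, ee_zero_one, ee_one_zero, ee_one_one]; ring

theorem FF_z (t x y z w : Fin 2 → S) :
    FF t x y z w = z 0 * FF t x y (ee 0) w + z 1 * FF t x y (ee 1) w := by
  simp only [FF, ee_zero_zero, ee_zero_one, ee_one_zero, ee_one_one]; ring

theorem FF_w (t x y z w : Fin 2 → S) :
    FF t x y z w = w 0 * FF t x y z (ee 0) + w 1 * FF t x y z (ee 1) := by
  simp only [FF, ee_zero_zero, ee_zero_one, ee_one_zero, ee_one_one]; ring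

end ring

section

variable {k : Type*} [Field k] [CharZero k]

theorem nv0_aux (t0 t1 x0 x1 y0 y1 : k)
    (ht : t0 ≠ 0 ∨ t1 ≠ 0) (hx : x0 ≠ 0 ∨ x1 ≠ 0) (hy : y0 ≠ 0 ∨ y1 ≠ 0)
    (h1 : t0 * x0 * y0 + (3*t0+t1) * x1 * y1 = 0)
    (h2 : t0 * x1 * y1 + (3*t0+t1) * x0 * y0 = 0)
    (h3 : (t1-3*t0) * x0 * y1 + (t1-t0) * x1 * y0 = 0)
    (h4 : (t1-t0) * x0 * y1 + (t1-3*t0) * x1 * y0 = 0) : False := by
  grind

theorem nv1_aux (x0 x1 y0 y1 w0 w1 : k) (hx : x0 ≠ 0 ∨ x1 ≠ 0) (hy : y0 ≠ 0 ∨ y1 ≠ 0)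
    (hw : w0 ≠ 0 ∨ w1 ≠ 0)
    (h1 : x0*y0*w0 + 3*x1*y1*w0 - 3*x0*y1*w1 - x1*y0*w1 = 0)
    (h2 : x1*y1*w1 + 3*x0*y0*w1 - 3*x1*y0*w0 - x0*y1*w0 = 0)
    (h3 : x1*y1*w0 + x0*y1*w1 + x1*y0*w1 = 0)
    (h4 : x0*y0*w1 + x1*y0*w0 + x0*y1*w0 = 0) : False := by
  grind

theorem nv2_aux (x0 x1 z0 z1 w0 w1 : k) (hx : x0 ≠ 0 ∨ x1 ≠ 0) (hz : z0 ≠ 0 ∨ z1 ≠ 0)
    (hw : w0 ≠ 0 ∨ w1 ≠ 0)
    (h1 : x0*z0*w0 + 3*x0*z1*w1 - 3*x1*z1*w0 - x1*z0*w1 = 0)
    (h2 : x1*z1*w1 + 3*x1*z0*w0 - 3*x0*z0*w1 - x0*z1*w0 = 0)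
    (h3 : x0*z1*w1 + x1*z1*w0 + x1*z0*w1 = 0)
    (h4 : x1*z0*w0 + x0*z0*w1 + x0*z1*w0 = 0) : False := by
  grind

theorem nv3_aux (t0 t1 x0 x1 z0 z1 : k)
    (ht : t0 ≠ 0 ∨ t1 ≠ 0) (hx : x0 ≠ 0 ∨ x1 ≠ 0) (hz : z0 ≠ 0 ∨ z1 ≠ 0)
    (h1 : t0 * x0 * z0 + (t1 - 3*t0) * x1 * z1 = 0)
    (h2 : t0 * x1 * z1 + (t1 - 3*t0) * x0 * z0 = 0)
    (h3 : (3*t0+t1) * x0 * z1 + (t1-t0) * x1 * z0 = 0)
    (h4 : (3*t0+t1) * x1 * z0 + (t1-t0) * x0 * z1 = 0) : False := by
  grind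

theorem classify_aux (t0 t1 y0 y1 z0 z1 : k)
    (ht : t0 ≠ 0 ∨ t1 ≠ 0) (hy : y0 ≠ 0 ∨ y1 ≠ 0) (hz : z0 ≠ 0 ∨ z1 ≠ 0)
    (h1 : t0 * y0 * z0 + (t1 - t0) * y1 * z1 = 0)
    (h2 : t0 * y1 * z1 + (t1 - t0) * y0 * z0 = 0)
    (h3 : (3*t0+t1) * y0 * z1 + (t1-3*t0) * y1 * z0 = 0)
    (h4 : (3*t0+t1) * y1 * z0 + (t1-3*t0) * y0 * z1 = 0) :
    t1 = 0 ∧ ((y1 = y0 ∧ z1 = z0) ∨ (y1 = -y0 ∧ z1 = -z0)) := by
  grind

/-- a vector of `k²` is nonzero -/
def NZ (v : Fin 2 → k) : Prop := v 0 ≠ 0 ∨ v 1 ≠ 0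

omit [CharZero k] in
theorem NZ_iff {v : Fin 2 → k} : NZ v ↔ v ≠ 0 := by
  unfold NZ
  constructor
  · rintro h rfl
    simp at h
  · intro h
    by_contra hc
    push Not at hc
    apply h
    ext i
    fin_cases i
    · exact hc.1
    · exact hc.2

theorem nv0 {t x y : Fin 2 → k} (ht : NZ t) (hx : NZ x) (hy : NZ y)
    (h : ∀ i j, FF t x y (ee i) (ee j) = 0) : False := by
  apply nv0_aux (t 0) (t 1) (x 0) (x 1) (y 0) (y 1) ht hx hy
  · have := h 0 0; simp only [FF, ee_zero_zero, ee_zero_one, ee_one_zero, ee_one_one] at this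
    linear_combination this
  · have := h 1 1; simp only [FF, ee_zero_zero, ee_zero_one, ee_one_zero, ee_one_one] at this
    linear_combination this
  · have := h 0 1; simp only [FF, ee_zero_zero, ee_zero_one, ee_one_zero, ee_one_one] at this
    linear_combination this
  · have := h 1 0; simp only [FF, ee_zero_zero, ee_zero_one, ee_one_zero, ee_one_one] at this
    linear_combination this

theorem nv1 {x y w : Fin 2 → k} (hx : NZ x) (hy : NZ y) (hw : NZ w)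
    (h : ∀ i j, FF (ee i) x y (ee j) w = 0) : False := by
  apply nv1_aux (x 0) (x 1) (y 0) (y 1) (w 0) (w 1) hx hy hw
  · have := h 0 0; simp only [FF, ee_zero_zero, ee_zero_one, ee_one_zero, ee_one_one] at this
    linear_combination this
  · have := h 0 1; simp only [FF, ee_zero_zero, ee_zero_one, ee_one_zero, ee_one_one] at this
    linear_combination this
  · have := h 1 0; simp only [FF, ee_zero_zero, ee_zero_one, ee_one_zero, ee_one_one] at this
    linear_combination this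
  · have := h 1 1; simp only [FF, ee_zero_zero, ee_zero_one, ee_one_zero, ee_one_one] at this
    linear_combination this

theorem nv2 {x z w : Fin 2 → k} (hx : NZ x) (hz : NZ z) (hw : NZ w)
    (h : ∀ i j, FF (ee j) x (ee i) z w = 0) : False := by
  apply nv2_aux (x 0) (x 1) (z 0) (z 1) (w 0) (w 1) hx hz hw
  · have := h 0 0; simp only [FF, ee_zero_zero, ee_zero_one, ee_one_zero, ee_one_one] at this
    linear_combination this
  · have := h 1 0; simp only [FF, ee_zero_zero, ee_zero_one, ee_one_zero, ee_one_one] at this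
    linear_combination this
  · have := h 0 1; simp only [FF, ee_zero_zero, ee_zero_one, ee_one_zero, ee_one_one] at this
    linear_combination this
  · have := h 1 1; simp only [FF, ee_zero_zero, ee_zero_one, ee_one_zero, ee_one_one] at this
    linear_combination this

theorem nv3 {t x z : Fin 2 → k} (ht : NZ t) (hx : NZ x) (hz : NZ z)
    (h : ∀ i j, FF t x (ee j) z (ee i) = 0) : False := by
  apply nv3_aux (t 0) (t 1) (x 0) (x 1) (z 0) (z 1) ht hx hz
  · have := h 0 0; simp only [FF, ee_zero_zero, ee_zero_one, ee_one_zero, ee_one_one] at this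
    linear_combination this
  · have := h 1 1; simp only [FF, ee_zero_zero, ee_zero_one, ee_one_zero, ee_one_one] at this
    linear_combination this
  · have := h 1 0; simp only [FF, ee_zero_zero, ee_zero_one, ee_one_zero, ee_one_one] at this
    linear_combination this
  · have := h 0 1; simp only [FF, ee_zero_zero, ee_zero_one, ee_one_zero, ee_one_one] at this
    linear_combination this

theorem classify {t y z : Fin 2 → k} (ht : NZ t) (hy : NZ y) (hz : NZ z)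
    (h : ∀ i j, FF t (ee i) y z (ee j) = 0) :
    t 1 = 0 ∧ ((y 1 = y 0 ∧ z 1 = z 0) ∨ (y 1 = - y 0 ∧ z 1 = - z 0)) := by
  apply classify_aux (t 0) (t 1) (y 0) (y 1) (z 0) (z 1) ht hy hz
  · have := h 0 0; simp only [FF, ee_zero_zero, ee_zero_one, ee_one_zero, ee_one_one] at this
    linear_combination this
  · have := h 1 1; simp only [FF, ee_zero_zero, ee_zero_one, ee_one_zero, ee_one_one] at this
    linear_combination this
  · have := h 0 1; simp only [FF, ee_zero_zero, ee_zero_one, ee_one_zero, ee_one_one] at this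
    linear_combination this
  · have := h 1 0; simp only [FF, ee_zero_zero, ee_zero_one, ee_one_zero, ee_one_one] at this
    linear_combination this

/-! ### Singularities -/

theorem weights_aux (p q r s a0 a1 b0 b1 c0 c1 d0 d1 : k)
    (e1 : p*a0+q*b0+r*c0+s*d0 = 0) (e2 : p*a1+q*b1+r*c1+s*d1 = 0)
    (e3 : p*a0+q*b0+r*c1+s*d1 = 0) (e4 : p*a1+q*b1+r*c0+s*d0 = 0)
    (e5 : p*a0+q*b1+r*c0+s*d1 = 0) (e6 : p*a1+q*b0+r*c1+s*d0 = 0)
    (e7 : p*a0+q*b1+r*c1+s*d0 = 0) (e8 : p*a1+q*b0+r*c0+s*d1 = 0) :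
    p*(a0-a1) = 0 ∧ q*(b0-b1) = 0 ∧ r*(c0-c1) = 0 ∧ s*(d0-d1) = 0 := by
  have h4 : (4:k) ≠ 0 := by norm_num
  refine ⟨?_, ?_, ?_, ?_⟩ <;> apply mul_left_cancel₀ h4 <;> rw [mul_zero]
  · linear_combination e1+e3+e5+e7-e2-e4-e6-e8
  · linear_combination e1+e3+e6+e8-e2-e4-e5-e7
  · linear_combination e1+e4+e5+e8-e2-e3-e6-e7
  · linear_combination e1+e4+e6+e7-e2-e3-e5-e8

omit [CharZero k] in
theorem pm_of_sq {a b : k} (h : a * a = b * b) : b = a ∨ b = -a := by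
  rcases mul_self_eq_mul_self_iff.mp h with h | h
  · exact Or.inl h.symm
  · right; rw [h, neg_neg]

theorem r1_nonzero (t0 t1 a0 a1 b0 b1 c0 c1 d0 d1 : k) (ht : t0 ≠ 0 ∨ t1 ≠ 0)
    (ha0 : a0 ≠ 0) (hab : a0 * a1 = b0 * b1) (hac : a0 * a1 = c0 * c1) (had : a0 * a1 = d0 * d1)
    (hb0 : b0 ≠ 0) (hc0 : c0 ≠ 0) (hd0 : d0 ≠ 0)
    (wp : t0*(a0-a1) = 0) (wq : (3*t0+t1)*(b0-b1) = 0) (wr : (t1-3*t0)*(c0-c1) = 0)
    (ws : (t1-t0)*(d0-d1) = 0)
    (e1 : t0*a0+(3*t0+t1)*b0+(t1-3*t0)*c0+(t1-t0)*d0 = 0)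
    (D0 : (a0 + a1) + 3 * (b0 + b1) - 3 * (c0 + c1) - (d0 + d1) = 0)
    (D1 : (b0 + b1) + (c0 + c1) + (d0 + d1) = 0) : False := by
  by_cases hp : t0 = 0
  · subst hp
    have ht1 : t1 ≠ 0 := by simpa using ht
    have hb : b0 = b1 := by grind
    have hc : c0 = c1 := by grind
    have hd : d0 = d1 := by grind
    subst hb hc hd
    rcases pm_of_sq (hab.symm.trans hac) with h | h <;>
    rcases pm_of_sq (hab.symm.trans had) with h' | h' <;> grind
  · have ha : a0 = a1 := by grind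
    subst ha
    by_cases hq : 3*t0+t1 = 0
    · have hc : c0 = c1 := by grind
      have hd : d0 = d1 := by grind
      subst hc hd
      rcases pm_of_sq hac with h | h <;>
      rcases pm_of_sq had with h' | h' <;> grind
    · have hb : b0 = b1 := by grind
      subst hb
      by_cases hr : t1 - 3*t0 = 0
      · have hd : d0 = d1 := by grind
        subst hd
        rcases pm_of_sq hab with h | h <;>
        rcases pm_of_sq had with h' | h' <;> grind
      · have hc : c0 = c1 := by grind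
        subst hc
        by_cases hs : t1 - t0 = 0
        · rcases pm_of_sq hab with h | h <;>
          rcases pm_of_sq hac with h' | h' <;> grind
        · have hd : d0 = d1 := by grind
          subst hd
          rcases pm_of_sq hab with h | h <;>
          rcases pm_of_sq hac with h' | h' <;>
          rcases pm_of_sq had with h'' | h'' <;> grind

omit [CharZero k] in
theorem r2_nonzero (p q r s a0 a1 b0 b1 c0 c1 d0 d1 : k) (hp : p ≠ 0) (hq : q ≠ 0) (hr : r ≠ 0)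
    (hs : s ≠ 0) (n1 : p + q + r + s ≠ 0) (n2 : p + q + r - s ≠ 0) (n3 : p + q - r + s ≠ 0)
    (n4 : p + q - r - s ≠ 0) (n5 : p - q + r + s ≠ 0) (n6 : p - q + r - s ≠ 0)
    (n7 : p - q - r + s ≠ 0) (n8 : p - q - r - s ≠ 0)
    (ha0 : a0 ≠ 0) (hab : a0 * a1 = b0 * b1) (hac : a0 * a1 = c0 * c1) (had : a0 * a1 = d0 * d1)
    (wp : p*(a0-a1) = 0) (wq : q*(b0-b1) = 0) (wr : r*(c0-c1) = 0)
    (ws : s*(d0-d1) = 0)
    (e1 : p*a0+q*b0+r*c0+s*d0 = 0) : False := by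
  have ha : a0 = a1 := sub_eq_zero.mp ((mul_eq_zero.mp wp).resolve_left hp)
  have hb : b0 = b1 := sub_eq_zero.mp ((mul_eq_zero.mp wq).resolve_left hq)
  have hc : c0 = c1 := sub_eq_zero.mp ((mul_eq_zero.mp wr).resolve_left hr)
  have hd : d0 = d1 := sub_eq_zero.mp ((mul_eq_zero.mp ws).resolve_left hs)
  subst ha hb hc hd
  have key : ∀ x : k, x ≠ 0 → a0 * x ≠ 0 := fun x hx => mul_ne_zero ha0 hx
  rcases pm_of_sq hab with rfl | rfl <;>
    rcases pm_of_sq hac with rfl | rfl <;>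
    rcases pm_of_sq had with rfl | rfl
  · exact key _ n1 (by linear_combination e1)
  · exact key _ n2 (by linear_combination e1)
  · exact key _ n3 (by linear_combination e1)
  · exact key _ n4 (by linear_combination e1)
  · exact key _ n5 (by linear_combination e1)
  · exact key _ n6 (by linear_combination e1)
  · exact key _ n7 (by linear_combination e1)
  · exact key _ n8 (by linear_combination e1)

theorem r1_zero (t0 t1 y0 y1 z0 z1 w0 w1 : k) (ht : t0 ≠ 0 ∨ t1 ≠ 0)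
    (hy : y0 ≠ 0 ∨ y1 ≠ 0) (hz : z0 ≠ 0 ∨ z1 ≠ 0) (hw : w0 ≠ 0 ∨ w1 ≠ 0)
    (E1 : (3*t0+t1) * y1 * z0 + (t1-3*t0) * y0 * z1 = 0)
    (E2 : t0 * y1 * z1 + (t1-t0) * y0 * z0 = 0)
    (E3 : (3*t0+t1) * y1 * w0 + (t1-t0) * y0 * w1 = 0)
    (E4 : t0 * y1 * w1 + (t1-3*t0) * y0 * w0 = 0)
    (E5 : (t1-3*t0) * z1 * w0 + (t1-t0) * z0 * w1 = 0)
    (E6 : t0 * z1 * w1 + (3*t0+t1) * z0 * w0 = 0)
    (D0 : y1*z1*w1 + 3 * y1*z0*w0 - 3 * y0*z1*w0 - y0*z0*w1 = 0)
    (D1 : y1*z0*w0 + y0*z1*w0 + y0*z0*w1 = 0) : False := by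
  grind

/-- the constants for which the fibre `t₁ = c t₀` has no singular tensor -/
def CC : Fin 3 → ℤ := ![-1, 2, 4]

theorem r2_zero_m1
    (y0 y1 z0 z1 w0 w1 : k)
    (hy : y0 ≠ 0 ∨ y1 ≠ 0) (hz : z0 ≠ 0 ∨ z1 ≠ 0) (hw : w0 ≠ 0 ∨ w1 ≠ 0)
    (E1 : 2 * y1 * z0 - 4 * y0 * z1 = 0)
    (E2 : y1 * z1 - 2 * y0 * z0 = 0)
    (E3 : 2 * y1 * w0 - 2 * y0 * w1 = 0)
    (E4 : y1 * w1 - 4 * y0 * w0 = 0)
    (E5 : -4 * z1 * w0 - 2 * z0 * w1 = 0)
    (E6 : z1 * w1 + 2 * z0 * w0 = 0) : False := by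
  grind

theorem r2_zero_2
    (y0 y1 z0 z1 w0 w1 : k)
    (hy : y0 ≠ 0 ∨ y1 ≠ 0) (hz : z0 ≠ 0 ∨ z1 ≠ 0) (hw : w0 ≠ 0 ∨ w1 ≠ 0)
    (E1 : 5 * y1 * z0 - y0 * z1 = 0)
    (E2 : y1 * z1 + y0 * z0 = 0)
    (E3 : 5 * y1 * w0 + y0 * w1 = 0)
    (E4 : y1 * w1 - y0 * w0 = 0)
    (E5 : - z1 * w0 + z0 * w1 = 0)
    (E6 : z1 * w1 + 5 * z0 * w0 = 0) : False := by
  grind

theorem r2_zero_4
    (y0 y1 z0 z1 w0 w1 : k)
    (hy : y0 ≠ 0 ∨ y1 ≠ 0) (hz : z0 ≠ 0 ∨ z1 ≠ 0) (hw : w0 ≠ 0 ∨ w1 ≠ 0)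
    (E1 : 7 * y1 * z0 + y0 * z1 = 0)
    (E2 : y1 * z1 + 3 * y0 * z0 = 0)
    (E3 : 7 * y1 * w0 + 3 * y0 * w1 = 0)
    (E4 : y1 * w1 + y0 * w0 = 0)
    (E5 : z1 * w0 + 3 * z0 * w1 = 0)
    (E6 : z1 * w1 + 7 * z0 * w0 = 0) : False := by
  grind

/-- A tensor form with parameters `p q r s`. -/
def TT {S : Type*} [CommRing S] (p q r s : S) (x y z w : Fin 2 → S) : S :=
  p * (x 0 * y 0 * z 0 * w 0 + x 1 * y 1 * z 1 * w 1)
  + q * (x 0 * y 0 * z 1 * w 1 + x 1 * y 1 * z 0 * w 0)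
  + r * (x 0 * y 1 * z 0 * w 1 + x 1 * y 0 * z 1 * w 0)
  + s * (x 0 * y 1 * z 1 * w 0 + x 1 * y 0 * z 0 * w 1)

/-- The reduced system obtained at a singular point with `x 0 = 0` or `x 1 = 0`. -/
def Red (p q r s : k) (y z w : Fin 2 → k) : Prop :=
  q * y 1 * z 0 + r * y 0 * z 1 = 0 ∧
  p * y 1 * z 1 + s * y 0 * z 0 = 0 ∧
  q * y 1 * w 0 + s * y 0 * w 1 = 0 ∧
  p * y 1 * w 1 + r * y 0 * w 0 = 0 ∧
  r * z 1 * w 0 + s * z 0 * w 1 = 0 ∧
  p * z 1 * w 1 + q * z 0 * w 0 = 0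

/-- swap the two coordinates -/
def sw {S : Type*} (v : Fin 2 → S) : Fin 2 → S := ![v 1, v 0]

omit [CharZero k] in
@[simp] theorem sw_zero (v : Fin 2 → k) : sw v 0 = v 1 := rfl
omit [CharZero k] in
@[simp] theorem sw_one (v : Fin 2 → k) : sw v 1 = v 0 := rfl
omit [CharZero k] in
theorem NZ.sw {v : Fin 2 → k} (h : NZ v) : NZ (sw v) := by
  rcases h with h | h
  · exact Or.inr h
  · exact Or.inl h

/-- All derivatives of a tensor with respect to `x, y, z, w` vanish. -/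
structure Sing (p q r s : k) (x y z w : Fin 2 → k) : Prop where
  hx : ∀ i, TT p q r s (ee i) y z w = 0
  hy : ∀ i, TT p q r s x (ee i) z w = 0
  hz : ∀ i, TT p q r s x y (ee i) w = 0
  hw : ∀ i, TT p q r s x y z (ee i) = 0

omit [CharZero k] in
theorem Sing.xy {p q r s : k} {x y z w : Fin 2 → k} (h : Sing p q r s x y z w) :
    Sing p q r s y x w z := by
  refine ⟨fun i => ?_, fun i => ?_, fun i => ?_, fun i => ?_⟩
  · have := h.hy i; simp only [TT] at this ⊢; linear_combination this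
  · have := h.hx i; simp only [TT] at this ⊢; linear_combination this
  · have := h.hw i; simp only [TT] at this ⊢; linear_combination this
  · have := h.hz i; simp only [TT] at this ⊢; linear_combination this

omit [CharZero k] in
theorem Sing.xz {p q r s : k} {x y z w : Fin 2 → k} (h : Sing p q r s x y z w) :
    Sing p q r s z w x y := by
  refine ⟨fun i => ?_, fun i => ?_, fun i => ?_, fun i => ?_⟩
  · have := h.hz i; simp only [TT] at this ⊢; linear_combination this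
  · have := h.hw i; simp only [TT] at this ⊢; linear_combination this
  · have := h.hx i; simp only [TT] at this ⊢; linear_combination this
  · have := h.hy i; simp only [TT] at this ⊢; linear_combination this

omit [CharZero k] in
theorem Sing.sw {p q r s : k} {x y z w : Fin 2 → k} (h : Sing p q r s x y z w) :
    Sing p q r s (sw x) (sw y) (sw z) (sw w) := by
  refine ⟨fun i => ?_, fun i => ?_, fun i => ?_, fun i => ?_⟩
  · have h0 := h.hx 0; have h1 := h.hx 1; revert i; rw [Fin.forall_fin_two]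
    simp only [TT, ee_zero_zero, ee_zero_one, ee_one_zero, ee_one_one, sw_zero, sw_one] at h0 h1 ⊢
    exact ⟨by linear_combination h1, by linear_combination h0⟩
  · have h0 := h.hy 0; have h1 := h.hy 1; revert i; rw [Fin.forall_fin_two]
    simp only [TT, ee_zero_zero, ee_zero_one, ee_one_zero, ee_one_one, sw_zero, sw_one] at h0 h1 ⊢
    exact ⟨by linear_combination h1, by linear_combination h0⟩
  · have h0 := h.hz 0; have h1 := h.hz 1; revert i; rw [Fin.forall_fin_two]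
    simp only [TT, ee_zero_zero, ee_zero_one, ee_one_zero, ee_one_one, sw_zero, sw_one] at h0 h1 ⊢
    exact ⟨by linear_combination h1, by linear_combination h0⟩
  · have h0 := h.hw 0; have h1 := h.hw 1; revert i; rw [Fin.forall_fin_two]
    simp only [TT, ee_zero_zero, ee_zero_one, ee_one_zero, ee_one_one, sw_zero, sw_one] at h0 h1 ⊢
    exact ⟨by linear_combination h1, by linear_combination h0⟩

omit [CharZero k] in
theorem Sing.red {p q r s : k} {x y z w : Fin 2 → k} (h : Sing p q r s x y z w)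
    (h0 : x 0 = 0) (h1 : x 1 ≠ 0) : Red p q r s y z w := by
  have a1 := h.hy 0; have a2 := h.hy 1; have a3 := h.hz 0; have a4 := h.hz 1
  have a5 := h.hw 0; have a6 := h.hw 1
  simp only [TT, ee_zero_zero, ee_zero_one, ee_one_zero, ee_one_one, h0] at a1 a2 a3 a4 a5 a6
  refine ⟨?_, ?_, ?_, ?_, ?_, ?_⟩ <;> apply mul_left_cancel₀ h1 <;> rw [mul_zero]
  · linear_combination a5
  · linear_combination a6
  · linear_combination a3
  · linear_combination a4
  · linear_combination a1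
  · linear_combination a2

/-- the weighted relations -/
theorem Sing.weights {p q r s : k} {x y z w : Fin 2 → k} (h : Sing p q r s x y z w) :
    p * (x 0 * y 0 * z 0 * w 0 - x 1 * y 1 * z 1 * w 1) = 0 ∧
    q * (x 0 * y 0 * z 1 * w 1 - x 1 * y 1 * z 0 * w 0) = 0 ∧
    r * (x 0 * y 1 * z 0 * w 1 - x 1 * y 0 * z 1 * w 0) = 0 ∧
    s * (x 0 * y 1 * z 1 * w 0 - x 1 * y 0 * z 0 * w 1) = 0 ∧
    p * (x 0 * y 0 * z 0 * w 0) + q * (x 0 * y 0 * z 1 * w 1) + r * (x 0 * y 1 * z 0 * w 1)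
      + s * (x 0 * y 1 * z 1 * w 0) = 0 := by
  have a1 := h.hy 0; have a2 := h.hy 1; have a3 := h.hz 0; have a4 := h.hz 1
  have a5 := h.hw 0; have a6 := h.hw 1; have a7 := h.hx 0; have a8 := h.hx 1
  simp only [TT, ee_zero_zero, ee_zero_one, ee_one_zero, ee_one_one] at a1 a2 a3 a4 a5 a6 a7 a8
  have e1 : p * (x 0 * y 0 * z 0 * w 0) + q * (x 0 * y 0 * z 1 * w 1)
      + r * (x 0 * y 1 * z 0 * w 1) + s * (x 0 * y 1 * z 1 * w 0) = 0 := by
    linear_combination (x 0) * a7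
  have := weights_aux p q r s (x 0 * y 0 * z 0 * w 0) (x 1 * y 1 * z 1 * w 1)
    (x 0 * y 0 * z 1 * w 1) (x 1 * y 1 * z 0 * w 0) (x 0 * y 1 * z 0 * w 1)
    (x 1 * y 0 * z 1 * w 0) (x 0 * y 1 * z 1 * w 0) (x 1 * y 0 * z 0 * w 1)
    e1 (by linear_combination (x 1) * a8) (by linear_combination (y 0) * a1)
    (by linear_combination (y 1) * a2) (by linear_combination (z 0) * a3)
    (by linear_combination (z 1) * a4) (by linear_combination (w 0) * a5)
    (by linear_combination (w 1) * a6)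
  exact ⟨this.1, this.2.1, this.2.2.1, this.2.2.2, e1⟩

/-- R2: a tensor with generic parameters is nonsingular. -/
theorem not_sing {p q r s : k} (hp : p ≠ 0) (hq : q ≠ 0) (hr : r ≠ 0)
    (hs : s ≠ 0) (n1 : p + q + r + s ≠ 0) (n2 : p + q + r - s ≠ 0) (n3 : p + q - r + s ≠ 0)
    (n4 : p + q - r - s ≠ 0) (n5 : p - q + r + s ≠ 0) (n6 : p - q + r - s ≠ 0)
    (n7 : p - q - r + s ≠ 0) (n8 : p - q - r - s ≠ 0)
    (hred : ∀ y z w : Fin 2 → k, NZ y → NZ z → NZ w → Red p q r s y z w → False)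
    {x y z w : Fin 2 → k} (hx : NZ x) (hy : NZ y) (hz : NZ z) (hw : NZ w)
    (h : Sing p q r s x y z w) : False := by
  have key : ∀ {x y z w : Fin 2 → k}, NZ x → NZ y → NZ z → NZ w → Sing p q r s x y z w →
      x 0 ≠ 0 ∧ x 1 ≠ 0 := by
    intro x y z w hx hy hz hw h
    constructor
    · intro h0
      exact hred _ _ _ hy hz hw (h.red h0 (hx.resolve_left (not_not.mpr h0)))
    · intro h1
      exact hred _ _ _ hy.sw hz.sw hw.sw (h.sw.red h1 (hx.resolve_right (not_not.mpr h1)))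
  obtain ⟨x0, x1⟩ := key hx hy hz hw h
  obtain ⟨y0, y1⟩ := key hy hx hw hz h.xy
  obtain ⟨z0, z1⟩ := key hz hw hx hy h.xz
  obtain ⟨w0, w1⟩ := key hw hz hy hx h.xz.xy
  obtain ⟨wp, wq, wr, ws, e1⟩ := h.weights
  refine r2_nonzero p q r s _ _ _ _ _ _ _ _ hp hq hr hs n1 n2 n3 n4 n5 n6 n7 n8 ?_ ?_ ?_ ?_
    wp wq wr ws e1
  · exact mul_ne_zero (mul_ne_zero (mul_ne_zero x0 y0) z0) w0
  · ring
  · ring
  · ring

omit [CharZero k] in
theorem FF_eq_TT (t x y z w : Fin 2 → k) :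
    FF t x y z w = TT (t 0) (3 * t 0 + t 1) (t 1 - 3 * t 0) (t 1 - t 0) x y z w := rfl

omit [CharZero k] in
theorem sing_of_FF {t x y z w : Fin 2 → k}
    (h2 : ∀ i, FF t (ee i) y z w = 0) (h3 : ∀ i, FF t x (ee i) z w = 0)
    (h4 : ∀ i, FF t x y (ee i) w = 0) (h5 : ∀ i, FF t x y z (ee i) = 0) :
    Sing (t 0) (3 * t 0 + t 1) (t 1 - 3 * t 0) (t 1 - t 0) x y z w := ⟨h2, h3, h4, h5⟩

/-- R1: the form `FF` has no singular point. -/
theorem r1 {t x y z w : Fin 2 → k} (ht : NZ t) (hx : NZ x) (hy : NZ y) (hz : NZ z) (hw : NZ w)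
    (h1 : ∀ i, FF (ee i) x y z w = 0)
    (h2 : ∀ i, FF t (ee i) y z w = 0) (h3 : ∀ i, FF t x (ee i) z w = 0)
    (h4 : ∀ i, FF t x y (ee i) w = 0) (h5 : ∀ i, FF t x y z (ee i) = 0) : False := by
  -- reformulate with the derivatives in `t`
  have D : ∀ x y z w : Fin 2 → k, (∀ i, FF (ee i) x y z w = 0) →
      ((x 0 * y 0 * z 0 * w 0 + x 1 * y 1 * z 1 * w 1)
        + 3 * (x 0 * y 0 * z 1 * w 1 + x 1 * y 1 * z 0 * w 0)
        - 3 * (x 0 * y 1 * z 0 * w 1 + x 1 * y 0 * z 1 * w 0)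
        - (x 0 * y 1 * z 1 * w 0 + x 1 * y 0 * z 0 * w 1) = 0) ∧
      ((x 0 * y 0 * z 1 * w 1 + x 1 * y 1 * z 0 * w 0)
        + (x 0 * y 1 * z 0 * w 1 + x 1 * y 0 * z 1 * w 0)
        + (x 0 * y 1 * z 1 * w 0 + x 1 * y 0 * z 0 * w 1) = 0) := by
    intro x y z w h
    have a1 := h 0; have a2 := h 1
    simp only [FF, ee_zero_zero, ee_zero_one, ee_one_zero, ee_one_one] at a1 a2
    exact ⟨by linear_combination a1, by linear_combination a2⟩
  obtain ⟨D0, D1⟩ := D _ _ _ _ h1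
  have S := sing_of_FF h2 h3 h4 h5
  have key : ∀ {x y z w : Fin 2 → k}, NZ x → NZ y → NZ z → NZ w →
      Sing (t 0) (3 * t 0 + t 1) (t 1 - 3 * t 0) (t 1 - t 0) x y z w →
      ((x 0 * y 0 * z 0 * w 0 + x 1 * y 1 * z 1 * w 1)
        + 3 * (x 0 * y 0 * z 1 * w 1 + x 1 * y 1 * z 0 * w 0)
        - 3 * (x 0 * y 1 * z 0 * w 1 + x 1 * y 0 * z 1 * w 0)
        - (x 0 * y 1 * z 1 * w 0 + x 1 * y 0 * z 0 * w 1) = 0) →
      ((x 0 * y 0 * z 1 * w 1 + x 1 * y 1 * z 0 * w 0)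
        + (x 0 * y 1 * z 0 * w 1 + x 1 * y 0 * z 1 * w 0)
        + (x 0 * y 1 * z 1 * w 0 + x 1 * y 0 * z 0 * w 1) = 0) →
      x 0 ≠ 0 ∧ x 1 ≠ 0 := by
    intro x y z w hx hy hz hw h D0 D1
    constructor
    · intro h0
      have hx1 : x 1 ≠ 0 := hx.resolve_left (not_not.mpr h0)
      obtain ⟨E1, E2, E3, E4, E5, E6⟩ := h.red h0 hx1
      refine r1_zero (t 0) (t 1) (y 0) (y 1) (z 0) (z 1) (w 0) (w 1) ht hy hz hw
        E1 E2 E3 E4 E5 E6 ?_ ?_ <;> apply mul_left_cancel₀ hx1 <;> rw [mul_zero] <;>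
        rw [h0] at D0 D1
      · linear_combination D0
      · linear_combination D1
    · intro h1
      have hx0 : x 0 ≠ 0 := hx.resolve_right (not_not.mpr h1)
      obtain ⟨E1, E2, E3, E4, E5, E6⟩ := h.sw.red h1 hx0
      refine r1_zero (t 0) (t 1) _ _ _ _ _ _ ht hy.sw hz.sw hw.sw
        E1 E2 E3 E4 E5 E6 ?_ ?_ <;> apply mul_left_cancel₀ hx0 <;> rw [mul_zero] <;>
        rw [h1] at D0 D1 <;> simp only [sw_zero, sw_one]
      · linear_combination D0
      · linear_combination D1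
  obtain ⟨x0, x1⟩ := key hx hy hz hw S D0 D1
  obtain ⟨y0, y1⟩ := key hy hx hw hz S.xy (by linear_combination D0) (by linear_combination D1)
  obtain ⟨z0, z1⟩ := key hz hw hx hy S.xz (by linear_combination D0) (by linear_combination D1)
  obtain ⟨w0, w1⟩ := key hw hz hy hx S.xz.xy (by linear_combination D0)
    (by linear_combination D1)
  obtain ⟨wp, wq, wr, ws, e1⟩ := S.weights
  exact r1_nonzero (t 0) (t 1) _ _ _ _ _ _ _ _ ht
    (mul_ne_zero (mul_ne_zero (mul_ne_zero x0 y0) z0) w0) (by ring) (by ring) (by ring)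
    (mul_ne_zero (mul_ne_zero (mul_ne_zero x0 y0) z1) w1)
    (mul_ne_zero (mul_ne_zero (mul_ne_zero x0 y1) z0) w1)
    (mul_ne_zero (mul_ne_zero (mul_ne_zero x0 y1) z1) w0)
    wp wq wr ws e1 D0 D1

/-- R2: for `t₁ = c t₀`, `c ∈ {-1, 2, 4}`, the tensor is nonsingular. -/
theorem r2 (c : Fin 3) {t x y z w : Fin 2 → k} (ht : NZ t) (hc : t 1 = (CC c : k) * t 0)
    (hx : NZ x) (hy : NZ y) (hz : NZ z) (hw : NZ w)
    (h2 : ∀ i, FF t (ee i) y z w = 0) (h3 : ∀ i, FF t x (ee i) z w = 0)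
    (h4 : ∀ i, FF t x y (ee i) w = 0) (h5 : ∀ i, FF t x y z (ee i) = 0) : False := by
  have ht0 : t 0 ≠ 0 := by
    rcases ht with h | h
    · exact h
    · intro h0; rw [h0, mul_zero] at hc; exact h hc
  -- normalise `t 0 = 1`
  have scale : ∀ x y z w : Fin 2 → k, FF t x y z w = 0 →
      TT (1 : k) (3 + (CC c : k)) ((CC c : k) - 3) ((CC c : k) - 1) x y z w = 0 := by
    intro x y z w h
    apply mul_left_cancel₀ ht0
    rw [mul_zero, ← h]
    simp only [FF, TT, hc]; ring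
  have S : Sing (1 : k) (3 + (CC c : k)) ((CC c : k) - 3) ((CC c : k) - 1) x y z w :=
    ⟨fun i => scale _ _ _ _ (h2 i), fun i => scale _ _ _ _ (h3 i),
      fun i => scale _ _ _ _ (h4 i), fun i => scale _ _ _ _ (h5 i)⟩
  clear scale h2 h3 h4 h5 hc
  fin_cases c
  · have e : ((CC 0 : ℤ) : k) = -1 := by simp [CC]
    simp only [Fin.zero_eta, e] at S
    have S' : Sing (1 : k) 2 (-4) (-2) x y z w := by
      convert S using 1 <;> norm_num
    refine not_sing (by norm_num) (by norm_num) (by norm_num) (by norm_num)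
      (by norm_num) (by norm_num) (by norm_num) (by norm_num) (by norm_num) (by norm_num)
      (by norm_num) (by norm_num) ?_ hx hy hz hw S'
    rintro y z w hy hz hw ⟨E1, E2, E3, E4, E5, E6⟩
    exact r2_zero_m1 (y 0) (y 1) (z 0) (z 1) (w 0) (w 1) hy hz hw (by linear_combination E1)
      (by linear_combination E2) (by linear_combination E3) (by linear_combination E4)
      (by linear_combination E5) (by linear_combination E6)
  · have e : ((CC 1 : ℤ) : k) = 2 := by simp [CC]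
    simp only [Fin.mk_one, e] at S
    have S' : Sing (1 : k) 5 (-1) 1 x y z w := by
      convert S using 1 <;> norm_num
    refine not_sing (by norm_num) (by norm_num) (by norm_num) (by norm_num)
      (by norm_num) (by norm_num) (by norm_num) (by norm_num) (by norm_num) (by norm_num)
      (by norm_num) (by norm_num) ?_ hx hy hz hw S'
    rintro y z w hy hz hw ⟨E1, E2, E3, E4, E5, E6⟩
    exact r2_zero_2 (y 0) (y 1) (z 0) (z 1) (w 0) (w 1) hy hz hw (by linear_combination E1)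
      (by linear_combination E2) (by linear_combination E3) (by linear_combination E4)
      (by linear_combination E5) (by linear_combination E6)
  · have e : ((CC 2 : ℤ) : k) = 4 := by simp [CC]
    simp only [Fin.reduceFinMk, e] at S
    have S' : Sing (1 : k) 7 1 3 x y z w := by
      convert S using 1 <;> norm_num
    refine not_sing (by norm_num) (by norm_num) (by norm_num) (by norm_num)
      (by norm_num) (by norm_num) (by norm_num) (by norm_num) (by norm_num) (by norm_num)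
      (by norm_num) (by norm_num) ?_ hx hy hz hw S'
    rintro y z w hy hz hw ⟨E1, E2, E3, E4, E5, E6⟩
    exact r2_zero_4 (y 0) (y 1) (z 0) (z 1) (w 0) (w 1) hy hz hw (by linear_combination E1)
      (by linear_combination E2) (by linear_combination E3) (by linear_combination E4)
      (by linear_combination E5) (by linear_combination E6)

end

end Pool.Agent.Hhelper17.Batyrev
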