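import Mathlib
import Pool.Agent.Hhelper17.BatyrevForm

/-!
# Pairs of binary forms, dehomogenised

`hv m p s` is the value at `s ∈ k²` of the binary form of degree `m` with dehomogenisation `p`.
-/

set_option linter.all false

namespace Pool.Agent.Hhelper17.Batyrev

open Polynomial

section

variable {k : Type*} [Field k]

/-- value at `s` of the binary form of degree `m` with dehomogenisation `p` -/
noncomputable def hv (m : ℕ) (p : k[X]) (s : Fin 2 → k) : k := MvPolynomial.eval s (p.homogenize m)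

theorem hv_add (m : ℕ) (p q : k[X]) (s : Fin 2 → k) : hv m (p + q) s = hv m p s + hv m q s := by
  simp [hv]

theorem hv_zero (m : ℕ) (s : Fin 2 → k) : hv m 0 s = 0 := by simp [hv]

theorem hv_C_mul (m : ℕ) (a : k) (p : k[X]) (s : Fin 2 → k) : hv m (C a * p) s = a * hv m p s := by
  simp [hv]

theorem hv_neg (m : ℕ) (p : k[X]) (s : Fin 2 → k) : hv m (-p) s = - hv m p s := by
  have := hv_C_mul m (-1) p s
  simpa using this

theorem hv_sub (m : ℕ) (p q : k[X]) (s : Fin 2 → k) : hv m (p - q) s = hv m p s - hv m q s := by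
  rw [sub_eq_add_neg, hv_add, hv_neg, ← sub_eq_add_neg]

theorem hv_mul {m n : ℕ} {p q : k[X]} (hp : p.natDegree ≤ m) (hq : q.natDegree ≤ n)
    (s : Fin 2 → k) : hv (m + n) (p * q) s = hv m p s * hv n q s := by
  simp [hv, homogenize_mul p q hp hq]

theorem hv_sum {ι : Type*} (S : Finset ι) (m : ℕ) (f : ι → k[X]) (s : Fin 2 → k) :
    hv m (∑ i ∈ S, f i) s = ∑ i ∈ S, hv m (f i) s := by
  simp [hv]

theorem hv_pow {p : k[X]} {m : ℕ} (hp : p.natDegree ≤ m) (n : ℕ) (s : Fin 2 → k) :
    hv (n * m) (p ^ n) s = hv m p s ^ n := by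
  induction n with
  | zero => simp [hv]
  | succ n ih =>
    rw [pow_succ, pow_succ, Nat.succ_mul, hv_mul (natDegree_pow_le_of_le n hp) hp, ih]

theorem hv_eq_sum (m : ℕ) (p : k[X]) (s : Fin 2 → k) :
    hv m p s = ∑ l ∈ Finset.range (m + 1), p.coeff l * s 0 ^ l * s 1 ^ (m - l) := by
  rw [hv, homogenize, map_sum, Finset.Nat.sum_antidiagonal_eq_sum_range_succ_mk]
  apply Finset.sum_congr rfl
  intro l hl
  rw [MvPolynomial.eval_monomial, Finsupp.prod_fintype _ _ (by simp)]
  simp [Fin.prod_univ_two, mul_assoc]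

theorem hv_inf {m : ℕ} {p : k[X]} {s : Fin 2 → k} (hs : s 1 = 0) :
    hv m p s = p.coeff m * s 0 ^ m := by
  rw [hv_eq_sum, Finset.sum_eq_single m]
  · simp
  · intro l hl hlm
    have : m - l ≠ 0 := by
      have := Finset.mem_range.mp hl
      omega
    rw [hs, zero_pow this, mul_zero]
  · intro h
    exact absurd (Finset.mem_range.mpr (Nat.lt_succ_self m)) h

theorem hv_fin {m : ℕ} {p : k[X]} (hp : p.natDegree ≤ m) {s : Fin 2 → k} (hs : s 1 ≠ 0) :
    hv m p s = s 1 ^ m * p.eval (s 0 / s 1) := by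
  rw [hv_eq_sum, eval_eq_sum_range' (Nat.lt_succ_of_le hp), Finset.mul_sum]
  apply Finset.sum_congr rfl
  intro l hl
  have hl' : l ≤ m := Nat.lt_succ_iff.mp (Finset.mem_range.mp hl)
  rw [div_pow]
  have h1 : s 1 ^ m = s 1 ^ (m - l) * s 1 ^ l := by rw [← pow_add, Nat.sub_add_cancel hl']
  rw [h1]
  field_simp

theorem hv_one_of_eval {m : ℕ} {p : k[X]} (hp : p.natDegree ≤ m) (a : k) :
    hv m p ![a, 1] = p.eval a := by
  rw [hv_fin hp (by simp)]
  simp

/-- the vector of values of a pair -/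
noncomputable def hV (m : ℕ) (g : Fin 2 → k[X]) (s : Fin 2 → k) : Fin 2 → k := fun i => hv m (g i) s

/-- A pair of binary forms of degree `m` without common zero (dehomogenised). -/
structure Good (m : ℕ) (g : Fin 2 → k[X]) : Prop where
  deg : ∀ i, (g i).natDegree ≤ m
  nz : ∀ s : Fin 2 → k, NZ s → NZ (hV m g s)

theorem Good.mk' {m : ℕ} {g : Fin 2 → k[X]} (h1 : ∀ i, (g i).natDegree ≤ m)
    (h2 : IsCoprime (g 0) (g 1)) (h3 : NZ (fun i => (g i).coeff m)) : Good m g := by
  refine ⟨h1, fun s hs => ?_⟩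
  by_cases h : s 1 = 0
  · have hs0 : s 0 ≠ 0 := by
      rcases hs with h' | h'
      · exact h'
      · exact absurd h h'
    rcases h3 with h3 | h3
    · left; simp only [hV]; rw [hv_inf h]; exact mul_ne_zero h3 (pow_ne_zero _ hs0)
    · right; simp only [hV]; rw [hv_inf h]; exact mul_ne_zero h3 (pow_ne_zero _ hs0)
  · obtain ⟨u, v, huv⟩ := h2
    by_contra hcon
    simp only [NZ, hV, not_or, not_not] at hcon
    rw [hv_fin (h1 0) h, hv_fin (h1 1) h] at hcon
    have hp : s 1 ^ m ≠ 0 := pow_ne_zero _ h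
    have e0 := (mul_eq_zero.mp hcon.1).resolve_left hp
    have e1 := (mul_eq_zero.mp hcon.2).resolve_left hp
    have := congrArg (Polynomial.eval (s 0 / s 1)) huv
    simp [e0, e1] at this

theorem Good.inf {m : ℕ} {g : Fin 2 → k[X]} (h : Good m g) : NZ (fun i => (g i).coeff m) := by
  have := h.nz ![1, 0] (by left; simp)
  simp only [NZ, hV] at this ⊢
  rw [hv_inf (by simp), hv_inf (by simp)] at this
  simpa using this

theorem Good.isCoprime [IsAlgClosed k] {m : ℕ} {g : Fin 2 → k[X]} (h : Good m g) :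
    IsCoprime (g 0) (g 1) := by
  rw [isCoprime_iff_aeval_ne_zero_of_isAlgClosed k k]
  intro a
  have := h.nz ![a, 1] (by right; simp)
  simp only [NZ, hV] at this
  rw [hv_one_of_eval (h.deg 0), hv_one_of_eval (h.deg 1)] at this
  simpa using this

theorem Good.isCoprime' [IsAlgClosed k] {m : ℕ} {g : Fin 2 → k[X]} (h : Good m g) :
    IsCoprime (g 1) (g 0) := h.isCoprime.symm

/-- proportional vectors -/
def PP {S : Type*} [CommRing S] (g h : Fin 2 → S) : Prop := g 0 * h 1 = g 1 * h 0

theorem PP.symm {S : Type*} [CommRing S] {g h : Fin 2 → S} (H : PP g h) : PP h g := by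
  unfold PP at *; linear_combination -H

theorem PP.smul_vec {v w : Fin 2 → k} (hv : NZ v) (hw : NZ w) (H : PP v w) :
    ∃ c : k, c ≠ 0 ∧ ∀ i, w i = c * v i := by
  unfold PP at H
  rcases hv with h | h
  · refine ⟨w 0 / v 0, ?_, ?_⟩
    · intro hc
      have h0 : w 0 = 0 := by
        rcases (div_eq_zero_iff.mp hc) with h' | h'
        · exact h'
        · exact absurd h' h
      rw [h0, mul_zero] at H
      rcases hw with h1 | h1
      · exact h1 h0
      · exact h1 ((mul_eq_zero.mp H).resolve_left h)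
    · rw [Fin.forall_fin_two]
      constructor
      · field_simp
      · field_simp; linear_combination H
  · refine ⟨w 1 / v 1, ?_, ?_⟩
    · intro hc
      have h0 : w 1 = 0 := by
        rcases (div_eq_zero_iff.mp hc) with h' | h'
        · exact h'
        · exact absurd h' h
      rw [h0, mul_zero] at H
      rcases hw with h1 | h1
      · exact h1 ((mul_eq_zero.mp H.symm).resolve_left h)
      · exact h1 h0
    · rw [Fin.forall_fin_two]
      constructor
      · field_simp; linear_combination -H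
      · field_simp

theorem Good.eq_smul [IsAlgClosed k] {m m' : ℕ} {g h : Fin 2 → k[X]} (hg : Good m g)
    (hh : Good m' h) (H : PP g h) : m = m' ∧ ∃ c : k, c ≠ 0 ∧ ∀ i, h i = C c * g i := by
  obtain ⟨u, v, huv⟩ := hg.isCoprime
  have H' : g 0 * h 1 = g 1 * h 0 := H
  have key : ∀ i, h i = (u * h 0 + v * h 1) * g i := by
    rw [Fin.forall_fin_two]
    constructor
    · linear_combination -(h 0) * huv - v * H'
    · linear_combination -(h 1) * huv + u * H'
  set l := u * h 0 + v * h 1 with hl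
  have hunit : IsUnit l := hh.isCoprime.isUnit_of_dvd' ⟨g 0, key 0⟩ ⟨g 1, key 1⟩
  obtain ⟨c, hc, hcl⟩ := Polynomial.isUnit_iff.mp hunit
  have hc0 : c ≠ 0 := hc.ne_zero
  have key' : ∀ i, h i = C c * g i := fun i => by rw [hcl]; exact key i
  refine ⟨?_, c, hc0, key'⟩
  apply le_antisymm
  · rcases hg.inf with h1 | h1
    · have : (h 0).coeff m ≠ 0 := by rw [key' 0, coeff_C_mul]; exact mul_ne_zero hc0 h1
      exact (le_natDegree_of_ne_zero this).trans (hh.deg 0)
    · have : (h 1).coeff m ≠ 0 := by rw [key' 1, coeff_C_mul]; exact mul_ne_zero hc0 h1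
      exact (le_natDegree_of_ne_zero this).trans (hh.deg 1)
  · rcases hh.inf with h1 | h1
    · have : (g 0).coeff m' ≠ 0 := by
        intro h0; apply h1; simp only; rw [key' 0, coeff_C_mul, h0, mul_zero]
      exact (le_natDegree_of_ne_zero this).trans (hg.deg 0)
    · have : (g 1).coeff m' ≠ 0 := by
        intro h0; apply h1; simp only; rw [key' 1, coeff_C_mul, h0, mul_zero]
      exact (le_natDegree_of_ne_zero this).trans (hg.deg 1)

/-- uniqueness of the kernel of a nonzero `2 × 2` matrix -/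
theorem ker_unique {S : Type*} [CommRing S] [IsDomain S] {M : Fin 2 → Fin 2 → S}
    (hM : ∃ i j, M i j ≠ 0) {B D : Fin 2 → S}
    (hB : ∀ i, M i 0 * B 0 + M i 1 * B 1 = 0) (hD : ∀ i, M i 0 * D 0 + M i 1 * D 1 = 0) :
    PP B D := by
  obtain ⟨i, j, hij⟩ := hM
  unfold PP
  have h0 : M i 0 * (B 0 * D 1 - B 1 * D 0) = 0 := by
    linear_combination (D 1) * hB i - (B 1) * hD i
  have h1 : M i 1 * (B 0 * D 1 - B 1 * D 0) = 0 := by
    linear_combination (B 0) * hD i - (D 0) * hB i
  have : B 0 * D 1 - B 1 * D 0 = 0 := by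
    revert hij
    revert j
    rw [Fin.forall_fin_two]
    exact ⟨fun h => (mul_eq_zero.mp h0).resolve_left h, fun h => (mul_eq_zero.mp h1).resolve_left h⟩
  linear_combination this

theorem natDegree_of_mul_le {p q : k[X]} {m e : ℕ} (hp : p.coeff m ≠ 0)
    (h : (p * q).natDegree ≤ e) (hq : q ≠ 0) : m + q.natDegree ≤ e := by
  have hp0 : p ≠ 0 := by rintro rfl; simp at hp
  rw [natDegree_mul hp0 hq] at h
  have := le_natDegree_of_ne_zero hp
  omega

/-- the step: from the left kernel of a nowhere vanishing matrix of rank one, get the right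
kernel -/
theorem step_exists [IsAlgClosed k] {m e : ℕ} {A : Fin 2 → k[X]} (hA : Good m A)
    {M : Fin 2 → Fin 2 → k[X]} (hM : ∀ i j, (M i j).natDegree ≤ e)
    (hnz : ∀ s : Fin 2 → k, NZ s → ∃ i j, hv e (M i j) s ≠ 0)
    (h : ∀ j, A 0 * M 0 j + A 1 * M 1 j = 0) :
    m ≤ e ∧ ∃ B : Fin 2 → k[X], Good (e - m) B ∧ ∀ i, M i 0 * B 0 + M i 1 * B 1 = 0 := by
  obtain ⟨u, v, huv⟩ := hA.isCoprime
  -- `M 0 j = - A 1 * α j`, `M 1 j = A 0 * α j`
  set α : Fin 2 → k[X] := fun j => u * M 1 j - v * M 0 j with hα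
  have e0 : ∀ j, M 0 j = - (A 1) * α j := by
    intro j; simp only [hα]; linear_combination -(M 0 j) * huv + u * h j
  have e1 : ∀ j, M 1 j = A 0 * α j := by
    intro j; simp only [hα]; linear_combination -(M 1 j) * huv + v * h j
  -- degree bound
  have hdeg : ∀ j, α j ≠ 0 → m + (α j).natDegree ≤ e := by
    intro j hj
    rcases hA.inf with h0 | h1
    · exact natDegree_of_mul_le h0 (by rw [← e1]; exact hM 1 j) hj
    · refine natDegree_of_mul_le (p := - (A 1)) (by simpa using h1) (by rw [← e0]; exact hM 0 j) hj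
  have hsome : ∃ j, α j ≠ 0 := by
    obtain ⟨i, j, hij⟩ := hnz ![0, 1] (by right; simp)
    refine ⟨j, fun h0 => hij ?_⟩
    revert hij; revert i
    rw [Fin.forall_fin_two]
    refine ⟨fun _ => ?_, fun _ => ?_⟩
    · rw [e0, h0, mul_zero, hv_zero]
    · rw [e1, h0, mul_zero, hv_zero]
  have hme : m ≤ e := by
    obtain ⟨j, hj⟩ := hsome
    have := hdeg j hj
    omega
  have hdeg' : ∀ j, (α j).natDegree ≤ e - m := by
    intro j
    by_cases hj : α j = 0
    · simp [hj]
    · have := hdeg j hj; omega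
  refine ⟨hme, ![- α 1, α 0], ⟨?_, ?_⟩, ?_⟩
  · rw [Fin.forall_fin_two]
    constructor
    · simpa using hdeg' 1
    · simpa using hdeg' 0
  · intro s hs
    by_contra hcon
    simp only [NZ, hV, not_or, not_not, Matrix.cons_val_zero, Matrix.cons_val_one,
      Matrix.cons_val_fin_one, hv_neg, neg_eq_zero] at hcon
    have hz : ∀ j, hv (e - m) (α j) s = 0 := by
      rw [Fin.forall_fin_two]; exact ⟨hcon.2, hcon.1⟩
    obtain ⟨i, j, hij⟩ := hnz s hs
    apply hij
    have hme' : e = m + (e - m) := by omega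
    clear hij
    revert i
    rw [Fin.forall_fin_two]
    constructor
    · rw [e0, hme', hv_mul (by simpa using hA.deg 1) (by simpa using hdeg' j)]
      have : m + (e - m) - m = e - m := by omega
      rw [hz j, mul_zero]
    · rw [e1, hme', hv_mul (hA.deg 0) (by simpa using hdeg' j), hz j, mul_zero]
  · rw [Fin.forall_fin_two]
    simp only [Matrix.cons_val_zero, Matrix.cons_val_one, Matrix.cons_val_fin_one]
    constructor
    · rw [e0, e0]; ring
    · rw [e1, e1]; ring

/-- If `W` is a pair of degree `M` larger than the degree of `f 0`, `f 1` and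
`W 0 * f 0 + W 1 * f 1 = 0` then `f = 0`. -/
theorem forced_zero [IsAlgClosed k] {M e : ℕ} (hMe : e < M) {W f : Fin 2 → k[X]} (hW : Good M W)
    (hf : ∀ i, (f i).natDegree ≤ e) (h : W 0 * f 0 + W 1 * f 1 = 0) : ∀ i, f i = 0 := by
  obtain ⟨u, v, huv⟩ := hW.isCoprime
  set l : k[X] := u * f 1 - v * f 0 with hl
  have e0 : f 0 = - (W 1) * l := by
    simp only [hl]; linear_combination -(f 0) * huv + u * h
  have e1 : f 1 = W 0 * l := by
    simp only [hl]; linear_combination -(f 1) * huv + v * h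
  have hl0 : l = 0 := by
    by_contra hne
    rcases hW.inf with h0 | h1
    · have := natDegree_of_mul_le (e := e) h0 (by rw [← e1]; exact hf 1) hne
      omega
    · have := natDegree_of_mul_le (e := e) (p := - (W 1)) (m := M) (by simpa using h1)
        (by rw [← e0]; exact hf 0) hne
      omega
  rw [Fin.forall_fin_two]
  constructor
  · rw [e0, hl0, mul_zero]
  · rw [e1, hl0, mul_zero]

end

end Pool.Agent.Hhelper17.Batyrev
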