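import Mathlib
import Pool.Agent.Hhelper17.BatyrevHV

/-!
# The chain of curves in the auxiliary surface
-/

set_option linter.all false

namespace Pool.Agent.Hhelper17.Batyrev

open Polynomial

section ring

variable {S : Type*} [CommRing S]

/-- The form `FF` with its slots read in the cyclic order `z, t, y, w`, starting at place `n`. -/
def Phi (n : ℕ) (x a b c d : Fin 2 → S) : S :=
  if n % 4 = 0 then FF b x c a d
  else if n % 4 = 1 then FF a x b d c
  else if n % 4 = 2 then FF d x a c b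
  else FF c x d b a

theorem Phi_succ (n : ℕ) (x a b c d : Fin 2 → S) : Phi (n + 1) x b c d a = Phi n x a b c d := by
  unfold Phi
  have h : n % 4 < 4 := Nat.mod_lt _ (by norm_num)
  by_cases h0 : n % 4 = 0
  · have : (n + 1) % 4 = 1 := by omega
    simp [h0, this]
  · by_cases h1 : n % 4 = 1
    · have : (n + 1) % 4 = 2 := by omega
      simp [h1, this]
    · by_cases h2 : n % 4 = 2
      · have : (n + 1) % 4 = 3 := by omega
        simp [h2, this]
      · have h3 : n % 4 = 3 := by omega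
        have : (n + 1) % 4 = 0 := by omega
        simp [h3, this]

theorem Phi_a (n : ℕ) (x a b c d : Fin 2 → S) :
    Phi n x a b c d = a 0 * Phi n x (ee 0) b c d + a 1 * Phi n x (ee 1) b c d := by
  unfold Phi
  split_ifs
  · exact FF_z _ _ _ _ _
  · exact FF_t _ _ _ _ _
  · exact FF_y _ _ _ _ _
  · exact FF_w _ _ _ _ _

theorem Phi_b (n : ℕ) (x a b c d : Fin 2 → S) :
    Phi n x a b c d = b 0 * Phi n x a (ee 0) c d + b 1 * Phi n x a (ee 1) c d := by
  rw [← Phi_succ, Phi_a, Phi_succ, Phi_succ]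

theorem Phi_c (n : ℕ) (x a b c d : Fin 2 → S) :
    Phi n x a b c d = c 0 * Phi n x a b (ee 0) d + c 1 * Phi n x a b (ee 1) d := by
  rw [← Phi_succ, Phi_b, Phi_succ, Phi_succ]

theorem Phi_d (n : ℕ) (x a b c d : Fin 2 → S) :
    Phi n x a b c d = d 0 * Phi n x a b c (ee 0) + d 1 * Phi n x a b c (ee 1) := by
  rw [← Phi_succ, Phi_c, Phi_succ, Phi_succ]

theorem Phi_b_smul (n : ℕ) (x a b c d : Fin 2 → S) (l : S) :
    Phi n x a (fun i => l * b i) c d = l * Phi n x a b c d := by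
  rw [Phi_b, Phi_b n x a b c d]; ring

theorem Phi_c_smul (n : ℕ) (x a b c d : Fin 2 → S) (l : S) :
    Phi n x a b (fun i => l * c i) d = l * Phi n x a b c d := by
  rw [Phi_c, Phi_c n x a b c d]; ring

/-- The relation `Phi n x a b c _ = 0`. -/
def Rel (n : ℕ) (x a b c : Fin 2 → S) : Prop := ∀ i, Phi n x a b c (ee i) = 0

theorem Rel.forward {n : ℕ} {x a b c : Fin 2 → S} (h : Rel n x a b c) (j : Fin 2) :
    a 0 * Phi n x (ee 0) b c (ee j) + a 1 * Phi n x (ee 1) b c (ee j) = 0 := by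
  rw [← Phi_a]; exact h j

theorem rel_succ_iff {n : ℕ} {x b c d : Fin 2 → S} : Rel (n + 1) x b c d ↔
    ∀ i, Phi n x (ee i) b c (ee 0) * d 0 + Phi n x (ee i) b c (ee 1) * d 1 = 0 := by
  unfold Rel
  apply forall_congr'
  intro i
  rw [Phi_succ, Phi_d, mul_comm (d 0), mul_comm (d 1)]

end ring

section

variable {k : Type*} [Field k] [CharZero k]

theorem nvPhi (n : ℕ) {x b c : Fin 2 → k} (hx : NZ x) (hb : NZ b) (hc : NZ c) :
    ∃ i j, Phi n x (ee i) b c (ee j) ≠ 0 := by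
  by_contra hcon
  push Not at hcon
  unfold Phi at hcon
  split_ifs at hcon with h0 h1 h2
  · exact nv0 hb hx hc hcon
  · exact nv1 hx hb hc hcon
  · exact nv2 hx hc hb hcon
  · exact nv3 hc hx hb hcon

omit [CharZero k] in
theorem FF_expand (t x y z w : Fin 2 → k[X]) : FF t x y z w =
    (t 0 * x 0 * y 0 * z 0 * w 0 + t 0 * x 1 * y 1 * z 1 * w 1)
    + (C 3 * (t 0 * x 0 * y 0 * z 1 * w 1 + t 0 * x 1 * y 1 * z 0 * w 0)
      + (t 1 * x 0 * y 0 * z 1 * w 1 + t 1 * x 1 * y 1 * z 0 * w 0))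
    + ((t 1 * x 0 * y 1 * z 0 * w 1 + t 1 * x 1 * y 0 * z 1 * w 0)
      - C 3 * (t 0 * x 0 * y 1 * z 0 * w 1 + t 0 * x 1 * y 0 * z 1 * w 0))
    + ((t 1 * x 0 * y 1 * z 1 * w 0 + t 1 * x 1 * y 0 * z 0 * w 1)
      - (t 0 * x 0 * y 1 * z 1 * w 0 + t 0 * x 1 * y 0 * z 0 * w 1)) := by
  have : (C 3 : k[X]) = 3 := map_ofNat C 3
  rw [this]
  unfold FF
  ring

omit [CharZero k] in
theorem nd5 {a b c d e : ℕ} {t x y z w : k[X]} (ht : t.natDegree ≤ a)
    (hx : x.natDegree ≤ b) (hy : y.natDegree ≤ c) (hz : z.natDegree ≤ d)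
    (hw : w.natDegree ≤ e) : (t * x * y * z * w).natDegree ≤ a + b + c + d + e :=
  natDegree_mul_le_of_le (natDegree_mul_le_of_le (natDegree_mul_le_of_le
    (natDegree_mul_le_of_le ht hx) hy) hz) hw

omit [CharZero k] in
theorem hv5 {a b c d e : ℕ} {t x y z w : k[X]} (ht : t.natDegree ≤ a)
    (hx : x.natDegree ≤ b) (hy : y.natDegree ≤ c) (hz : z.natDegree ≤ d)
    (hw : w.natDegree ≤ e) (s : Fin 2 → k) : hv (a + b + c + d + e) (t * x * y * z * w) s =
      hv a t s * hv b x s * hv c y s * hv d z s * hv e w s := by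
  rw [hv_mul (natDegree_mul_le_of_le (natDegree_mul_le_of_le
    (natDegree_mul_le_of_le ht hx) hy) hz) hw, hv_mul (natDegree_mul_le_of_le
    (natDegree_mul_le_of_le ht hx) hy) hz, hv_mul (natDegree_mul_le_of_le ht hx) hy, hv_mul ht hx]

omit [CharZero k] in
theorem natDegree_FF_le {a b c d e D : ℕ} {t x y z w : Fin 2 → k[X]}
    (ht : ∀ i, (t i).natDegree ≤ a) (hx : ∀ i, (x i).natDegree ≤ b)
    (hy : ∀ i, (y i).natDegree ≤ c) (hz : ∀ i, (z i).natDegree ≤ d)
    (hw : ∀ i, (w i).natDegree ≤ e) (hD : D = a + b + c + d + e) :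
    (FF t x y z w).natDegree ≤ D := by
  have h : ∀ i j l m n, (t i * x j * y l * z m * w n).natDegree ≤ D :=
    fun i j l m n => hD ▸ nd5 (ht i) (hx j) (hy l) (hz m) (hw n)
  have hadd : ∀ {p q : k[X]}, p.natDegree ≤ D → q.natDegree ≤ D → (p + q).natDegree ≤ D :=
    fun hp hq => (natDegree_add_le _ _).trans (max_le hp hq)
  have hsub : ∀ {p q : k[X]}, p.natDegree ≤ D → q.natDegree ≤ D → (p - q).natDegree ≤ D :=
    fun hp hq => (natDegree_sub_le _ _).trans (max_le hp hq)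
  have hC : ∀ {p : k[X]}, p.natDegree ≤ D → (C 3 * p).natDegree ≤ D :=
    fun hp => (natDegree_C_mul_le _ _).trans hp
  rw [FF_expand]
  refine hadd (hadd (hadd ?_ (hadd (hC ?_) ?_)) (hsub ?_ (hC ?_))) (hsub ?_ ?_) <;>
    exact hadd (h _ _ _ _ _) (h _ _ _ _ _)

omit [CharZero k] in
theorem hvFF {a b c d e D : ℕ} {t x y z w : Fin 2 → k[X]}
    (ht : ∀ i, (t i).natDegree ≤ a) (hx : ∀ i, (x i).natDegree ≤ b)
    (hy : ∀ i, (y i).natDegree ≤ c) (hz : ∀ i, (z i).natDegree ≤ d)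
    (hw : ∀ i, (w i).natDegree ≤ e) (hD : D = a + b + c + d + e) (s : Fin 2 → k) :
    hv D (FF t x y z w) s = FF (hV a t s) (hV b x s) (hV c y s) (hV d z s) (hV e w s) := by
  have h : ∀ i j l m n, hv D (t i * x j * y l * z m * w n) s =
      hv a (t i) s * hv b (x j) s * hv c (y l) s * hv d (z m) s * hv e (w n) s :=
    fun i j l m n => hD ▸ hv5 (ht i) (hx j) (hy l) (hz m) (hw n) s
  rw [FF_expand]
  simp only [hv_add, hv_sub, hv_C_mul, h]
  simp only [FF, hV]
  ring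

omit [CharZero k] in
theorem natDegree_Phi_le (n : ℕ) {dx da db dc dd D : ℕ} {x a b c d : Fin 2 → k[X]}
    (hx : ∀ i, (x i).natDegree ≤ dx) (ha : ∀ i, (a i).natDegree ≤ da)
    (hb : ∀ i, (b i).natDegree ≤ db) (hc : ∀ i, (c i).natDegree ≤ dc)
    (hd : ∀ i, (d i).natDegree ≤ dd) (hD : D = dx + da + db + dc + dd) :
    (Phi n x a b c d).natDegree ≤ D := by
  unfold Phi
  split_ifs
  · exact natDegree_FF_le hb hx hc ha hd (by omega)
  · exact natDegree_FF_le ha hx hb hd hc (by omega)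
  · exact natDegree_FF_le hd hx ha hc hb (by omega)
  · exact natDegree_FF_le hc hx hd hb ha (by omega)

omit [CharZero k] in
theorem hvPhi (n : ℕ) {dx da db dc dd D : ℕ} {x a b c d : Fin 2 → k[X]}
    (hx : ∀ i, (x i).natDegree ≤ dx) (ha : ∀ i, (a i).natDegree ≤ da)
    (hb : ∀ i, (b i).natDegree ≤ db) (hc : ∀ i, (c i).natDegree ≤ dc)
    (hd : ∀ i, (d i).natDegree ≤ dd) (hD : D = dx + da + db + dc + dd) (s : Fin 2 → k) :
    hv D (Phi n x a b c d) s =
      Phi n (hV dx x s) (hV da a s) (hV db b s) (hV dc c s) (hV dd d s) := by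
  unfold Phi
  split_ifs
  · exact hvFF hb hx hc ha hd (by omega) s
  · exact hvFF ha hx hb hd hc (by omega) s
  · exact hvFF hd hx ha hc hb (by omega) s
  · exact hvFF hc hx hd hb ha (by omega) s

omit [CharZero k] in
theorem natDegree_ee (i j : Fin 2) : ((ee i : Fin 2 → k[X]) j).natDegree ≤ 0 := by
  unfold ee; split_ifs <;> simp

omit [CharZero k] in
theorem hV_ee (i : Fin 2) (s : Fin 2 → k) : hV 0 (ee i : Fin 2 → k[X]) s = ee i := by
  ext j
  simp only [hV, hv_eq_sum, ee]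
  split_ifs <;> simp

/-- the tautological pair (X, 1) -/
noncomputable def xx : Fin 2 → k[X] := ![X, 1]

omit [CharZero k] in
theorem hV_xx (s : Fin 2 → k) : hV 1 (xx : Fin 2 → k[X]) s = s := by
  ext j
  revert j
  rw [Fin.forall_fin_two]
  constructor
  · simp [hV, xx, hv]
  · simp [hV, xx, hv]

omit [CharZero k] in
theorem good_xx : Good 1 (xx : Fin 2 → k[X]) := by
  refine ⟨?_, fun s hs => by rw [hV_xx]; exact hs⟩
  rw [Fin.forall_fin_two]
  constructor
  · simp [xx]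
  · simp [xx]

/-- matrix of the step is nowhere vanishing -/
theorem phi_nz (n : ℕ) {mb mc e : ℕ} {b c : Fin 2 → k[X]} (hb : Good mb b) (hc : Good mc c)
    (he : e = 1 + mb + mc) (s : Fin 2 → k) (hs : NZ s) :
    ∃ i j, hv e (Phi n xx (ee i) b c (ee j)) s ≠ 0 := by
  obtain ⟨i, j, hij⟩ := nvPhi n hs (hb.nz s hs) (hc.nz s hs)
  refine ⟨i, j, ?_⟩
  rw [hvPhi n good_xx.deg (natDegree_ee i) hb.deg hc.deg (natDegree_ee j) (by omega), hV_xx,
    hV_ee, hV_ee]
  exact hij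

variable [IsAlgClosed k]

theorem phi_ne (n : ℕ) {mb mc : ℕ} {b c : Fin 2 → k[X]} (hb : Good mb b) (hc : Good mc c) :
    ∃ i j, (Phi n xx (ee i) b c (ee j)) ≠ 0 := by
  obtain ⟨i, j, hij⟩ := phi_nz n hb hc rfl ![1, 0] (Or.inl (by simp))
  exact ⟨i, j, fun h => hij (by rw [h, hv_zero])⟩

/-- forward step -/
theorem forward {n ma mb mc : ℕ} {a b c : Fin 2 → k[X]} (ha : Good ma a) (hb : Good mb b)
    (hc : Good mc c) (h : Rel n xx a b c) : ma ≤ 1 + mb + mc ∧
    ∃ d : Fin 2 → k[X], Good (1 + mb + mc - ma) d ∧ Rel (n + 1) xx b c d := by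
  have := step_exists (e := 1 + mb + mc) ha (M := fun i j => Phi n xx (ee i) b c (ee j))
    (fun i j => natDegree_Phi_le n good_xx.deg (natDegree_ee i) hb.deg hc.deg (natDegree_ee j)
      (by omega)) (fun s hs => phi_nz n hb hc rfl s hs) h.forward
  obtain ⟨h1, d, hd, hd'⟩ := this
  exact ⟨h1, d, hd, rel_succ_iff.mpr hd'⟩

/-- backward step -/
theorem backward {n mb mc md : ℕ} {b c d : Fin 2 → k[X]} (hb : Good mb b)
    (hc : Good mc c) (hd : Good md d) (h : Rel (n + 1) xx b c d) : md ≤ 1 + mb + mc ∧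
    ∃ a : Fin 2 → k[X], Good (1 + mb + mc - md) a ∧ Rel n xx a b c := by
  have := step_exists (e := 1 + mb + mc) hd (M := fun j i => Phi n xx (ee i) b c (ee j))
    (fun i j => natDegree_Phi_le n good_xx.deg (natDegree_ee j) hb.deg hc.deg (natDegree_ee i)
      (by omega))
    (fun s hs => by obtain ⟨i, j, hij⟩ := phi_nz n hb hc rfl s hs; exact ⟨j, i, hij⟩)
    (fun i => by have := rel_succ_iff.mp h i; rw [mul_comm (d 0), mul_comm (d 1)]; exact this)
  obtain ⟨h1, a, ha, ha'⟩ := this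
  refine ⟨h1, a, ha, fun i => ?_⟩
  rw [Phi_a]
  rw [mul_comm (a 0), mul_comm (a 1)]
  exact ha' i

theorem rel_smul {n : ℕ} {S : Type*} [CommRing S] [IsDomain S] {x a b c b' c' : Fin 2 → S}
    {l m : S} (hl : l ≠ 0) (hm : m ≠ 0)
    (hb : ∀ i, b' i = l * b i) (hc : ∀ i, c' i = m * c i) :
    (Rel n x a b c ↔ Rel n x a b' c') := by
  have eb : b' = fun i => l * b i := funext hb
  have ec : c' = fun i => m * c i := funext hc
  subst eb ec
  unfold Rel
  apply forall_congr'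
  intro i
  rw [Phi_b_smul, Phi_c_smul]
  constructor
  · intro h; rw [h]; ring
  · intro h
    exact (mul_eq_zero.mp ((mul_eq_zero.mp h).resolve_left hl)).resolve_left hm

/-- uniqueness of the first member given the other two -/
theorem left_unique {n mb mc : ℕ} {a a' b c : Fin 2 → k[X]} (hb : Good mb b) (hc : Good mc c)
    (h : Rel n xx a b c) (h' : Rel n xx a' b c) : PP a a' := by
  obtain ⟨i, j, hij⟩ := phi_ne n hb hc
  refine ker_unique (M := fun j i => Phi n xx (ee i) b c (ee j)) ⟨j, i, hij⟩ ?_ ?_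
  · intro j
    rw [mul_comm _ (a 0), mul_comm _ (a 1)]
    exact h.forward j
  · intro j
    rw [mul_comm _ (a' 0), mul_comm _ (a' 1)]
    exact h'.forward j

/-- uniqueness of the last member given the other two -/
theorem right_unique {n mb mc : ℕ} {d d' b c : Fin 2 → k[X]} (hb : Good mb b) (hc : Good mc c)
    (h : Rel (n + 1) xx b c d) (h' : Rel (n + 1) xx b c d') : PP d d' := by
  obtain ⟨i, j, hij⟩ := phi_ne n hb hc
  exact ker_unique (M := fun i j => Phi n xx (ee i) b c (ee j)) ⟨i, j, hij⟩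
    (rel_succ_iff.mp h) (rel_succ_iff.mp h')

end

/-- the degrees of the chain -/
def mm (n : ℕ) : ℕ := (n / 2) * ((n - 1) / 2)

theorem mm_rec (n : ℕ) : mm (n + 3) + mm n = 1 + mm (n + 1) + mm (n + 2) := by
  unfold mm
  obtain ⟨v, rfl | rfl⟩ := Nat.even_or_odd' n
  · have e1 : (2 * v + 3) / 2 = v + 1 := by omega
    have e2 : (2 * v + 3 - 1) / 2 = v + 1 := by omega
    have e3 : (2 * v) / 2 = v := by omega
    have e5 : (2 * v + 1) / 2 = v := by omega
    have e6 : (2 * v + 1 - 1) / 2 = v := by omega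
    have e7 : (2 * v + 2) / 2 = v + 1 := by omega
    have e8 : (2 * v + 2 - 1) / 2 = v := by omega
    rw [e1, e2, e3, e5, e6, e7, e8]
    rcases Nat.eq_zero_or_pos v with rfl | hv
    · simp
    · obtain ⟨u, rfl⟩ : ∃ u, v = u + 1 := ⟨v - 1, by omega⟩
      have e4 : (2 * (u + 1) - 1) / 2 = u := by omega
      rw [e4]
      ring
  · have e1 : (2 * v + 1 + 3) / 2 = v + 2 := by omega
    have e2 : (2 * v + 1 + 3 - 1) / 2 = v + 1 := by omega
    have e3 : (2 * v + 1) / 2 = v := by omega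
    have e4 : (2 * v + 1 - 1) / 2 = v := by omega
    have e5 : (2 * v + 1 + 1) / 2 = v + 1 := by omega
    have e6 : (2 * v + 1 + 1 - 1) / 2 = v := by omega
    have e7 : (2 * v + 1 + 2) / 2 = v + 1 := by omega
    have e8 : (2 * v + 1 + 2 - 1) / 2 = v + 1 := by omega
    rw [e1, e2, e3, e4, e5, e6, e7, e8]
    ring

theorem mm_one (q : ℕ) : mm (4 * q + 1) = 4 * q ^ 2 := by
  unfold mm
  have e1 : (4 * q + 1) / 2 = 2 * q := by omega
  have e2 : (4 * q + 1 - 1) / 2 = 2 * q := by omega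
  rw [e1, e2]; ring

theorem mm_two (q : ℕ) : mm (4 * q + 2) = 4 * q ^ 2 + 2 * q := by
  unfold mm
  have e1 : (4 * q + 2) / 2 = 2 * q + 1 := by omega
  have e2 : (4 * q + 2 - 1) / 2 = 2 * q := by omega
  rw [e1, e2]; ring

theorem mm_zero_le (q : ℕ) : mm (4 * q) ≤ 4 * q ^ 2 := by
  unfold mm
  have e1 : (4 * q) / 2 = 2 * q := by omega
  have e2 : (4 * q - 1) / 2 ≤ 2 * q := by omega
  rw [e1]
  calc 2 * q * ((4 * q - 1) / 2) ≤ 2 * q * (2 * q) := Nat.mul_le_mul_left _ e2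
    _ = 4 * q ^ 2 := by ring

section

variable {k : Type*} [Field k] [CharZero k] [IsAlgClosed k]

/-- A triple of consecutive members of a chain. -/
structure Tr (n : ℕ) (a b c : Fin 2 → k[X]) : Prop where
  ga : Good (mm n) a
  gb : Good (mm (n + 1)) b
  gc : Good (mm (n + 2)) c
  rel : Rel n xx a b c

theorem Tr.next {n : ℕ} {a b c : Fin 2 → k[X]} (h : Tr n a b c) :
    ∃ d, Tr (n + 1) b c d := by
  obtain ⟨h1, d, hd, hr⟩ := forward h.ga h.gb h.gc h.rel
  refine ⟨d, h.gb, h.gc, ?_, hr⟩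
  have := mm_rec n
  have e : 1 + mm (n + 1) + mm (n + 2) - mm n = mm (n + 1 + 2) := by
    have : n + 1 + 2 = n + 3 := rfl
    rw [this]; omega
  rw [← e]; exact hd

theorem Tr.prev {n : ℕ} {b c d : Fin 2 → k[X]} (h : Tr (n + 1) b c d) :
    ∃ a, Tr n a b c := by
  obtain ⟨h1, a, ha, hr⟩ := backward h.ga h.gb h.gc h.rel
  refine ⟨a, ?_, h.ga, h.gb, hr⟩
  have := mm_rec n
  have e : 1 + mm (n + 1) + mm (n + 1 + 1) - mm (n + 1 + 2) = mm n := by
    have : n + 1 + 2 = n + 3 := rfl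
    rw [this]
    have : n + 1 + 1 = n + 2 := rfl
    rw [this]; omega
  rw [← e]; exact ha

/-- the starting points of the two chains -/
noncomputable def st (ε : k) : Fin 2 → k[X] := ![1, C ε]

theorem good_zero_of_const {v : Fin 2 → k} (hv : NZ v) : Good 0 (fun i => C (v i)) := by
  refine Good.mk' (fun i => by simp) ?_ ?_
  · rcases hv with h | h
    · exact ⟨C (v 0)⁻¹, 0, by rw [zero_mul, add_zero, ← C_mul, inv_mul_cancel₀ h, C_1]⟩
    · exact ⟨0, C (v 1)⁻¹, by rw [zero_mul, zero_add, ← C_mul, inv_mul_cancel₀ h, C_1]⟩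
  · simpa [NZ] using hv

theorem good_zero_eq {g : Fin 2 → k[X]} (h : Good 0 g) :
    ∃ v : Fin 2 → k, NZ v ∧ g = fun i => C (v i) := by
  refine ⟨fun i => (g i).coeff 0, h.inf, ?_⟩
  ext1 i
  exact eq_C_of_natDegree_le_zero (h.deg i)

theorem FF_C (t x y z w : Fin 2 → k) :
    FF (fun i => (C (t i) : k[X])) (fun i => C (x i)) (fun i => C (y i)) (fun i => C (z i))
      (fun i => C (w i)) = C (FF t x y z w) := by
  unfold FF
  simp only [map_add, map_sub, map_mul]
  have : (C (3 : k) : k[X]) = 3 := map_ofNat C 3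
  rw [this]

theorem ee_C (i : Fin 2) : (ee i : Fin 2 → k[X]) = fun j => C ((ee i : Fin 2 → k) j) := by
  ext1 j
  unfold ee
  split_ifs <;> simp

theorem FF_xx (t y z w : Fin 2 → k) :
    FF (fun i => (C (t i) : k[X])) xx (fun i => C (y i)) (fun i => C (z i))
      (fun i => C (w i)) = X * C (FF t (ee 0) y z w) + C (FF t (ee 1) y z w) := by
  rw [FF_x, ee_C, ee_C, FF_C, FF_C]
  simp [xx]

theorem linear_eq_zero_iff (a b : k) : (X * C a + C b = (0 : k[X])) ↔ a = 0 ∧ b = 0 := by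
  constructor
  · intro h
    have h0 := congrArg (fun p => coeff p 0) h
    have h1 := congrArg (fun p => coeff p 1) h
    simp at h0
    simp [coeff_X, coeff_C] at h1
    exact ⟨h1, h0⟩
  · rintro ⟨rfl, rfl⟩; simp

/-- classification of the triples of degree zero -/
theorem Tr.zero {a b c : Fin 2 → k[X]} (h : Tr 0 a b c) :
    ∃ ε : k, (ε = 1 ∨ ε = -1) ∧ PP (st ε) a ∧ PP ![1, 0] b ∧ PP (st ε) c := by
  obtain ⟨ga, gb, gc, hr⟩ := h
  have m0 : mm 0 = 0 := rfl
  have m1 : mm (0 + 1) = 0 := rfl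
  have m2 : mm (0 + 2) = 0 := rfl
  rw [m0] at ga
  rw [m1] at gb
  rw [m2] at gc
  obtain ⟨a, ha, rfl⟩ := good_zero_eq ga
  obtain ⟨b, hb, rfl⟩ := good_zero_eq gb
  obtain ⟨c, hc, rfl⟩ := good_zero_eq gc
  have key : ∀ i j, FF b (ee i) c a (ee j) = 0 := by
    intro i j
    have := hr j
    simp only [Phi, Nat.zero_mod, if_true] at this
    rw [ee_C, FF_xx, linear_eq_zero_iff] at this
    revert i
    rw [Fin.forall_fin_two]
    exact this
  obtain ⟨hb1, h⟩ := classify hb hc ha key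
  rcases h with ⟨h1, h2⟩ | ⟨h1, h2⟩
  · refine ⟨1, Or.inl rfl, ?_, ?_, ?_⟩
    · simp [PP, st, h2]
    · simp [PP, hb1]
    · simp [PP, st, h1]
  · refine ⟨-1, Or.inr rfl, ?_, ?_, ?_⟩
    · simp [PP, st, h2]
    · simp [PP, hb1]
    · simp [PP, st, h1]

theorem tr_start {ε : k} (hε : ε = 1 ∨ ε = -1) : Tr 0 (st ε) ![1, 0] (st ε) := by
  have hst : (st ε) = fun i => C ((![1, ε] : Fin 2 → k) i) := by
    ext1 i
    revert i
    rw [Fin.forall_fin_two]
    simp [st]
  have h10 : (![1, 0] : Fin 2 → k[X]) = fun i => C ((![1, 0] : Fin 2 → k) i) := by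
    ext1 i
    revert i
    rw [Fin.forall_fin_two]
    simp
  rw [hst, h10]
  refine ⟨good_zero_of_const (Or.inl (by simp)), good_zero_of_const (Or.inl (by simp)),
    good_zero_of_const (Or.inl (by simp)), ?_⟩
  intro j
  simp only [Phi, Nat.zero_mod, if_true]
  rw [ee_C, FF_xx, linear_eq_zero_iff]
  revert j
  rw [Fin.forall_fin_two]
  rcases hε with rfl | rfl
  · simp [FF]
  · simp [FF]

/-- proportional triples -/
def PT (a b c a' b' c' : Fin 2 → k[X]) : Prop := PP a a' ∧ PP b b' ∧ PP c c'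

theorem Good.smul_of {m m' : ℕ} {g h : Fin 2 → k[X]} (hg : Good m g)
    (hh : Good m' h) (H : PP g h) : ∃ c : k[X], c ≠ 0 ∧ ∀ i, h i = c * g i := by
  obtain ⟨_, c, hc, hi⟩ := hg.eq_smul hh H
  exact ⟨C c, C_ne_zero.mpr hc, hi⟩

theorem PT.back {n : ℕ} {a b c d a' b' c' d' : Fin 2 → k[X]} (h1 : Tr n a b c)
    (h2 : Tr (n + 1) b c d) (h1' : Tr n a' b' c') (h2' : Tr (n + 1) b' c' d')
    (h : PT b c d b' c' d') : PT a b c a' b' c' := by
  refine ⟨?_, h.1, h.2.1⟩
  obtain ⟨l, hl, hl'⟩ := h1.gb.smul_of h1'.gb h.1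
  obtain ⟨m, hm, hm'⟩ := h1.gc.smul_of h1'.gc h.2.1
  exact left_unique h1.gb h1.gc h1.rel ((rel_smul hl hm hl' hm').mpr h1'.rel)

theorem PT.forth {n : ℕ} {a b c d a' b' c' d' : Fin 2 → k[X]} (h1 : Tr n a b c)
    (h2 : Tr (n + 1) b c d) (h1' : Tr n a' b' c') (h2' : Tr (n + 1) b' c' d')
    (h : PT a b c a' b' c') : PT b c d b' c' d' := by
  refine ⟨h.2.1, h.2.2, ?_⟩
  obtain ⟨l, hl, hl'⟩ := h1.gb.smul_of h1'.gb h.2.1
  obtain ⟨m, hm, hm'⟩ := h1.gc.smul_of h1'.gc h.2.2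
  refine right_unique h1.gb h1.gc h2.rel (d' := d') (n := n) ?_
  -- rel (n+1) b' c' d' and b', c' proportional
  have h3 := h2'.rel
  intro i
  have h4 := h3 i
  have eb : b' = fun i => l * b i := funext hl'
  have ec : c' = fun i => m * c i := funext hm'
  rw [Phi_succ] at h4 ⊢
  rw [eb, ec, Phi_b_smul, Phi_c_smul] at h4
  exact (mul_eq_zero.mp ((mul_eq_zero.mp h4).resolve_left hl)).resolve_left hm

/-- the next member of the chain -/
noncomputable def nxt (n : ℕ) (b c : Fin 2 → k[X]) : Fin 2 → k[X] :=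
  open Classical in if h : ∃ d, Tr (n + 1) b c d then h.choose else ![0, 0]

/-- the triples of the chain -/
noncomputable def tri (ε : k) : ℕ → (Fin 2 → k[X]) × (Fin 2 → k[X]) × (Fin 2 → k[X])
  | 0 => (st ε, ![1, 0], st ε)
  | n + 1 => ((tri ε n).2.1, (tri ε n).2.2, nxt n (tri ε n).2.1 (tri ε n).2.2)

/-- the chain -/
noncomputable def gg (ε : k) (n : ℕ) : Fin 2 → k[X] := (tri ε n).1

theorem tri_eq (ε : k) (n : ℕ) : tri ε n = (gg ε n, gg ε (n + 1), gg ε (n + 2)) := rfl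

theorem tr_gg {ε : k} (hε : ε = 1 ∨ ε = -1) (n : ℕ) :
    Tr n (gg ε n) (gg ε (n + 1)) (gg ε (n + 2)) := by
  induction n with
  | zero => exact tr_start hε
  | succ n ih =>
    have h : ∃ d, Tr (n + 1) (gg ε (n + 1)) (gg ε (n + 2)) d := ih.next
    have e : gg ε (n + 1 + 2) = nxt n (gg ε (n + 1)) (gg ε (n + 2)) := rfl
    rw [e, nxt, dif_pos h]
    exact h.choose_spec

theorem gg_zero (ε : k) : gg ε 0 = st ε := rfl
theorem gg_one (ε : k) : gg ε 1 = ![1, 0] := rfl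
theorem gg_two (ε : k) : gg ε 2 = st ε := rfl

/-- uniqueness of the chains -/
theorem Tr.unique {n : ℕ} {a b c : Fin 2 → k[X]} (h : Tr n a b c) :
    ∃ ε : k, (ε = 1 ∨ ε = -1) ∧ PT (gg ε n) (gg ε (n + 1)) (gg ε (n + 2)) a b c := by
  induction n generalizing a b c with
  | zero => exact h.zero
  | succ n ih =>
    obtain ⟨a', ha'⟩ := h.prev
    obtain ⟨ε, hε, hp⟩ := ih ha'
    exact ⟨ε, hε, hp.forth (tr_gg hε n) (tr_gg hε (n + 1)) ha' h⟩

theorem PP.trans_good {m : ℕ} {a b c : Fin 2 → k[X]} (hb : Good m b) (h1 : PP a b)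
    (h2 : PP b c) : PP a c := by
  unfold PP at *
  rcases hb.inf with h | h
  · have h0 : b 0 ≠ 0 := fun h' => h (by simp [h'])
    apply mul_left_cancel₀ h0
    linear_combination (c 0) * h1 + (a 0) * h2
  · have h0 : b 1 ≠ 0 := fun h' => h (by simp [h'])
    apply mul_left_cancel₀ h0
    linear_combination (c 1) * h1 + (a 1) * h2

/-- the two chains are different -/
theorem gg_disjoint (n : ℕ) {a b c : Fin 2 → k[X]}
    (h1 : PT (gg 1 n) (gg 1 (n + 1)) (gg 1 (n + 2)) a b c)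
    (h2 : PT (gg (-1) n) (gg (-1) (n + 1)) (gg (-1) (n + 2)) a b c)
    (h : Tr n a b c) : False := by
  have key : ∀ n, ¬ PT (gg (1 : k) n) (gg 1 (n + 1)) (gg 1 (n + 2)) (gg (-1) n)
      (gg (-1) (n + 1)) (gg (-1) (n + 2)) := by
    intro n
    induction n with
    | zero =>
      intro hp
      have := hp.1
      simp only [gg_zero, PP, st, Matrix.cons_val_zero, Matrix.cons_val_one,
        Matrix.cons_val_fin_one, one_mul, mul_one] at this
      have := C_injective this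
      norm_num at this
    | succ n ih =>
      intro hp
      exact ih (hp.back (tr_gg (Or.inl rfl) n) (tr_gg (Or.inl rfl) (n + 1))
        (tr_gg (Or.inr rfl) n) (tr_gg (Or.inr rfl) (n + 1)))
  refine key n ⟨?_, ?_, ?_⟩
  · exact PP.trans_good h.ga h1.1 h2.1.symm
  · exact PP.trans_good h.gb h1.2.1 h2.2.1.symm
  · exact PP.trans_good h.gc h1.2.2 h2.2.2.symm

end

end Pool.Agent.Hhelper17.Batyrev
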