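import Mathlib
import Pool.Agent.Hhelper17.BatyrevChain

/-!
# Values of the chain at infinity
-/

set_option linter.all false

namespace Pool.Agent.Hhelper17.Batyrev

open Polynomial

section

variable {k : Type*} [Field k] [CharZero k]

/-- the values at infinity of the chain -/
def EE (ε : k) (n : ℕ) : Fin 2 → k :=
  if n % 8 = 0 then ![1, ε]
  else if n % 8 = 1 then ![1, 0]
  else if n % 8 = 2 then ![1, ε]
  else if n % 8 = 3 then ![3, ε]
  else if n % 8 = 4 then ![4, -ε]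
  else if n % 8 = 5 then ![1, 9]
  else if n % 8 = 6 then ![2, ε]
  else ![3, -ε]

theorem EE_nz (ε : k) (n : ℕ) : NZ (EE ε n) := by
  left
  unfold EE
  split_ifs <;> simp

theorem EE_rel {ε : k} (hε : ε = 1 ∨ ε = -1) (n : ℕ) :
    Rel n ![1, 0] (EE ε n) (EE ε (n + 1)) (EE ε (n + 2)) := by
  intro i
  obtain ⟨m, r, hr, rfl⟩ : ∃ m r, r < 8 ∧ n = 8 * m + r :=
    ⟨n / 8, n % 8, Nat.mod_lt _ (by norm_num), by omega⟩
  revert i
  rw [Fin.forall_fin_two]
  unfold EE Phi
  interval_cases r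
  · have h1 : (8 * m + 0) % 8 = 0 := by omega
    have h2 : (8 * m + 0 + 1) % 8 = 1 := by omega
    have h3 : (8 * m + 0 + 2) % 8 = 2 := by omega
    have h4 : (8 * m + 0) % 4 = 0 := by omega
    have h5 : (8 * m) % 4 = 0 := by omega
    rcases hε with rfl | rfl <;> simp [h1, h2, h3, h4, h5, FF] <;> norm_num
  · have h1 : (8 * m + 1) % 8 = 1 := by omega
    have h2 : (8 * m + 1 + 1) % 8 = 2 := by omega
    have h3 : (8 * m + 1 + 2) % 8 = 3 := by omega
    have h4 : (8 * m + 1) % 4 = 1 := by omega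
    rcases hε with rfl | rfl <;> simp [h1, h2, h3, h4, FF] <;> norm_num
  · have h1 : (8 * m + 2) % 8 = 2 := by omega
    have h2 : (8 * m + 2 + 1) % 8 = 3 := by omega
    have h3 : (8 * m + 2 + 2) % 8 = 4 := by omega
    have h4 : (8 * m + 2) % 4 = 2 := by omega
    rcases hε with rfl | rfl <;> simp [h1, h2, h3, h4, FF] <;> norm_num
  · have h1 : (8 * m + 3) % 8 = 3 := by omega
    have h2 : (8 * m + 3 + 1) % 8 = 4 := by omega
    have h3 : (8 * m + 3 + 2) % 8 = 5 := by omega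
    have h4 : (8 * m + 3) % 4 = 3 := by omega
    rcases hε with rfl | rfl <;> simp [h1, h2, h3, h4, FF] <;> norm_num
  · have h1 : (8 * m + 4) % 8 = 4 := by omega
    have h2 : (8 * m + 4 + 1) % 8 = 5 := by omega
    have h3 : (8 * m + 4 + 2) % 8 = 6 := by omega
    have h4 : (8 * m + 4) % 4 = 0 := by omega
    rcases hε with rfl | rfl <;> simp [h1, h2, h3, h4, FF] <;> norm_num
  · have h1 : (8 * m + 5) % 8 = 5 := by omega
    have h2 : (8 * m + 5 + 1) % 8 = 6 := by omega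
    have h3 : (8 * m + 5 + 2) % 8 = 7 := by omega
    have h4 : (8 * m + 5) % 4 = 1 := by omega
    rcases hε with rfl | rfl <;> simp [h1, h2, h3, h4, FF] <;> norm_num
  · have h1 : (8 * m + 6) % 8 = 6 := by omega
    have h2 : (8 * m + 6 + 1) % 8 = 7 := by omega
    have h3 : (8 * m + 6 + 2) % 8 = 0 := by omega
    have h4 : (8 * m + 6) % 4 = 2 := by omega
    rcases hε with rfl | rfl <;> simp [h1, h2, h3, h4, FF] <;> norm_num
  · have h1 : (8 * m + 7) % 8 = 7 := by omega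
    have h2 : (8 * m + 7 + 1) % 8 = 0 := by omega
    have h3 : (8 * m + 7 + 2) % 8 = 1 := by omega
    have h4 : (8 * m + 7) % 4 = 3 := by omega
    rcases hε with rfl | rfl <;> simp [h1, h2, h3, h4, FF] <;> norm_num

omit [CharZero k] in
/-- value at infinity -/
noncomputable def vinf (n : ℕ) (g : Fin 2 → k[X]) : Fin 2 → k := hV (mm n) g ![1, 0]

omit [CharZero k] in
theorem vinf_eq (n : ℕ) (g : Fin 2 → k[X]) (i : Fin 2) : vinf n g i = (g i).coeff (mm n) := by
  unfold vinf hV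
  rw [hv_inf (by simp)]
  simp

variable [IsAlgClosed k]

theorem Tr.rel_inf {n : ℕ} {a b c : Fin 2 → k[X]} (h : Tr n a b c) :
    Rel n ![1, 0] (vinf n a) (vinf (n + 1) b) (vinf (n + 2) c) := by
  intro i
  have := hvPhi n (D := 1 + mm n + mm (n + 1) + mm (n + 2) + 0) good_xx.deg h.ga.deg h.gb.deg
    h.gc.deg (natDegree_ee i) rfl ![1, 0]
  rw [h.rel i, hv_zero, hV_xx, hV_ee] at this
  exact this.symm

theorem EE_gg {ε : k} (hε : ε = 1 ∨ ε = -1) (n : ℕ) :
    PP (EE ε n) (vinf n (gg ε n)) ∧ PP (EE ε (n + 1)) (vinf (n + 1) (gg ε (n + 1))) ∧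
      PP (EE ε (n + 2)) (vinf (n + 2) (gg ε (n + 2))) := by
  induction n with
  | zero =>
    have m0 : mm 0 = 0 := rfl
    have m1 : mm 1 = 0 := rfl
    have m2 : mm 2 = 0 := rfl
    simp only [PP, vinf_eq, gg_zero, gg_one, gg_two, zero_add, m0, m1, m2]
    simp [EE, st]
  | succ n ih =>
    obtain ⟨h0, h1, h2⟩ := ih
    refine ⟨h1, h2, ?_⟩
    have t := tr_gg hε (n + 1)
    have hv1 : NZ (vinf (n + 1) (gg ε (n + 1))) := t.ga.nz _ (by left; simp)
    have hv2 : NZ (vinf (n + 2) (gg ε (n + 2))) := t.gb.nz _ (by left; simp)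
    obtain ⟨l, hl, hl'⟩ := h1.smul_vec (EE_nz ε (n + 1)) hv1
    obtain ⟨m, hm, hm'⟩ := h2.smul_vec (EE_nz ε (n + 2)) hv2
    have r := rel_succ_iff.mp t.rel_inf
    have r' := rel_succ_iff.mp (EE_rel hε (n + 1))
    obtain ⟨i, j, hij⟩ := nvPhi n (x := ![1, 0]) (by left; simp) (EE_nz ε (n + 1))
      (EE_nz ε (n + 2))
    refine ker_unique (M := fun i j => Phi n ![1, 0] (ee i) (EE ε (n + 1)) (EE ε (n + 2)) (ee j))
      ⟨i, j, hij⟩ r' ?_
    intro i
    have ri := r i
    have e1 : vinf (n + 1) (gg ε (n + 1)) = fun i => l * EE ε (n + 1) i := funext hl'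
    have e2 : vinf (n + 1 + 1) (gg ε (n + 1 + 1)) = fun i => m * EE ε (n + 2) i := funext hm'
    rw [e1, e2, Phi_b_smul, Phi_c_smul, Phi_b_smul, Phi_c_smul] at ri
    have hlm : l * m ≠ 0 := mul_ne_zero hl hm
    apply mul_left_cancel₀ hlm
    linear_combination ri

/-- the leading coefficient of `T₁ - c T₀` does not vanish for `c ∈ {-1, 2, 4}` -/
theorem lead_ne {ε : k} (hε : ε = 1 ∨ ε = -1) (q : ℕ) (c : Fin 3) :
    (gg ε (4 * q + 1) 1 - C (CC c : k) * gg ε (4 * q + 1) 0).coeff (mm (4 * q + 1)) ≠ 0 := by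
  have h := (EE_gg hε (4 * q + 1)).1
  have hn : NZ (vinf (4 * q + 1) (gg ε (4 * q + 1))) :=
    (tr_gg hε (4 * q + 1)).ga.nz _ (by left; simp)
  rw [coeff_sub, coeff_C_mul, ← vinf_eq, ← vinf_eq]
  generalize vinf (4 * q + 1) (gg ε (4 * q + 1)) = v at h hn
  have h8 : (4 * q + 1) % 8 = 1 ∨ (4 * q + 1) % 8 = 5 := by omega
  rcases h8 with h8 | h8
  · have e : EE ε (4 * q + 1) = ![1, 0] := by simp [EE, h8]
    rw [e] at h
    simp only [PP, Matrix.cons_val_zero, Matrix.cons_val_one, Matrix.cons_val_fin_one, one_mul,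
      zero_mul] at h
    have hv0 : v 0 ≠ 0 := hn.resolve_right (not_not.mpr h)
    rw [h, zero_sub, neg_ne_zero]
    apply mul_ne_zero _ hv0
    fin_cases c <;> simp [CC]
  · have e : EE ε (4 * q + 1) = ![1, 9] := by simp [EE, h8]
    rw [e] at h
    simp only [PP, Matrix.cons_val_zero, Matrix.cons_val_one, Matrix.cons_val_fin_one, one_mul] at h
    have hv0 : v 0 ≠ 0 := by
      intro h0
      rw [h0, mul_zero] at h
      rcases hn with h' | h'
      · exact h' h0
      · exact h' h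
    rw [h, ← sub_mul]
    apply mul_ne_zero _ hv0
    fin_cases c <;> simp [CC] <;> norm_num

end

end Pool.Agent.Hhelper17.Batyrev
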