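import Mathlib
import Pool.Agent.Hhelper17.BatyrevInf

/-!
# Counting the zeros of `T₁ - c T₀` by the theorem of Mason and Stothers
-/

set_option linter.all false

namespace Pool.Agent.Hhelper17.Batyrev

open Polynomial

section

variable {k : Type*} [Field k] [CharZero k] [IsAlgClosed k]

theorem natDegree_radical_le_card [DecidableEq k] {p : k[X]} (hp : p ≠ 0) :
    (UniqueFactorizationMonoid.radical p).natDegree ≤ p.roots.toFinset.card := by
  have h1 : (UniqueFactorizationMonoid.radical p).Separable :=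
    PerfectField.separable_iff_squarefree.mpr UniqueFactorizationMonoid.squarefree_radical
  have h2 := nodup_roots h1
  have h3 : (UniqueFactorizationMonoid.radical p).roots.card =
      (UniqueFactorizationMonoid.radical p).natDegree :=
    splits_iff_card_roots.mp (IsAlgClosed.splits _)
  rw [← h3, ← Multiset.toFinset_card_of_nodup h2]
  apply Finset.card_le_card
  intro a ha
  rw [Multiset.mem_toFinset] at ha ⊢
  exact Multiset.mem_of_le (roots.le_of_dvd hp UniqueFactorizationMonoid.radical_dvd_self) ha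

/-- `T₁ - c T₀` -/
noncomputable def AA (ε : k) (q : ℕ) (c : Fin 3) : k[X] :=
  gg ε (4 * q + 1) 1 - C (CC c : k) * gg ε (4 * q + 1) 0

theorem AA_ne_zero {ε : k} (hε : ε = 1 ∨ ε = -1) (q : ℕ) (c : Fin 3) : AA ε q c ≠ 0 := by
  intro h
  have := lead_ne hε q c
  unfold AA at h
  rw [h] at this
  simp at this

theorem AA_natDegree {ε : k} (hε : ε = 1 ∨ ε = -1) (q : ℕ) (c : Fin 3) :
    (AA ε q c).natDegree = 4 * q ^ 2 := by
  rw [← mm_one]
  apply le_antisymm
  · have h := (tr_gg hε (4 * q + 1)).ga.deg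
    exact (natDegree_sub_le _ _).trans (max_le (h 1) ((natDegree_C_mul_le _ _).trans (h 0)))
  · exact le_natDegree_of_ne_zero (lead_ne hε q c)

theorem CC_ne {c d : Fin 3} (h : c ≠ d) : (CC c : k) ≠ (CC d : k) := by
  intro h'
  have h2 : CC c = CC d := by exact_mod_cast h'
  have h3 : ∀ c d : Fin 3, c ≠ d → CC c ≠ CC d := by decide
  exact h3 c d h h2

theorem AA_coprime {ε : k} (hε : ε = 1 ∨ ε = -1) (q : ℕ) {c d : Fin 3} (h : c ≠ d) :
    IsCoprime (AA ε q c) (AA ε q d) := by
  obtain ⟨u, v, huv⟩ := (tr_gg hε (4 * q + 1)).ga.isCoprime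
  have hcd : (CC c : k) - (CC d : k) ≠ 0 := sub_ne_zero.mpr (CC_ne h)
  set T0 := gg ε (4 * q + 1) 0
  set T1 := gg ε (4 * q + 1) 1
  set a : k := (CC c : k)
  set b : k := (CC d : k)
  have hinv : C ((a - b)⁻¹) * (C a - C b) = (1 : k[X]) := by
    rw [← C_sub, ← C_mul, inv_mul_cancel₀ hcd, C_1]
  -- `T0 = (A_d - A_c) / (c - d)`, `T1 = A_c + c T0`
  refine ⟨v - C ((a - b)⁻¹) * (u + v * C a), C ((a - b)⁻¹) * (u + v * C a), ?_⟩
  simp only [AA]
  linear_combination huv + T0 * (u + v * C a) * hinv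

theorem abc_count [DecidableEq k] {ε : k} (hε : ε = 1 ∨ ε = -1) {q : ℕ} (hq : 1 ≤ q) :
    4 * q ^ 2 + 1 ≤ (AA ε q 0).roots.toFinset.card + (AA ε q 1).roots.toFinset.card +
      (AA ε q 2).roots.toFinset.card := by
  have c0 : (CC 0 : k) = -1 := by simp [CC]
  have c1 : (CC 1 : k) = 2 := by simp [CC]
  have c2 : (CC 2 : k) = 4 := by simp [CC]
  -- (c1 - c2) A0 + (c2 - c0) A1 + (c0 - c1) A2 = 0
  set a : k[X] := C (-2) * AA ε q 0 with ha
  set b : k[X] := C 5 * AA ε q 1 with hb
  set c : k[X] := C (-3) * AA ε q 2 with hc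
  have sum : a + b + c = 0 := by
    rw [ha, hb, hc]
    simp only [AA, c0, c1, c2]
    have e1 : (C (-2) : k[X]) = -2 := by rw [C_neg]; rw [show (C (2:k) : k[X]) = 2 from map_ofNat C 2]
    have e2 : (C (-3) : k[X]) = -3 := by rw [C_neg]; rw [show (C (3:k) : k[X]) = 3 from map_ofNat C 3]
    have e3 : (C 5 : k[X]) = 5 := map_ofNat C 5
    have e4 : (C (-1) : k[X]) = -1 := by rw [C_neg, C_1]
    have e5 : (C 4 : k[X]) = 4 := map_ofNat C 4
    have e6 : (C 2 : k[X]) = 2 := map_ofNat C 2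
    rw [e1, e2, e3, e4, e5, e6]
    ring
  have h2 : (-2 : k) ≠ 0 := by norm_num
  have h5 : (5 : k) ≠ 0 := by norm_num
  have h3 : (-3 : k) ≠ 0 := by norm_num
  have a0 : a ≠ 0 := mul_ne_zero (C_ne_zero.mpr h2) (AA_ne_zero hε q 0)
  have b0 : b ≠ 0 := mul_ne_zero (C_ne_zero.mpr h5) (AA_ne_zero hε q 1)
  have c0' : c ≠ 0 := mul_ne_zero (C_ne_zero.mpr h3) (AA_ne_zero hε q 2)
  have hab : IsCoprime a b := by
    rw [ha, hb]
    rw [isCoprime_mul_unit_left_left (isUnit_C.mpr (isUnit_iff_ne_zero.mpr h2)),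
      isCoprime_mul_unit_left_right (isUnit_C.mpr (isUnit_iff_ne_zero.mpr h5))]
    exact AA_coprime hε q (by decide)
  have ra : a.roots = (AA ε q 0).roots := roots_C_mul _ h2
  have rb : b.roots = (AA ε q 1).roots := roots_C_mul _ h5
  have rc : c.roots = (AA ε q 2).roots := roots_C_mul _ h3
  have da : a.natDegree = 4 * q ^ 2 := by rw [ha, natDegree_C_mul h2, AA_natDegree hε]
  rcases Polynomial.abc a0 b0 c0' hab sum with h | h
  · have hcard : (a * b * c).roots.toFinset.card ≤ (AA ε q 0).roots.toFinset.card +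
        (AA ε q 1).roots.toFinset.card + (AA ε q 2).roots.toFinset.card := by
      rw [roots_mul (mul_ne_zero (mul_ne_zero a0 b0) c0'), roots_mul (mul_ne_zero a0 b0), ra, rb,
        rc, Multiset.toFinset_add, Multiset.toFinset_add]
      exact (Finset.card_union_le _ _).trans (Nat.add_le_add_right (Finset.card_union_le _ _) _)
    have h1 := h.1
    rw [da] at h1
    exact h1.trans ((natDegree_radical_le_card (mul_ne_zero (mul_ne_zero a0 b0) c0')).trans hcard)
  · exfalso
    have := natDegree_eq_zero_of_derivative_eq_zero h.1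
    rw [da] at this
    have : 0 < 4 * q ^ 2 := by positivity
    omega

/-- There is `c` such that `T₁ - c T₀` has many zeros for infinitely many `q`. -/
theorem exists_good_c (k : Type*) [Field k] [CharZero k] [IsAlgClosed k] [DecidableEq k] :
    ∃ c : Fin 3, ∀ Q : ℕ, ∃ q ≥ Q, 1 ≤ q ∧
    4 * q ^ 2 + 1 ≤ 3 * (AA (1 : k) q c).roots.toFinset.card := by
  by_contra hcon
  push Not at hcon
  choose Q hQ using hcon
  set q := Q 0 + Q 1 + Q 2 + 1 with hq
  have h := abc_count (k := k) (ε := 1) (Or.inl rfl) (q := q) (by omega)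
  have h0 := hQ 0 q (by omega) (by omega)
  have h1 := hQ 1 q (by omega) (by omega)
  have h2 := hQ 2 q (by omega) (by omega)
  omega

end

end Pool.Agent.Hhelper17.Batyrev
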