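import Mathlib
import Pool.Agent.Hhelper17.BatyrevABC

/-!
# The curves over a fixed `T`: the equation `A U₀ V₀ = B U₁ V₁`
-/

set_option linter.all false

namespace Pool.Agent.Hhelper17.Batyrev

open Polynomial

section

variable {k : Type*} [Field k]

theorem exists_gcd {P Q : k[X]} (hP : P ≠ 0) : ∃ g P' Q' : k[X], g.Monic ∧ P = g * P' ∧
    Q = g * Q' ∧ IsCoprime P' Q' := by
  classical
  set g := normalize (EuclideanDomain.gcd P Q) with hg
  have hg0 : EuclideanDomain.gcd P Q ≠ 0 := fun h => hP (EuclideanDomain.gcd_eq_zero_iff.mp h).1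
  have hgP : g ∣ P := (normalize_associated _).dvd.trans (EuclideanDomain.gcd_dvd_left P Q)
  have hgQ : g ∣ Q := (normalize_associated _).dvd.trans (EuclideanDomain.gcd_dvd_right P Q)
  obtain ⟨P', hP'⟩ := hgP
  obtain ⟨Q', hQ'⟩ := hgQ
  have hgg : g ∣ EuclideanDomain.gcd P Q := (normalize_associated _).dvd
  have hgg' : EuclideanDomain.gcd P Q ∣ g := (associated_normalize _).dvd
  obtain ⟨e, he⟩ := hgg'
  have hgne : g ≠ 0 := by rw [hg]; exact mt normalize_eq_zero.mp hg0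
  refine ⟨g, P', Q', monic_normalize hg0, hP', hQ', ?_⟩
  have hbez := EuclideanDomain.gcd_eq_gcd_ab P Q
  refine ⟨EuclideanDomain.gcdA P Q * e, EuclideanDomain.gcdB P Q * e, ?_⟩
  apply mul_left_cancel₀ hgne
  rw [mul_one]
  calc g * (EuclideanDomain.gcdA P Q * e * P' + EuclideanDomain.gcdB P Q * e * Q')
      = ((g * P') * EuclideanDomain.gcdA P Q + (g * Q') * EuclideanDomain.gcdB P Q) * e := by ring
    _ = EuclideanDomain.gcd P Q * e := by rw [← hP', ← hQ', ← hbez]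
    _ = g := he.symm

variable [IsAlgClosed k]

theorem Good.ne_zero {N : ℕ} (hN : 0 < N) {V : Fin 2 → k[X]} (hV : Good N V) :
    V 0 ≠ 0 ∧ V 1 ≠ 0 := by
  have h1 := hV.isCoprime
  constructor
  · intro h
    rw [h, isCoprime_zero_left] at h1
    have h2 := natDegree_eq_zero_of_isUnit h1
    rcases hV.inf with h3 | h3
    · simp [h] at h3
    · have := le_natDegree_of_ne_zero h3; omega
  · intro h
    rw [h, isCoprime_zero_right] at h1
    have h2 := natDegree_eq_zero_of_isUnit h1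
    rcases hV.inf with h3 | h3
    · have := le_natDegree_of_ne_zero h3; omega
    · simp [h] at h3

theorem Good.natDegree_eq {N : ℕ} {V : Fin 2 → k[X]} (hV : Good N V) :
    (V 0).natDegree = N ∨ (V 1).natDegree = N := by
  rcases hV.inf with h3 | h3
  · left; exact le_antisymm (hV.deg 0) (le_natDegree_of_ne_zero h3)
  · right; exact le_antisymm (hV.deg 1) (le_natDegree_of_ne_zero h3)

/-- the structure of the solutions of `A U₀ V₀ = B U₁ V₁` -/
theorem gadget_aux {N j : ℕ} (hN : 0 < N) {A B : k[X]} (dA : A.natDegree = N)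
    (dB : B.natDegree = N) (hAB : IsCoprime A B) {U V : Fin 2 → k[X]} (hU : Good j U)
    (hV : Good N V) (h : A * U 0 * V 0 = B * U 1 * V 1) :
    ∃ α β : k[X], α.Monic ∧ β.Monic ∧ α ∣ A ∧ β ∣ B ∧ α ∣ U 1 ∧ β ∣ U 0 ∧
      α.natDegree + β.natDegree = j ∧ (∀ α' : k[X], α' ∣ A → α' ∣ U 1 → α' ∣ α) ∧
      (∀ β' : k[X], β' ∣ B → β' ∣ U 0 → β' ∣ β) := by
  have hA0 : A ≠ 0 := by rintro rfl; simp at dA; omega
  have hB0 : B ≠ 0 := by rintro rfl; simp at dB; omega
  obtain ⟨hV0, hV1⟩ := hV.ne_zero hN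
  have hUne : ¬ (U 0 = 0 ∧ U 1 = 0) := by
    rintro ⟨h0, h1⟩
    have := hU.isCoprime
    rw [h0, h1, isCoprime_zero_left] at this
    exact not_isUnit_zero this
  have hU0 : U 0 ≠ 0 := by
    intro h0
    rw [h0] at h
    simp only [mul_zero, zero_mul] at h
    have : U 1 = 0 := by
      rcases mul_eq_zero.mp h.symm with h' | h'
      · exact (mul_eq_zero.mp h').resolve_left hB0
      · exact absurd h' hV1
    exact hUne ⟨h0, this⟩
  have hU1 : U 1 ≠ 0 := by
    intro h0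
    rw [h0] at h
    simp only [mul_zero, zero_mul] at h
    have : U 0 = 0 := by
      rcases mul_eq_zero.mp h with h' | h'
      · exact (mul_eq_zero.mp h').resolve_left hA0
      · exact absurd h' hV0
    exact hUne ⟨this, h0⟩
  obtain ⟨a, A', U1', ha, hAa, hU1a, hcA⟩ := exists_gcd (Q := U 1) hA0
  obtain ⟨b, B', U0', hb, hBb, hU0b, hcB⟩ := exists_gcd (Q := U 0) hB0
  have ha0 : a ≠ 0 := ha.ne_zero
  have hb0 : b ≠ 0 := hb.ne_zero
  have hA'0 : A' ≠ 0 := by rintro rfl; exact hA0 (by rw [hAa, mul_zero])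
  have hB'0 : B' ≠ 0 := by rintro rfl; exact hB0 (by rw [hBb, mul_zero])
  have hU0'0 : U0' ≠ 0 := by rintro rfl; exact hU0 (by rw [hU0b, mul_zero])
  have hU1'0 : U1' ≠ 0 := by rintro rfl; exact hU1 (by rw [hU1a, mul_zero])
  have e1 : A' * U0' * V 0 = B' * U1' * V 1 := by
    apply mul_left_cancel₀ (mul_ne_zero ha0 hb0)
    have h' := h
    rw [hU0b, hU1a] at h'
    nth_rewrite 1 [hAa] at h'
    nth_rewrite 1 [hBb] at h'
    linear_combination h'
  have hAB' : IsCoprime A' B' := by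
    rw [hAa, hBb] at hAB
    exact (hAB.of_mul_left_right).of_mul_right_right
  have d1 : A' ∣ V 1 := by
    have : A' ∣ B' * (U1' * V 1) := ⟨U0' * V 0, by rw [← mul_assoc, ← e1]; ring⟩
    exact hcA.dvd_of_dvd_mul_left (hAB'.dvd_of_dvd_mul_left this)
  have d2 : B' ∣ V 0 := by
    have : B' ∣ A' * (U0' * V 0) := ⟨U1' * V 1, by rw [← mul_assoc, e1]; ring⟩
    exact hcB.dvd_of_dvd_mul_left (hAB'.symm.dvd_of_dvd_mul_left this)
  obtain ⟨V1', hV1'⟩ := d1
  obtain ⟨V0', hV0'⟩ := d2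
  have hV0'0 : V0' ≠ 0 := by rintro rfl; exact hV0 (by rw [hV0', mul_zero])
  have hV1'0 : V1' ≠ 0 := by rintro rfl; exact hV1 (by rw [hV1', mul_zero])
  have e2 : U0' * V0' = U1' * V1' := by
    apply mul_left_cancel₀ (mul_ne_zero hA'0 hB'0)
    rw [hV0', hV1'] at e1
    linear_combination e1
  have hcU : IsCoprime U0' U1' := by
    have := hU.isCoprime
    rw [hU0b, hU1a] at this
    exact this.of_mul_left_right.of_mul_right_right
  have hcV : IsCoprime V0' V1' := by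
    have := hV.isCoprime
    rw [hV0', hV1'] at this
    exact this.of_mul_left_right.of_mul_right_right
  have f1 : U0' ∣ V1' := hcU.dvd_of_dvd_mul_left ⟨V0', e2.symm⟩
  have f2 : V1' ∣ U0' := hcV.symm.dvd_of_dvd_mul_right ⟨U1', by rw [e2]; ring⟩
  have f3 : U1' ∣ V0' := hcU.symm.dvd_of_dvd_mul_left ⟨V1', e2⟩
  have f4 : V0' ∣ U1' := hcV.dvd_of_dvd_mul_right ⟨U0', by rw [← e2]; ring⟩
  have g1 := le_antisymm (natDegree_le_of_dvd f1 hV1'0) (natDegree_le_of_dvd f2 hU0'0)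
  have g2 := le_antisymm (natDegree_le_of_dvd f3 hV0'0) (natDegree_le_of_dvd f4 hU1'0)
  have n1 : (U 0).natDegree = b.natDegree + U0'.natDegree := by
    rw [hU0b, natDegree_mul hb0 hU0'0]
  have n2 : (U 1).natDegree = a.natDegree + U1'.natDegree := by
    rw [hU1a, natDegree_mul ha0 hU1'0]
  have n3 : (V 0).natDegree = B'.natDegree + V0'.natDegree := by
    rw [hV0', natDegree_mul hB'0 hV0'0]
  have n4 : (V 1).natDegree = A'.natDegree + V1'.natDegree := by
    rw [hV1', natDegree_mul hA'0 hV1'0]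
  have n5 : A.natDegree = a.natDegree + A'.natDegree := by
    rw [hAa, natDegree_mul ha0 hA'0]
  have n6 : B.natDegree = b.natDegree + B'.natDegree := by
    rw [hBb, natDegree_mul hb0 hB'0]
  have n7 := hU.natDegree_eq
  have n8 := hV.natDegree_eq
  have n9 := hU.deg 0
  have n10 := hU.deg 1
  have n11 := hV.deg 0
  have n12 := hV.deg 1
  refine ⟨a, b, ha, hb, ⟨A', hAa⟩, ⟨B', hBb⟩, ⟨U1', hU1a⟩, ⟨U0', hU0b⟩, by omega, ?_, ?_⟩
  · intro α' h1 h2
    obtain ⟨u, v, huv⟩ := hcA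
    have : a = u * A + v * U 1 := by
      rw [hAa, hU1a]; linear_combination -a * huv
    rw [this]
    exact dvd_add (h1.mul_left _) (h2.mul_left _)
  · intro β' h1 h2
    obtain ⟨u, v, huv⟩ := hcB
    have : b = u * B + v * U 0 := by
      rw [hBb, hU0b]; linear_combination -b * huv
    rw [this]
    exact dvd_add (h1.mul_left _) (h2.mul_left _)

/-- uniqueness of the label of a solution -/
theorem gadget_unique {N j : ℕ} (hN : 0 < N) {A B : k[X]} (dA : A.natDegree = N)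
    (dB : B.natDegree = N) (hAB : IsCoprime A B) {U V : Fin 2 → k[X]} (hU : Good j U)
    (hV : Good N V) (h : A * U 0 * V 0 = B * U 1 * V 1) {α β α' β' : k[X]}
    (hα : α.Monic) (hβ : β.Monic) (hα' : α'.Monic) (hβ' : β'.Monic)
    (h1 : α ∣ A) (h2 : β ∣ B) (h3 : α ∣ U 1) (h4 : β ∣ U 0)
    (h5 : α.natDegree + β.natDegree = j)
    (h1' : α' ∣ A) (h2' : β' ∣ B) (h3' : α' ∣ U 1) (h4' : β' ∣ U 0)
    (h5' : α'.natDegree + β'.natDegree = j) : α = α' ∧ β = β' := by
  obtain ⟨a, b, ha, hb, _, _, _, _, hd, ma, mb⟩ := gadget_aux hN dA dB hAB hU hV h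
  have key : ∀ {γ δ : k[X]}, γ.Monic → δ.Monic → γ ∣ A → δ ∣ B → γ ∣ U 1 → δ ∣ U 0 →
      γ.natDegree + δ.natDegree = j → γ = a ∧ δ = b := by
    intro γ δ hγ hδ e1 e2 e3 e4 e5
    have d1 := ma γ e1 e3
    have d2 := mb δ e2 e4
    have l1 := natDegree_le_of_dvd d1 ha.ne_zero
    have l2 := natDegree_le_of_dvd d2 hb.ne_zero
    exact ⟨(eq_of_monic_of_dvd_of_natDegree_le hγ ha d1 (by omega)).symm,
      (eq_of_monic_of_dvd_of_natDegree_le hδ hb d2 (by omega)).symm⟩
  obtain ⟨r1, r2⟩ := key hα hβ h1 h2 h3 h4 h5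
  obtain ⟨s1, s2⟩ := key hα' hβ' h1' h2' h3' h4' h5'
  exact ⟨r1.trans s1.symm, r2.trans s2.symm⟩

/-- a nonzero polynomial has finitely many monic divisors -/
theorem finite_monic_dvd {A : k[X]} (hA : A ≠ 0) : {α : k[X] | α.Monic ∧ α ∣ A}.Finite := by
  classical
  have h1 : {s : Multiset k | s ∈ A.roots.powerset}.Finite := Multiset.finite_toSet _
  refine (h1.image (fun s => (s.map (fun a => X - C a)).prod)).subset ?_
  rintro α ⟨hα, hd⟩
  refine ⟨α.roots, ?_, ?_⟩
  · simp only [Set.mem_setOf_eq, Multiset.mem_powerset]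
    exact roots.le_of_dvd hA hd
  · have hs : α.Splits := IsAlgClosed.splits α
    exact (hs.eq_prod_roots_of_monic hα).symm

end

end Pool.Agent.Hhelper17.Batyrev
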