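import Mathlib

/-!
# Spaces of rational curves on complete intersections in (ℙ¹)ʳ

Definitions used for `MP_9df269_ag`.  `k` is a field (algebraically closed of characteristic zero in
the theorem).  All varieties are smooth complete intersections `X ⊆ (ℙ¹)ʳ`, given by multihomogeneous
equations in the homogeneous coordinates `x (i, 0), x (i, 1)` of the `i`-th factor.
-/

namespace Pool.Agent.Hhelper17.Batyrev

noncomputable section

open MvPolynomial

universe u

/-- Affine space `k^σ` as a set of `k`-points. -/
def Aff (k : Type u) (σ : Type) : Type u := σ → k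

/-- The Zariski topology on affine space: induced from the prime spectrum of the polynomial ring
by the map sending a point to its maximal ideal. -/
instance (k : Type u) [Field k] (σ : Type) : TopologicalSpace (Aff k σ) :=
  TopologicalSpace.induced
    (fun x : σ → k => (pointToPoint x : PrimeSpectrum (MvPolynomial σ k))) inferInstance

/-- A complete intersection datum in (ℙ¹)ʳ: `c` equations `eqn j`, multihomogeneous of
multidegree `deg j`. The homogeneous coordinates on the `i`-th factor are the variables
(i, 0) and (i, 1). -/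
structure CI (k : Type u) [Field k] where
  /-- number of factors of the ambient space -/
  r : ℕ
  /-- number of equations -/
  c : ℕ
  /-- multidegrees of the equations -/
  deg : Fin c → Fin r → ℕ
  /-- the equations -/
  eqn : Fin c → MvPolynomial (Fin r × Fin 2) k
  /-- `eqn j` is homogeneous of degree `deg j i` in the variables of the `i`-th factor -/
  homog : ∀ j i, (eqn j).IsWeightedHomogeneous (fun v => if v.1 = i then 1 else 0) (deg j i)

namespace CI

variable {k : Type u} [Field k] (X : CI k)

/-- The cone over `X`: families of homogeneous coordinates (each pair nonzero) of points of `X`. -/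
def cone : Set (Aff k (Fin X.r × Fin 2)) :=
  {x | (∀ i, ∃ j, x (i, j) ≠ 0) ∧ ∀ j, eval x (X.eqn j) = 0}

/-- Two families of homogeneous coordinates give the same point of (ℙ¹)ʳ if they differ by a
nonzero scalar in every factor. -/
def pointSetoid : Setoid X.cone where
  r x y := ∃ l : Fin X.r → k, (∀ i, l i ≠ 0) ∧
    ∀ i j, (y : Aff k (Fin X.r × Fin 2)) (i, j) = l i * (x : Aff k (Fin X.r × Fin 2)) (i, j)
  iseqv :=
    { refl := fun x => ⟨fun _ => 1, fun _ => one_ne_zero, fun i j => (one_mul _).symm⟩
      symm := by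
        rintro x y ⟨l, hl, h⟩
        refine ⟨fun i => (l i)⁻¹, fun i => inv_ne_zero (hl i), fun i j => ?_⟩
        rw [h i j, inv_mul_cancel_left₀ (hl i)]
      trans := by
        rintro x y z ⟨l, hl, h⟩ ⟨m, hm, h'⟩
        refine ⟨fun i => m i * l i, fun i => mul_ne_zero (hm i) (hl i), fun i j => ?_⟩
        rw [h' i j, h i j, mul_assoc] }

/-- The set `X(k)` of `k`-points of `X ⊆ (ℙ¹)ʳ`, with its Zariski topology (the quotient topology
of the Zariski topology of the cone). -/
def Point : Type u := Quotient X.pointSetoid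

instance : TopologicalSpace X.Point := inferInstanceAs (TopologicalSpace (Quotient X.pointSetoid))

/-- Jacobian criterion: at every point of `X` the gradients of the `c` equations are linearly
independent, i.e. `X` is smooth of codimension `c` in (ℙ¹)ʳ. -/
def IsSmooth : Prop :=
  ∀ x ∈ X.cone, LinearIndependent k (fun (j : Fin X.c) (v : Fin X.r × Fin 2) =>
    eval x (pderiv v (X.eqn j)))

/-- `-K_X` is (by adjunction) the restriction of `O(a_1, ..., a_r)` with
`a_i = 2 - (sum of the degrees of the equations in the i-th factor)`; `X` is weak Fano if all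
`a_i` are nonnegative (`-K_X` is nef) and the top self-intersection number of `-K_X`, i.e. the
coefficient of h_1 ⋯ h_r in (∑ a_i h_i)^(r - c) * ∏ j, (∑ i, deg j i * h_i), is positive
(`-K_X` is big). -/
def IsWeakFano : Prop :=
  (∀ i, ∑ j, X.deg j i ≤ 2) ∧
    0 < coeff (Finsupp.equivFunOnFinite.symm (fun _ : Fin X.r => 1))
      ((∑ i, C (2 - ∑ j, X.deg j i) * MvPolynomial.X i) ^ (X.r - X.c) *
        ∏ j, ∑ i, C (X.deg j i) * MvPolynomial.X i : MvPolynomial (Fin X.r) ℕ)

/-- Index set of the coefficients of an `r`-tuple of pairs of binary forms, the `i`-th pair being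
of degree `δ i`. -/
abbrev CoefIndex (r : ℕ) (δ : Fin r → ℕ) : Type := Σ i : Fin r, Fin 2 × Fin (δ i + 1)

/-- The value at `s ∈ k²` of the tuple of binary forms with coefficients `c`:
`∑ l, c_{i,j,l} s_0^l s_1^(δ_i - l)`. -/
def evalForm {r : ℕ} {δ : Fin r → ℕ} (c : CoefIndex r δ → k) (s : Fin 2 → k) :
    Fin r × Fin 2 → k :=
  fun v => ∑ l : Fin (δ v.1 + 1), c ⟨v.1, (v.2, l)⟩ * s 0 ^ (l : ℕ) * s 1 ^ (δ v.1 - l)

/-- Tuples of pairs of binary forms of degrees `δ` which define a morphism `ℙ¹ → X`: for every
`s ∈ k² ∖ {0}` the values at `s` are homogeneous coordinates of a point of `X`. -/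
def morCone (δ : Fin X.r → ℕ) : Set (Aff k (CoefIndex X.r δ)) :=
  {c | ∀ s : Fin 2 → k, s ≠ 0 → evalForm c s ∈ X.cone}

/-- Two tuples of forms define the same morphism iff they differ by a nonzero scalar in every
factor. -/
def morSetoid (δ : Fin X.r → ℕ) : Setoid (X.morCone δ) where
  r x y := ∃ l : Fin X.r → k, (∀ i, l i ≠ 0) ∧
    ∀ i j, (y : Aff k (CoefIndex X.r δ)) ⟨i, j⟩ = l i * (x : Aff k (CoefIndex X.r δ)) ⟨i, j⟩
  iseqv :=
    { refl := fun x => ⟨fun _ => 1, fun _ => one_ne_zero, fun i j => (one_mul _).symm⟩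
      symm := by
        rintro x y ⟨l, hl, h⟩
        refine ⟨fun i => (l i)⁻¹, fun i => inv_ne_zero (hl i), fun i j => ?_⟩
        rw [h i j, inv_mul_cancel_left₀ (hl i)]
      trans := by
        rintro x y z ⟨l, hl, h⟩ ⟨m, hm, h'⟩
        refine ⟨fun i => m i * l i, fun i => mul_ne_zero (hm i) (hl i), fun i j => ?_⟩
        rw [h' i j, h i j, mul_assoc] }

/-- The (underlying space of `k`-points of the) open and closed subscheme of `Mor(ℙ¹, X)` of
morphisms `f` with `deg f^*O(e_i) = δ i` for all `i`, with its Zariski topology. -/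
def Mor (δ : Fin X.r → ℕ) : Type u := Quotient (X.morSetoid δ)

instance (δ : Fin X.r → ℕ) : TopologicalSpace (X.Mor δ) :=
  inferInstanceAs (TopologicalSpace (Quotient (X.morSetoid δ)))

/-- The space of morphisms `ℙ¹ → X` of `L`-degree at most `d`, where `L = O(l_1, ..., l_r)|_X`:
the disjoint union of the spaces `Mor δ` with `∑ l_i δ_i ≤ d`. -/
def MorLE (l : Fin X.r → ℕ) (d : ℕ) : Type u :=
  Σ δ : {δ : Fin X.r → ℕ // ∑ i, l i * δ i ≤ d}, X.Mor δ.1

instance (l : Fin X.r → ℕ) (d : ℕ) : TopologicalSpace (X.MorLE l d) :=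
  inferInstanceAs (TopologicalSpace (Σ δ : {δ : Fin X.r → ℕ // ∑ i, l i * δ i ≤ d}, X.Mor δ.1))

/-- `N_{X,L}(d)`: the number of irreducible components of the space of morphisms `ℙ¹ → X` of
`L`-degree at most `d`, for `L = O(l_1, ..., l_r)|_X`. -/
def numComp (l : Fin X.r → ℕ) (d : ℕ) : ℕ∞ :=
  (irreducibleComponents (X.MorLE l d)).encard

end CI

end

end Pool.Agent.Hhelper17.Batyrev
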