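import Mathlib
import Pool.Agent.Hhelper17.BatyrevDefs

/-!
# Zariski topology on affine space and counting irreducible components
-/

set_option linter.all false

namespace Pool.Agent.Hhelper17.Batyrev

open MvPolynomial

section

universe u
variable {k : Type u} [Field k]

theorem aff_isClosed_iff {σ : Type} {S : Set (Aff k σ)} :
    IsClosed S ↔ ∃ I : Set (MvPolynomial σ k), S = {x | ∀ p ∈ I, eval x p = 0} := by
  have key : ∀ (x : Aff k σ) (I : Set (MvPolynomial σ k)),
      (pointToPoint (k := k) (show σ → k from x) : PrimeSpectrum (MvPolynomial σ k)) ∈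
        PrimeSpectrum.zeroLocus I ↔ ∀ p ∈ I, eval x p = 0 := by
    intro x I
    rw [PrimeSpectrum.mem_zeroLocus]
    constructor
    · intro h p hp
      have := h hp
      simp only [pointToPoint, SetLike.mem_coe, mem_vanishingIdeal_iff] at this
      exact this x rfl
    · intro h p hp
      simp only [pointToPoint, SetLike.mem_coe, mem_vanishingIdeal_iff]
      rintro y rfl
      exact h p hp
  constructor
  · intro h
    obtain ⟨T, hT, hTS⟩ := isClosed_induced_iff.mp h
    obtain ⟨I, rfl⟩ := (PrimeSpectrum.isClosed_iff_zeroLocus T).mp hT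
    refine ⟨I, ?_⟩
    rw [← hTS]
    ext x
    exact key x I
  · rintro ⟨I, rfl⟩
    refine isClosed_induced_iff.mpr ⟨PrimeSpectrum.zeroLocus I,
      PrimeSpectrum.isClosed_zeroLocus I, ?_⟩
    ext x
    exact key x I

theorem isClosed_zero {σ : Type} (p : MvPolynomial σ k) :
    IsClosed {x : Aff k σ | eval x p = 0} := by
  refine aff_isClosed_iff.mpr ⟨{p}, ?_⟩
  ext x
  constructor
  · rintro h q rfl
    exact h
  · intro h
    exact h p rfl

theorem isOpen_ne {σ : Type} (p : MvPolynomial σ k) :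
    IsOpen {x : Aff k σ | eval x p ≠ 0} := by
  have := (isClosed_zero p).isOpen_compl
  exact this

theorem isClosed_polymap_zero {σ : Type} (Q : Polynomial (MvPolynomial σ k)) :
    IsClosed {x : Aff k σ | Q.map (eval x) = 0} := by
  refine aff_isClosed_iff.mpr ⟨Set.range Q.coeff, ?_⟩
  ext x
  constructor
  · rintro h _ ⟨n, rfl⟩
    have h1 : Q.map (eval x) = 0 := h
    have h2 := congrArg (fun p => p.coeff n) h1
    simpa using h2
  · intro h
    show Q.map (eval x) = 0
    ext n
    simpa using h _ ⟨n, rfl⟩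

/-- polynomial functions -/
def PolyFun {σ : Type} (f : (σ → k) → k) : Prop := ∃ p : MvPolynomial σ k, ∀ x, f x = eval x p

namespace PolyFun

variable {σ τ : Type}

theorem add {f g : (σ → k) → k} (hf : PolyFun f) (hg : PolyFun g) :
    PolyFun (fun x => f x + g x) := by
  obtain ⟨p, hp⟩ := hf
  obtain ⟨q, hq⟩ := hg
  exact ⟨p + q, fun x => by simp [hp, hq]⟩

theorem mul {f g : (σ → k) → k} (hf : PolyFun f) (hg : PolyFun g) :
    PolyFun (fun x => f x * g x) := by
  obtain ⟨p, hp⟩ := hf
  obtain ⟨q, hq⟩ := hg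
  exact ⟨p * q, fun x => by simp [hp, hq]⟩

theorem neg {f : (σ → k) → k} (hf : PolyFun f) : PolyFun (fun x => - f x) := by
  obtain ⟨p, hp⟩ := hf
  exact ⟨-p, fun x => by simp [hp]⟩

theorem const (a : k) : PolyFun (fun _ : σ → k => a) := ⟨C a, fun x => by simp⟩

theorem coord (i : σ) : PolyFun (fun x : σ → k => x i) := ⟨X i, fun x => by simp⟩

theorem eval (p : MvPolynomial σ k) : PolyFun (fun x : σ → k => MvPolynomial.eval x p) :=
  ⟨p, fun _ => rfl⟩

theorem comp {f : (τ → k) → k} (hf : PolyFun f) {φ : (σ → k) → τ → k}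
    (hφ : ∀ i, PolyFun (fun x => φ x i)) : PolyFun (fun x => f (φ x)) := by
  obtain ⟨p, hp⟩ := hf
  choose q hq using hφ
  refine ⟨bind₁ q p, fun x => ?_⟩
  have e : φ x = fun i => MvPolynomial.eval x (q i) := funext fun i => hq i x
  show f (φ x) = _
  rw [hp, e, hom_bind₁]
  have : (MvPolynomial.eval x).comp C = RingHom.id k := by ext; simp
  rw [this]
  rfl

end PolyFun

/-- polynomial maps are continuous for the Zariski topologies -/
theorem continuous_of_polyFun {σ τ : Type} {φ : Aff k σ → Aff k τ}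
    (hφ : ∀ i, PolyFun (fun x : σ → k => φ x i)) : Continuous φ := by
  rw [continuous_iff_isClosed]
  intro S hS
  obtain ⟨I, rfl⟩ := aff_isClosed_iff.mp hS
  choose q hq using fun p : MvPolynomial τ k => PolyFun.comp (PolyFun.eval p) hφ
  refine aff_isClosed_iff.mpr ⟨q '' I, ?_⟩
  ext x
  constructor
  · rintro h _ ⟨p, hp, rfl⟩
    rw [← hq p x]
    exact h p hp
  · intro h p hp
    have := h (q p) ⟨p, hp, rfl⟩
    rw [← hq p x] at this
    exact this

/-- affine space over an infinite field is irreducible -/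
theorem aff_irreducible [Infinite k] (σ : Type) : IsIrreducible (Set.univ : Set (Aff k σ)) := by
  refine ⟨⟨fun _ => 0, trivial⟩, ?_⟩
  rw [isPreirreducible_iff_isClosed_union_isClosed]
  intro Z1 Z2 h1 h2 hcov
  obtain ⟨I, rfl⟩ := aff_isClosed_iff.mp h1
  obtain ⟨J, rfl⟩ := aff_isClosed_iff.mp h2
  by_contra hcon
  rw [not_or, Set.not_subset, Set.not_subset] at hcon
  obtain ⟨⟨x, -, hx⟩, ⟨y, -, hy⟩⟩ := hcon
  have hx' : ∃ p ∈ I, eval (show σ → k from x) p ≠ 0 := by
    by_contra hc
    push Not at hc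
    exact hx hc
  have hy' : ∃ p ∈ J, eval (show σ → k from y) p ≠ 0 := by
    by_contra hc
    push Not at hc
    exact hy hc
  obtain ⟨p, hp, hpx⟩ := hx'
  obtain ⟨q, hq, hqy⟩ := hy'
  have hp0 : p ≠ 0 := by rintro rfl; simp at hpx
  have hq0 : q ≠ 0 := by rintro rfl; simp at hqy
  have hpq : p * q ≠ 0 := mul_ne_zero hp0 hq0
  apply hpq
  apply MvPolynomial.funext
  intro z
  rw [map_mul, map_zero]
  rcases hcov (Set.mem_univ z) with h | h
  · rw [h p hp, zero_mul]
  · rw [h q hq, mul_zero]

/-- union of open irreducible sets with a common point -/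
theorem irreducible_of_cover {α : Type*} [TopologicalSpace α] {ι : Type*} (V : ι → Set α)
    (hV : ∀ i, IsOpen (V i)) (hirr : ∀ i, IsIrreducible (V i)) (p : α) (hp : ∀ i, p ∈ V i)
    (hcov : ∀ x, ∃ i, x ∈ V i) : IsIrreducible (Set.univ : Set α) := by
  refine ⟨⟨p, trivial⟩, ?_⟩
  intro A B hA hB
  rintro ⟨a, -, ha⟩ ⟨b, -, hb⟩
  obtain ⟨i, hi⟩ := hcov a
  obtain ⟨j, hj⟩ := hcov b
  -- `A ∩ V i` and `V j` meet `V i`
  obtain ⟨c, hc1, hc2, hc3⟩ := (hirr i).2 A (V j) hA (hV j) ⟨a, hi, ha⟩ ⟨p, hp i, hp j⟩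
  obtain ⟨d, hd1, hd2, hd3⟩ := (hirr j).2 A B hA hB ⟨c, hc3, hc2⟩ ⟨b, hj, hb⟩
  exact ⟨d, trivial, hd2, hd3⟩

/-- pairwise disjoint nonempty clopen sets give different irreducible components -/
theorem card_le_components {α : Type*} [TopologicalSpace α] {ι : Type*} (s : Finset ι)
    (V : ι → Set α) (hV : ∀ i ∈ s, IsClopen (V i)) (hne : ∀ i ∈ s, (V i).Nonempty)
    (hdisj : ∀ i ∈ s, ∀ j ∈ s, i ≠ j → Disjoint (V i) (V j)) :
    ((s.card : ℕ) : ℕ∞) ≤ (irreducibleComponents α).encard := by
  classical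
  rcases s.eq_empty_or_nonempty with rfl | ⟨i0, hi0⟩
  · simp
  haveI : Nonempty α := ⟨(hne i0 hi0).some⟩
  choose! x hx using hne
  have hsub : ∀ i ∈ s, irreducibleComponent (x i) ⊆ V i := by
    intro i hi
    have hconn : IsPreconnected (irreducibleComponent (x i)) :=
      isIrreducible_irreducibleComponent.isPreirreducible.isPreconnected
    exact hconn.subset_isClopen (hV i hi) ⟨x i, mem_irreducibleComponent, hx i hi⟩
  have hinj : Set.InjOn (fun i => irreducibleComponent (x i)) (s : Set ι) := by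
    intro i hi j hj hij
    by_contra hne
    have h1 : x i ∈ V i := hx i hi
    have h2 : x i ∈ V j := by
      have : x i ∈ irreducibleComponent (x j) := by
        have h3 : irreducibleComponent (x i) = irreducibleComponent (x j) := hij
        rw [← h3]; exact mem_irreducibleComponent
      exact hsub j hj this
    exact Set.disjoint_left.mp (hdisj i hi j hj hne) h1 h2
  have h1 : ((fun i => irreducibleComponent (x i)) '' (s : Set ι)) ⊆ irreducibleComponents α := by
    rintro _ ⟨i, hi, rfl⟩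
    exact irreducibleComponent_mem_irreducibleComponents _
  calc ((s.card : ℕ) : ℕ∞) = (s : Set ι).encard := (Set.encard_coe_eq_coe_finsetCard s).symm
    _ = ((fun i => irreducibleComponent (x i)) '' (s : Set ι)).encard := (hinj.encard_image).symm
    _ ≤ _ := Set.encard_le_encard h1

end

end Pool.Agent.Hhelper17.Batyrev
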