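import Mathlib
import Pool.Agent.Hhelper17.BatyrevDefs
import Pool.Agent.Hhelper17.BatyrevForm

/-!
# The complete intersection
-/

set_option linter.all false

namespace Pool.Agent.Hhelper17.Batyrev

open MvPolynomial

section

universe u

/-- The form of multidegree (1,1,1) in `t, u, v`. -/
def GG {S : Type*} [CommRing S] (a b : S) (t u v : Fin 2 → S) : S :=
  (t 1 - a * t 0) * (u 0 * v 0) - (t 1 - b * t 0) * (u 1 * v 1)

variable {k : Type u} [Field k]

/-- the first equation -/
noncomputable def Fp (k : Type u) [Field k] : MvPolynomial (Fin 7 × Fin 2) k :=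
  FF (fun j => X (0, j)) (fun j => X (1, j)) (fun j => X (2, j)) (fun j => X (3, j))
    (fun j => X (4, j))

/-- the second equation -/
noncomputable def Gp (k : Type u) [Field k] (a b : Fin 3) : MvPolynomial (Fin 7 × Fin 2) k :=
  GG (C (CC a : k)) (C (CC b : k)) (fun j => X (0, j)) (fun j => X (5, j)) (fun j => X (6, j))

theorem eval_Fp (x : Fin 7 × Fin 2 → k) : eval x (Fp k) =
    FF (fun j => x (0, j)) (fun j => x (1, j)) (fun j => x (2, j)) (fun j => x (3, j))
    (fun j => x (4, j)) := by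
  simp [Fp, FF]

theorem eval_Gp (a b : Fin 3) (x : Fin 7 × Fin 2 → k) : eval x (Gp k a b) =
    GG (CC a : k) (CC b : k) (fun j => x (0, j)) (fun j => x (5, j)) (fun j => x (6, j)) := by
  simp [Gp, GG]

theorem homog5 (w : Fin 7 × Fin 2 → ℕ) (hw : ∀ i j, w (i, j) = w (i, 0)) (j0 j1 j2 j3 j4 : Fin 2) :
    (X (0, j0) * (X (1, j1) * X (2, j2) * X (3, j3) * X (4, j4)) :
      MvPolynomial (Fin 7 × Fin 2) k).IsWeightedHomogeneous w
      (w (0, 0) + (w (1, 0) + w (2, 0) + w (3, 0) + w (4, 0))) := by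
  rw [← hw 0 j0, ← hw 1 j1, ← hw 2 j2, ← hw 3 j3, ← hw 4 j4]
  exact (isWeightedHomogeneous_X k w (0, j0)).mul ((((isWeightedHomogeneous_X k w (1, j1)).mul
    (isWeightedHomogeneous_X k w (2, j2))).mul (isWeightedHomogeneous_X k w (3, j3))).mul
    (isWeightedHomogeneous_X k w (4, j4)))

theorem homog3 (w : Fin 7 × Fin 2 → ℕ) (hw : ∀ i j, w (i, j) = w (i, 0)) (j0 j1 j2 : Fin 2) :
    (X (0, j0) * (X (5, j1) * X (6, j2)) :
      MvPolynomial (Fin 7 × Fin 2) k).IsWeightedHomogeneous w
      (w (0, 0) + (w (5, 0) + w (6, 0))) := by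
  rw [← hw 0 j0, ← hw 5 j1, ← hw 6 j2]
  exact (isWeightedHomogeneous_X k w (0, j0)).mul ((isWeightedHomogeneous_X k w (5, j1)).mul
    (isWeightedHomogeneous_X k w (6, j2)))

theorem homogC {w : Fin 7 × Fin 2 → ℕ} {n : ℕ} {p : MvPolynomial (Fin 7 × Fin 2) k} (a : k)
    (hp : p.IsWeightedHomogeneous w n) : (C a * p).IsWeightedHomogeneous w n := by
  have := (isWeightedHomogeneous_C w a).mul hp
  rwa [zero_add] at this

theorem homogSub {w : Fin 7 × Fin 2 → ℕ} {n : ℕ} {p q : MvPolynomial (Fin 7 × Fin 2) k}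
    (hp : p.IsWeightedHomogeneous w n) (hq : q.IsWeightedHomogeneous w n) :
    (p - q).IsWeightedHomogeneous w n :=
  (weightedHomogeneousSubmodule k w n).sub_mem hp hq

theorem homogAdd {w : Fin 7 × Fin 2 → ℕ} {n : ℕ} {p q : MvPolynomial (Fin 7 × Fin 2) k}
    (hp : p.IsWeightedHomogeneous w n) (hq : q.IsWeightedHomogeneous w n) :
    (p + q).IsWeightedHomogeneous w n :=
  (weightedHomogeneousSubmodule k w n).add_mem hp hq

theorem homogF (w : Fin 7 × Fin 2 → ℕ) (hw : ∀ i j, w (i, j) = w (i, 0)) :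
    (Fp k).IsWeightedHomogeneous w
      (w (0, 0) + (w (1, 0) + w (2, 0) + w (3, 0) + w (4, 0))) := by
  have e : Fp k = (X (0, 0) * (X (1, 0) * X (2, 0) * X (3, 0) * X (4, 0))
        + X (0, 0) * (X (1, 1) * X (2, 1) * X (3, 1) * X (4, 1)))
      + ((C 3 * (X (0, 0) * (X (1, 0) * X (2, 0) * X (3, 1) * X (4, 1)))
          + C 3 * (X (0, 0) * (X (1, 1) * X (2, 1) * X (3, 0) * X (4, 0))))
        + ((X (0, 1) * (X (1, 0) * X (2, 0) * X (3, 1) * X (4, 1)))
          + (X (0, 1) * (X (1, 1) * X (2, 1) * X (3, 0) * X (4, 0)))))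
      + (((X (0, 1) * (X (1, 0) * X (2, 1) * X (3, 0) * X (4, 1)))
          + (X (0, 1) * (X (1, 1) * X (2, 0) * X (3, 1) * X (4, 0))))
        - (C 3 * (X (0, 0) * (X (1, 0) * X (2, 1) * X (3, 0) * X (4, 1)))
          + C 3 * (X (0, 0) * (X (1, 1) * X (2, 0) * X (3, 1) * X (4, 0)))))
      + (((X (0, 1) * (X (1, 0) * X (2, 1) * X (3, 1) * X (4, 0)))
          + (X (0, 1) * (X (1, 1) * X (2, 0) * X (3, 0) * X (4, 1))))
        - ((X (0, 0) * (X (1, 0) * X (2, 1) * X (3, 1) * X (4, 0)))
          + (X (0, 0) * (X (1, 1) * X (2, 0) * X (3, 0) * X (4, 1))))) := by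
    have : (C 3 : MvPolynomial (Fin 7 × Fin 2) k) = 3 := map_ofNat C 3
    rw [this]
    simp only [Fp, FF]
    ring
  rw [e]
  have h := homog5 (k := k) w hw
  exact homogAdd (homogAdd (homogAdd (homogAdd (h _ _ _ _ _) (h _ _ _ _ _))
    (homogAdd (homogAdd (homogC _ (h _ _ _ _ _)) (homogC _ (h _ _ _ _ _)))
      (homogAdd (h _ _ _ _ _) (h _ _ _ _ _))))
    (homogSub (homogAdd (h _ _ _ _ _) (h _ _ _ _ _))
      (homogAdd (homogC _ (h _ _ _ _ _)) (homogC _ (h _ _ _ _ _)))))
    (homogSub (homogAdd (h _ _ _ _ _) (h _ _ _ _ _)) (homogAdd (h _ _ _ _ _) (h _ _ _ _ _)))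

theorem homogG (a b : Fin 3) (w : Fin 7 × Fin 2 → ℕ) (hw : ∀ i j, w (i, j) = w (i, 0)) :
    (Gp k a b).IsWeightedHomogeneous w (w (0, 0) + (w (5, 0) + w (6, 0))) := by
  have e : Gp k a b = (X (0, 1) * (X (5, 0) * X (6, 0)) - C (CC a : k) * (X (0, 0) * (X (5, 0) * X (6, 0))))
      - (X (0, 1) * (X (5, 1) * X (6, 1)) - C (CC b : k) * (X (0, 0) * (X (5, 1) * X (6, 1)))) := by
    simp only [Gp, GG]
    ring
  rw [e]
  have h := homog3 (k := k) w hw
  exact homogSub (homogSub (h _ _ _) (homogC _ (h _ _ _))) (homogSub (h _ _ _) (homogC _ (h _ _ _)))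

/-- the multidegrees of the two equations -/
def dd : Fin 2 → Fin 7 → ℕ := ![![1, 1, 1, 1, 1, 0, 0], ![1, 0, 0, 0, 0, 1, 1]]

/-- The complete intersection of multidegrees (1,1,1,1,1,0,0), (1,0,0,0,0,1,1) in the seventh power
of the projective line. -/
noncomputable def XX (k : Type u) [Field k] (a b : Fin 3) : CI k where
  r := 7
  c := 2
  deg := dd
  eqn := ![Fp k, Gp k a b]
  homog := by
    intro j i
    revert j
    rw [Fin.forall_fin_two]
    constructor
    · have := homogF (k := k) (fun v => if v.1 = i then 1 else 0) (fun _ _ => rfl)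
      have e : dd 0 i = ((if (0 : Fin 7) = i then 1 else 0) +
          ((((if (1 : Fin 7) = i then 1 else 0) +
          if (2 : Fin 7) = i then 1 else 0) + if (3 : Fin 7) = i then 1 else 0) +
          if (4 : Fin 7) = i then 1 else 0)) := by
        fin_cases i <;> rfl
      rw [e]
      exact this
    · have := homogG (k := k) a b (fun v => if v.1 = i then 1 else 0) (fun _ _ => rfl)
      have e : dd 1 i = ((if (0 : Fin 7) = i then 1 else 0) + ((if (5 : Fin 7) = i then 1 else 0) +
          if (6 : Fin 7) = i then 1 else 0)) := by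
        fin_cases i <;> rfl
      rw [e]
      exact this

theorem pd_F (x : Fin 7 × Fin 2 → k) (j : Fin 2) :
    eval x (pderiv (0, j) (Fp k)) = FF (ee j) (fun j => x (1, j)) (fun j => x (2, j))
      (fun j => x (3, j)) (fun j => x (4, j)) ∧
    eval x (pderiv (1, j) (Fp k)) = FF (fun j => x (0, j)) (ee j) (fun j => x (2, j))
      (fun j => x (3, j)) (fun j => x (4, j)) ∧
    eval x (pderiv (2, j) (Fp k)) = FF (fun j => x (0, j)) (fun j => x (1, j)) (ee j)
      (fun j => x (3, j)) (fun j => x (4, j)) ∧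
    eval x (pderiv (3, j) (Fp k)) = FF (fun j => x (0, j)) (fun j => x (1, j)) (fun j => x (2, j))
      (ee j) (fun j => x (4, j)) ∧
    eval x (pderiv (4, j) (Fp k)) = FF (fun j => x (0, j)) (fun j => x (1, j)) (fun j => x (2, j))
      (fun j => x (3, j)) (ee j) ∧
    eval x (pderiv (5, j) (Fp k)) = 0 ∧ eval x (pderiv (6, j) (Fp k)) = 0 := by
  revert j
  rw [Fin.forall_fin_two]
  have h3 : (3 : MvPolynomial (Fin 7 × Fin 2) k) = C 3 := (map_ofNat C 3).symm
  constructor <;> refine ⟨?_, ?_, ?_, ?_, ?_, ?_, ?_⟩ <;>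
  simp [Fp, FF, h3, pderiv_X, Pi.single_apply, Derivation.leibniz] <;> ring

theorem pd_G (a b : Fin 3) (x : Fin 7 × Fin 2 → k) (j : Fin 2) :
    eval x (pderiv (0, j) (Gp k a b)) = GG (CC a : k) (CC b : k) (ee j) (fun j => x (5, j))
      (fun j => x (6, j)) ∧
    eval x (pderiv (1, j) (Gp k a b)) = 0 ∧
    eval x (pderiv (2, j) (Gp k a b)) = 0 ∧
    eval x (pderiv (3, j) (Gp k a b)) = 0 ∧
    eval x (pderiv (4, j) (Gp k a b)) = 0 ∧
    eval x (pderiv (5, j) (Gp k a b)) = GG (CC a : k) (CC b : k) (fun j => x (0, j)) (ee j)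
      (fun j => x (6, j)) ∧
    eval x (pderiv (6, j) (Gp k a b)) = GG (CC a : k) (CC b : k) (fun j => x (0, j))
      (fun j => x (5, j)) (ee j) := by
  revert j
  rw [Fin.forall_fin_two]
  constructor <;> refine ⟨?_, ?_, ?_, ?_, ?_, ?_, ?_⟩ <;>
  simp [Gp, GG, pderiv_X, Pi.single_apply, Derivation.leibniz] <;> ring

omit [Field k] in
/-- `CC` is injective in characteristic zero -/
theorem CC_ne' [Field k] [CharZero k] {c d : Fin 3} (h : c ≠ d) : (CC c : k) ≠ (CC d : k) := by
  intro h'
  have h2 : CC c = CC d := by exact_mod_cast h'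
  have h3 : ∀ c d : Fin 3, c ≠ d → CC c ≠ CC d := by decide
  exact h3 c d h h2

/-- the gradients are linearly independent -/
theorem smooth_core [CharZero k] {a b : Fin 3} (hab : a ≠ b) (x : Fin 7 × Fin 2 → k)
    (hx : ∀ i : Fin 7, NZ (fun j => x (i, j))) (α β : k)
    (h : ∀ v, α * eval x (pderiv v (Fp k)) + β * eval x (pderiv v (Gp k a b)) = 0) :
    α = 0 ∧ β = 0 := by
  have h0 : ∀ j, α * FF (ee j) (fun j => x (1, j)) (fun j => x (2, j))
      (fun j => x (3, j)) (fun j => x (4, j)) + β * GG (CC a : k) (CC b : k) (ee j)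
      (fun j => x (5, j)) (fun j => x (6, j)) = 0 := fun j => by
    have := h (0, j); rwa [(pd_F x j).1, (pd_G a b x j).1] at this
  have h1 : ∀ j, α * FF (fun j => x (0, j)) (ee j) (fun j => x (2, j))
      (fun j => x (3, j)) (fun j => x (4, j)) = 0 := fun j => by
    have := h (1, j)
    rwa [(pd_F x j).2.1, (pd_G a b x j).2.1, mul_zero, add_zero] at this
  have h2 : ∀ j, α * FF (fun j => x (0, j)) (fun j => x (1, j)) (ee j)
      (fun j => x (3, j)) (fun j => x (4, j)) = 0 := fun j => by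
    have := h (2, j)
    rwa [(pd_F x j).2.2.1, (pd_G a b x j).2.2.1, mul_zero, add_zero] at this
  have h3 : ∀ j, α * FF (fun j => x (0, j)) (fun j => x (1, j)) (fun j => x (2, j))
      (ee j) (fun j => x (4, j)) = 0 := fun j => by
    have := h (3, j)
    rwa [(pd_F x j).2.2.2.1, (pd_G a b x j).2.2.2.1, mul_zero, add_zero] at this
  have h4 : ∀ j, α * FF (fun j => x (0, j)) (fun j => x (1, j)) (fun j => x (2, j))
      (fun j => x (3, j)) (ee j) = 0 := fun j => by
    have := h (4, j)
    rwa [(pd_F x j).2.2.2.2.1, (pd_G a b x j).2.2.2.2.1, mul_zero, add_zero] at this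
  have h5 : ∀ j, β * GG (CC a : k) (CC b : k) (fun j => x (0, j)) (ee j)
      (fun j => x (6, j)) = 0 := fun j => by
    have := h (5, j)
    rwa [(pd_F x j).2.2.2.2.2.1, (pd_G a b x j).2.2.2.2.2.1, mul_zero, zero_add] at this
  have h6 : ∀ j, β * GG (CC a : k) (CC b : k) (fun j => x (0, j)) (fun j => x (5, j))
      (ee j) = 0 := fun j => by
    have := h (6, j)
    rwa [(pd_F x j).2.2.2.2.2.2, (pd_G a b x j).2.2.2.2.2.2, mul_zero, zero_add] at this
  have ht := hx 0
  have hx1 := hx 1
  have hy := hx 2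
  have hz := hx 3
  have hw := hx 4
  have hu := hx 5
  have hv := hx 6
  clear hx h
  generalize (fun j => x (0, j)) = t at *
  generalize (fun j => x (1, j)) = x' at *
  generalize (fun j => x (2, j)) = y at *
  generalize (fun j => x (3, j)) = z at *
  generalize (fun j => x (4, j)) = w at *
  generalize (fun j => x (5, j)) = u at *
  generalize (fun j => x (6, j)) = v at *
  by_cases hβ : β = 0
  · refine ⟨?_, hβ⟩
    by_contra hα
    subst hβ
    refine r1 ht hx1 hy hz hw (fun j => ?_) (fun j => (mul_eq_zero.mp (h1 j)).resolve_left hα)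
      (fun j => (mul_eq_zero.mp (h2 j)).resolve_left hα)
      (fun j => (mul_eq_zero.mp (h3 j)).resolve_left hα)
      (fun j => (mul_eq_zero.mp (h4 j)).resolve_left hα)
    have := h0 j
    rw [zero_mul, add_zero] at this
    exact (mul_eq_zero.mp this).resolve_left hα
  · exfalso
    have g5 : ∀ j, GG (CC a : k) (CC b : k) t (ee j) v = 0 :=
      fun j => (mul_eq_zero.mp (h5 j)).resolve_left hβ
    have g6 : ∀ j, GG (CC a : k) (CC b : k) t u (ee j) = 0 :=
      fun j => (mul_eq_zero.mp (h6 j)).resolve_left hβ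
    have a1 : (t 1 - (CC a : k) * t 0) * v 0 = 0 := by
      have := g5 0; simp only [GG, ee_zero_zero, ee_zero_one] at this; linear_combination this
    have a2 : (t 1 - (CC b : k) * t 0) * v 1 = 0 := by
      have := g5 1; simp only [GG, ee_one_zero, ee_one_one] at this; linear_combination -this
    have a3 : (t 1 - (CC a : k) * t 0) * u 0 = 0 := by
      have := g6 0; simp only [GG, ee_zero_zero, ee_zero_one] at this; linear_combination this
    have a4 : (t 1 - (CC b : k) * t 0) * u 1 = 0 := by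
      have := g6 1; simp only [GG, ee_one_zero, ee_one_one] at this; linear_combination -this
    have a5 : α * FF (ee 1) x' y z w + β * (u 0 * v 0 - u 1 * v 1) = 0 := by
      have := h0 1; simp only [GG, ee_one_zero, ee_one_one] at this; linear_combination this
    by_cases hA : t 1 - (CC a : k) * t 0 = 0
    · have hB : t 1 - (CC b : k) * t 0 ≠ 0 := by
        intro hB
        have hc := sub_ne_zero.mpr (CC_ne' (k := k) hab)
        have h00 : t 0 = 0 := by
          have : ((CC a : k) - (CC b : k)) * t 0 = 0 := by linear_combination hB - hA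
          exact (mul_eq_zero.mp this).resolve_left hc
        have h01 : t 1 = 0 := by rw [h00, mul_zero, sub_zero] at hA; exact hA
        rcases ht with h | h
        · exact h h00
        · exact h h01
      have v1 := (mul_eq_zero.mp a2).resolve_left hB
      have u1 := (mul_eq_zero.mp a4).resolve_left hB
      have v0 : v 0 ≠ 0 := hv.resolve_right (not_not.mpr v1)
      have u0 : u 0 ≠ 0 := hu.resolve_right (not_not.mpr u1)
      have hα : α ≠ 0 := by
        rintro rfl
        rw [u1, v1] at a5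
        have : β * (u 0 * v 0) = 0 := by linear_combination a5
        exact mul_ne_zero hβ (mul_ne_zero u0 v0) this
      exact r2 a ht (by linear_combination hA) hx1 hy hz hw
        (fun j => (mul_eq_zero.mp (h1 j)).resolve_left hα)
        (fun j => (mul_eq_zero.mp (h2 j)).resolve_left hα)
        (fun j => (mul_eq_zero.mp (h3 j)).resolve_left hα)
        (fun j => (mul_eq_zero.mp (h4 j)).resolve_left hα)
    · have v0 := (mul_eq_zero.mp a1).resolve_left hA
      have u0 := (mul_eq_zero.mp a3).resolve_left hA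
      have v1 : v 1 ≠ 0 := hv.resolve_left (not_not.mpr v0)
      have u1 : u 1 ≠ 0 := hu.resolve_left (not_not.mpr u0)
      have hB := (mul_eq_zero.mp a2).resolve_right v1
      have hα : α ≠ 0 := by
        rintro rfl
        rw [u0, v0] at a5
        have : β * (u 1 * v 1) = 0 := by linear_combination -a5
        exact mul_ne_zero hβ (mul_ne_zero u1 v1) this
      exact r2 b ht (by linear_combination hB) hx1 hy hz hw
        (fun j => (mul_eq_zero.mp (h1 j)).resolve_left hα)
        (fun j => (mul_eq_zero.mp (h2 j)).resolve_left hα)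
        (fun j => (mul_eq_zero.mp (h3 j)).resolve_left hα)
        (fun j => (mul_eq_zero.mp (h4 j)).resolve_left hα)

theorem cone_nz {a b : Fin 3} {x : Fin 7 × Fin 2 → k} (hx : x ∈ (XX k a b).cone) (i : Fin 7) :
    NZ (fun j => x (i, j)) := by
  obtain ⟨j, hj⟩ := hx.1 i
  revert hj; revert j
  rw [Fin.forall_fin_two]
  exact ⟨fun h => Or.inl h, fun h => Or.inr h⟩

theorem mem_cone_iff {a b : Fin 3} {x : Fin 7 × Fin 2 → k} : x ∈ (XX k a b).cone ↔
    (∀ i : Fin 7, NZ (fun j => x (i, j))) ∧ eval x (Fp k) = 0 ∧ eval x (Gp k a b) = 0 := by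
  constructor
  · intro h
    exact ⟨cone_nz h, h.2 (0 : Fin 2), h.2 (1 : Fin 2)⟩
  · rintro ⟨h1, h2, h3⟩
    refine ⟨fun i => ?_, fun j => ?_⟩
    · rcases h1 i with h | h
      · exact ⟨0, h⟩
      · exact ⟨1, h⟩
    · have : ∀ j : Fin 2, eval x ((![Fp k, Gp k a b] : Fin 2 → MvPolynomial (Fin 7 × Fin 2) k) j) = 0 := by
        rw [Fin.forall_fin_two]
        exact ⟨h2, h3⟩
      exact this j

/-- smoothness of the complete intersection -/
theorem isSmooth_XX [CharZero k] {a b : Fin 3} (hab : a ≠ b) : (XX k a b).IsSmooth := by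
  intro x hx
  have hli : LinearIndependent k (fun (j : Fin 2) (v : Fin 7 × Fin 2) =>
      eval (show Fin 7 × Fin 2 → k from x)
        (pderiv v ((![Fp k, Gp k a b] : Fin 2 → MvPolynomial (Fin 7 × Fin 2) k) j))) := by
    rw [Fintype.linearIndependent_iff]
    intro g hg
    rw [Fin.sum_univ_two] at hg
    have := smooth_core hab (show Fin 7 × Fin 2 → k from x) (cone_nz hx) (g 0) (g 1)
      (fun v => congrFun hg v)
    rw [Fin.forall_fin_two]
    exact this
  exact hli

end

end Pool.Agent.Hhelper17.Batyrev
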