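import Mathlib
import Pool.Agent.Hhelper17.BatyrevX
import Pool.Agent.Hhelper17.BatyrevGadget
import Pool.Agent.Hhelper17.BatyrevTop

/-!
# Labels of curves in a fixed class
-/

set_option linter.all false

namespace Pool.Agent.Hhelper17.Batyrev

open Polynomial

universe u

section defs

variable {S : Type u} [CommRing S] {δ : Fin 7 → ℕ}

/-- coefficients -/
def co (c : CI.CoefIndex 7 δ → S) (i : Fin 7) (j : Fin 2) (l : ℕ) : S :=
  if h : l < δ i + 1 then c ⟨i, (j, ⟨l, h⟩)⟩ else 0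

/-- The tuple of forms, reparametrised so that the second component is the tautological pair. -/
noncomputable def rp (c : CI.CoefIndex 7 δ → S) (i : Fin 7) (j : Fin 2) : S[X] :=
  ∑ l ∈ Finset.range (δ i + 1), C (co c i j l) * (C (co c 1 1 0) * X - C (co c 1 0 0)) ^ l *
    (C (co c 1 0 1) - C (co c 1 1 1) * X) ^ (δ i - l)

theorem rp_map {S' : Type u} [CommRing S'] (f : S →+* S') (c : CI.CoefIndex 7 δ → S) (i : Fin 7)
    (j : Fin 2) : (rp c i j).map f = rp (fun v => f (c v)) i j := by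
  have hco : ∀ i j l, f (co c i j l) = co (fun v => f (c v)) i j l := by
    intro i j l
    unfold co
    split_ifs <;> simp
  unfold rp
  simp only [Polynomial.map_sum, Polynomial.map_mul, Polynomial.map_pow, Polynomial.map_sub,
    Polynomial.map_C, Polynomial.map_X, hco]

end defs

section

variable {k : Type u} [Field k] {δ : Fin 7 → ℕ}

theorem evalForm_eq (c : CI.CoefIndex 7 δ → k) (s : Fin 2 → k) (i : Fin 7) (j : Fin 2) :
    CI.evalForm c s (i, j) =
      ∑ l ∈ Finset.range (δ i + 1), co c i j l * s 0 ^ l * s 1 ^ (δ i - l) := by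
  rw [Finset.sum_range]
  unfold CI.evalForm
  apply Finset.sum_congr rfl
  intro l _
  have : co c i j (l : ℕ) = c ⟨i, (j, l)⟩ := by
    unfold co
    rw [dif_pos l.2]
  rw [this]

/-- the reparametrisation -/
def Ks (c : CI.CoefIndex 7 δ → k) (s : Fin 2 → k) : Fin 2 → k :=
  ![co c 1 1 0 * s 0 - co c 1 0 0 * s 1, co c 1 0 1 * s 1 - co c 1 1 1 * s 0]

theorem nd_lin1 (a b : k) : (C a * X - C b : k[X]).natDegree ≤ 1 :=
  (natDegree_sub_le _ _).trans (max_le ((natDegree_C_mul_le _ _).trans natDegree_X_le)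
    (by simp))

theorem nd_lin2 (a b : k) : (C b - C a * X : k[X]).natDegree ≤ 1 :=
  (natDegree_sub_le _ _).trans (max_le (by simp)
    ((natDegree_C_mul_le _ _).trans natDegree_X_le))

theorem rp_term_natDegree {n l : ℕ} (hl : l ≤ n) (e a b a' b' : k) :
    (C e * (C a * X - C b) ^ l * (C b' - C a' * X) ^ (n - l) : k[X]).natDegree ≤ n := by
  have h1 : ((C a * X - C b) ^ l : k[X]).natDegree ≤ l * 1 := natDegree_pow_le_of_le l (nd_lin1 a b)
  have h2 : ((C b' - C a' * X) ^ (n - l) : k[X]).natDegree ≤ (n - l) * 1 :=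
    natDegree_pow_le_of_le (n - l) (nd_lin2 a' b')
  have h3 : (C e * (C a * X - C b) ^ l : k[X]).natDegree ≤ l * 1 :=
    (natDegree_C_mul_le _ _).trans h1
  refine (natDegree_mul_le_of_le h3 h2).trans ?_
  omega

theorem rp_natDegree (c : CI.CoefIndex 7 δ → k) (i : Fin 7) (j : Fin 2) :
    (rp c i j).natDegree ≤ δ i := by
  unfold rp
  apply natDegree_sum_le_of_forall_le
  intro l hl
  exact rp_term_natDegree (Nat.lt_succ_iff.mp (Finset.mem_range.mp hl)) _ _ _ _ _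

theorem hv_lin1 (a b : k) (s : Fin 2 → k) : hv 1 (C a * X - C b) s = a * s 0 - b * s 1 := by
  rw [hv_sub, hv_C_mul]
  simp [hv]

theorem hv_lin2 (a b : k) (s : Fin 2 → k) : hv 1 (C b - C a * X) s = b * s 1 - a * s 0 := by
  rw [hv_sub, hv_C_mul]
  simp [hv]

theorem hv_rp (c : CI.CoefIndex 7 δ → k) (s : Fin 2 → k) (i : Fin 7) (j : Fin 2) :
    hv (δ i) (rp c i j) s = CI.evalForm c (Ks c s) (i, j) := by
  rw [evalForm_eq]
  unfold rp
  rw [hv_sum]
  apply Finset.sum_congr rfl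
  intro l hl
  have hl' : l ≤ δ i := Nat.lt_succ_iff.mp (Finset.mem_range.mp hl)
  have e : δ i = l * 1 + (δ i - l) * 1 := by omega
  have h1 : (C (co c i j l) * (C (co c 1 1 0) * X - C (co c 1 0 0)) ^ l : k[X]).natDegree ≤ l * 1 :=
    (natDegree_C_mul_le _ _).trans (natDegree_pow_le_of_le l (nd_lin1 _ _))
  have h2 : ((C (co c 1 0 1) - C (co c 1 1 1) * X) ^ (δ i - l) : k[X]).natDegree ≤
    (δ i - l) * 1 := natDegree_pow_le_of_le (δ i - l) (nd_lin2 _ _)
  have h3 : hv (δ i) (C (co c i j l) * (C (co c 1 1 0) * X - C (co c 1 0 0)) ^ l *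
      (C (co c 1 0 1) - C (co c 1 1 1) * X) ^ (δ i - l)) s =
      hv (l * 1 + (δ i - l) * 1) (C (co c i j l) * (C (co c 1 1 0) * X - C (co c 1 0 0)) ^ l *
      (C (co c 1 0 1) - C (co c 1 1 1) * X) ^ (δ i - l)) s := by rw [← e]
  rw [h3, hv_mul h1 h2, hv_C_mul, hv_pow (nd_lin1 _ _), hv_pow (nd_lin2 _ _), hv_lin1, hv_lin2]
  rfl

theorem evalForm_one (hδ : δ 1 = 1) (c : CI.CoefIndex 7 δ → k) (s : Fin 2 → k) (j : Fin 2) :
    CI.evalForm c s (1, j) = co c 1 j 1 * s 0 + co c 1 j 0 * s 1 := by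
  rw [evalForm_eq, hδ, Finset.sum_range_succ, Finset.sum_range_succ, Finset.sum_range_zero]
  simp
  ring

/-- the block determinant -/
def bd (c : CI.CoefIndex 7 δ → k) : k := co c 1 0 1 * co c 1 1 0 - co c 1 0 0 * co c 1 1 1

theorem rp_one (hδ : δ 1 = 1) (c : CI.CoefIndex 7 δ → k) (j : Fin 2) :
    rp c 1 j = C (bd c) * xx j := by
  unfold rp
  rw [hδ, Finset.sum_range_succ, Finset.sum_range_succ, Finset.sum_range_zero]
  revert j
  rw [Fin.forall_fin_two]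
  constructor
  · simp [xx, bd]
    ring
  · simp [xx, bd]
    ring

variable {a b : Fin 3}

theorem mor_nz {c : CI.CoefIndex 7 δ → k} (hc : c ∈ (XX k a b).morCone δ) {s : Fin 2 → k}
    (hs : NZ s) (i : Fin 7) : NZ (fun j => CI.evalForm c s (i, j)) :=
  cone_nz (hc s (NZ_iff.mp hs)) i

theorem bd_ne_zero (hδ : δ 1 = 1) {c : CI.CoefIndex 7 δ → k} (hc : c ∈ (XX k a b).morCone δ) :
    bd c ≠ 0 := by
  intro h0
  have key : ∀ s : Fin 2 → k, (∀ j, co c 1 j 1 * s 0 + co c 1 j 0 * s 1 = 0) → ¬ NZ s := by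
    intro s h hs
    have := mor_nz hc hs 1
    simp only [NZ, evalForm_one hδ] at this
    rcases this with h' | h'
    · exact h' (h 0)
    · exact h' (h 1)
  unfold bd at h0
  have h1 := key ![co c 1 1 0, -co c 1 1 1] (by
    rw [Fin.forall_fin_two]
    simp only [Matrix.cons_val_zero, Matrix.cons_val_one, Matrix.cons_val_fin_one]
    exact ⟨by linear_combination h0, by ring⟩)
  have h2 := key ![-co c 1 0 0, co c 1 0 1] (by
    rw [Fin.forall_fin_two]
    simp only [Matrix.cons_val_zero, Matrix.cons_val_one, Matrix.cons_val_fin_one]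
    exact ⟨by ring, by linear_combination h0⟩)
  simp only [NZ, Matrix.cons_val_zero, Matrix.cons_val_one, Matrix.cons_val_fin_one, not_or,
    not_not, neg_eq_zero] at h1 h2
  refine key ![1, 0] ?_ (Or.inl (by simp))
  rw [Fin.forall_fin_two]
  simp [h1.1, h1.2, h2.1, h2.2]

theorem Ks_nz (hδ : δ 1 = 1) {c : CI.CoefIndex 7 δ → k} (hc : c ∈ (XX k a b).morCone δ)
    {s : Fin 2 → k} (hs : NZ s) : NZ (Ks c s) := by
  have h0 := bd_ne_zero hδ hc
  by_contra hcon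
  simp only [NZ, Ks, Matrix.cons_val_zero, Matrix.cons_val_one, Matrix.cons_val_fin_one, not_or,
    not_not] at hcon
  obtain ⟨h1, h2⟩ := hcon
  have e1 : bd c * s 0 = 0 := by
    unfold bd
    linear_combination (co c 1 0 1) * h1 + (co c 1 0 0) * h2
  have e2 : bd c * s 1 = 0 := by
    unfold bd
    linear_combination (co c 1 1 1) * h1 + (co c 1 1 0) * h2
  rcases hs with h | h
  · exact h ((mul_eq_zero.mp e1).resolve_left h0)
  · exact h ((mul_eq_zero.mp e2).resolve_left h0)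

theorem good_rp (hδ : δ 1 = 1) {c : CI.CoefIndex 7 δ → k} (hc : c ∈ (XX k a b).morCone δ)
    (i : Fin 7) : Good (δ i) (rp c i) := by
  refine ⟨rp_natDegree c i, fun s hs => ?_⟩
  have := mor_nz hc (Ks_nz hδ hc hs) i
  simp only [NZ, hV, hv_rp] at this ⊢
  exact this

theorem eq_zero_of_hv [Infinite k] {D : ℕ} {p : k[X]} (hp : p.natDegree ≤ D)
    (h : ∀ s, NZ s → hv D p s = 0) : p = 0 := by
  apply Polynomial.funext
  intro x
  rw [eval_zero, ← hv_one_of_eval hp]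
  exact h _ (Or.inr (by simp))

theorem rp_eqs [Infinite k] (hδ : δ 1 = 1) {c : CI.CoefIndex 7 δ → k}
    (hc : c ∈ (XX k a b).morCone δ) :
    FF (rp c 0) (rp c 1) (rp c 2) (rp c 3) (rp c 4) = 0 ∧
    GG (C (CC a : k)) (C (CC b : k)) (rp c 0) (rp c 5) (rp c 6) = 0 := by
  constructor
  · apply eq_zero_of_hv (natDegree_FF_le (rp_natDegree c 0) (rp_natDegree c 1) (rp_natDegree c 2)
      (rp_natDegree c 3) (rp_natDegree c 4) rfl)
    intro s hs
    rw [hvFF (rp_natDegree c 0) (rp_natDegree c 1) (rp_natDegree c 2)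
      (rp_natDegree c 3) (rp_natDegree c 4) rfl]
    have h1 := (mem_cone_iff.mp (hc _ (NZ_iff.mp (Ks_nz hδ hc hs)))).2.1
    rw [eval_Fp] at h1
    have e : ∀ i : Fin 7, hV (δ i) (rp c i) s = fun j => CI.evalForm c (Ks c s) (i, j) := by
      intro i; ext j; exact hv_rp c s i j
    rw [e, e, e, e, e]
    exact h1
  · have d1 : ∀ x : k, (rp c 0 1 - C x * rp c 0 0).natDegree ≤ δ 0 := fun x =>
      (natDegree_sub_le _ _).trans (max_le (rp_natDegree c 0 1)
        ((natDegree_C_mul_le _ _).trans (rp_natDegree c 0 0)))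
    have d2 : ∀ j, (rp c 5 j * rp c 6 j).natDegree ≤ δ 5 + δ 6 := fun j =>
      natDegree_mul_le_of_le (rp_natDegree c 5 j) (rp_natDegree c 6 j)
    have d3 : ∀ (x : k) j, ((rp c 0 1 - C x * rp c 0 0) * (rp c 5 j * rp c 6 j)).natDegree ≤
        δ 0 + (δ 5 + δ 6) := fun x j => natDegree_mul_le_of_le (d1 x) (d2 j)
    apply eq_zero_of_hv (D := δ 0 + (δ 5 + δ 6))
    · exact (natDegree_sub_le _ _).trans (max_le (d3 _ _) (d3 _ _))
    intro s hs
    have h1 := (mem_cone_iff.mp (hc _ (NZ_iff.mp (Ks_nz hδ hc hs)))).2.2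
    rw [eval_Gp] at h1
    have e : ∀ (i : Fin 7) j, hv (δ i) (rp c i j) s = CI.evalForm c (Ks c s) (i, j) :=
      fun i j => hv_rp c s i j
    unfold GG at h1 ⊢
    rw [hv_sub, hv_mul (d1 _) (d2 _), hv_mul (d1 _) (d2 _), hv_sub, hv_sub, hv_C_mul, hv_C_mul,
      hv_mul (rp_natDegree c 5 0) (rp_natDegree c 6 0),
      hv_mul (rp_natDegree c 5 1) (rp_natDegree c 6 1), e, e, e, e, e, e]
    exact h1

/-- The class of curves considered. -/
structure Cls (q j : ℕ) (δ : Fin 7 → ℕ) : Prop where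
  d0 : δ 0 = mm (4 * q + 1)
  d1 : δ 1 = 1
  d2 : δ 2 = mm (4 * q + 2)
  d3 : δ 3 = mm (4 * q)
  d4 : 1 + δ 0 + δ 2 + δ 3 < δ 4
  d5 : δ 5 = j
  d6 : δ 6 = mm (4 * q + 1)

variable [CharZero k] [IsAlgClosed k] {q j : ℕ}

theorem tr_rp (h : Cls q j δ) {c : CI.CoefIndex 7 δ → k} (hc : c ∈ (XX k a b).morCone δ) :
    Tr (4 * q) (rp c 3) (rp c 0) (rp c 2) := by
  haveI : Infinite k := inferInstance
  obtain ⟨hF, -⟩ := rp_eqs h.d1 hc
  have e1 : rp c 1 = fun i => C (bd c) * xx i := funext fun i => rp_one h.d1 c i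
  have hbd : C (bd c) ≠ 0 := C_ne_zero.mpr (bd_ne_zero h.d1 hc)
  -- remove the determinant
  have hF' : FF (rp c 0) xx (rp c 2) (rp c 3) (rp c 4) = 0 := by
    apply mul_left_cancel₀ hbd
    rw [mul_zero, ← hF, e1]
    unfold FF
    ring
  have g0 := good_rp h.d1 hc 0
  have g2 := good_rp h.d1 hc 2
  have g3 := good_rp h.d1 hc 3
  have g4 := good_rp h.d1 hc 4
  have hforced := forced_zero (e := 1 + δ 0 + δ 2 + δ 3) h.d4 g4
    (f := fun i => FF (rp c 0) xx (rp c 2) (rp c 3) (ee i))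
    (fun i => natDegree_FF_le g0.deg good_xx.deg g2.deg g3.deg (natDegree_ee i) (by omega))
    (by rw [← FF_w]; exact hF')
  refine ⟨h.d3 ▸ g3, h.d0 ▸ g0, h.d2 ▸ g2, ?_⟩
  intro i
  have e : (4 * q) % 4 = 0 := by omega
  simp only [Phi, e, if_true]
  exact hforced i

/-- The validity conditions on a label. -/
def Valid (a b : Fin 3) (q j : ℕ) (L : k × k[X] × k[X]) : Prop :=
  (L.1 = 1 ∨ L.1 = -1) ∧ L.2.1.Monic ∧ L.2.2.Monic ∧ L.2.1 ∣ AA L.1 q a ∧ L.2.2 ∣ AA L.1 q b ∧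
    L.2.1.natDegree + L.2.2.natDegree = j

/-- the tuples with a given label -/
def LS (q : ℕ) (L : k × k[X] × k[X]) (c : CI.CoefIndex 7 δ → k) : Prop :=
  PT (gg L.1 (4 * q)) (gg L.1 (4 * q + 1)) (gg L.1 (4 * q + 2)) (rp c 3) (rp c 0) (rp c 2) ∧
    L.2.1 ∣ rp c 5 1 ∧ L.2.2 ∣ rp c 5 0

theorem finite_valid (a b : Fin 3) (q j : ℕ) : {L : k × k[X] × k[X] | Valid a b q j L}.Finite := by
  have h1 : ∀ ε : k, (ε = 1 ∨ ε = -1) →
      (({ε} : Set k) ×ˢ ({α : k[X] | α.Monic ∧ α ∣ AA ε q a} ×ˢ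
        {β : k[X] | β.Monic ∧ β ∣ AA ε q b})).Finite := by
    intro ε hε
    exact (Set.finite_singleton ε).prod ((finite_monic_dvd (AA_ne_zero hε q a)).prod
      (finite_monic_dvd (AA_ne_zero hε q b)))
  refine ((h1 1 (Or.inl rfl)).union (h1 (-1) (Or.inr rfl))).subset ?_
  rintro ⟨ε, α, β⟩ ⟨hε, hα, hβ, hα', hβ', -⟩
  rcases hε with h | h
  · left
    simp only at h
    subst h
    exact ⟨rfl, ⟨hα, hα'⟩, ⟨hβ, hβ'⟩⟩
  · right
    simp only at h
    subst h
    exact ⟨rfl, ⟨hα, hα'⟩, ⟨hβ, hβ'⟩⟩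

/-- the equation satisfied by the last two components -/
theorem gadget_eq (h : Cls q j δ) {c : CI.CoefIndex 7 δ → k}
    (hc : c ∈ (XX k a b).morCone δ) {ε : k} (hε : ε = 1 ∨ ε = -1)
    (hp : PP (gg ε (4 * q + 1)) (rp c 0)) :
    AA ε q a * rp c 5 0 * rp c 6 0 = AA ε q b * rp c 5 1 * rp c 6 1 := by
  haveI : Infinite k := inferInstance
  obtain ⟨-, hG⟩ := rp_eqs h.d1 hc
  obtain ⟨l, hl, hl'⟩ := (tr_gg hε (4 * q)).gb.smul_of (good_rp h.d1 hc 0) hp
  apply mul_left_cancel₀ hl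
  unfold GG at hG
  rw [hl' 0, hl' 1] at hG
  unfold AA
  linear_combination hG

theorem exists_label (hab : a ≠ b) (hq : 1 ≤ q) (h : Cls q j δ) {c : CI.CoefIndex 7 δ → k}
    (hc : c ∈ (XX k a b).morCone δ) : ∃ L, Valid a b q j L ∧ LS q L c := by
  obtain ⟨ε, hε, hp⟩ := (tr_rp h hc).unique
  have heq := gadget_eq h hc hε hp.2.1
  have hN : 0 < mm (4 * q + 1) := by rw [mm_one]; positivity
  have dA := AA_natDegree hε q a
  have dB := AA_natDegree hε q b
  rw [← mm_one] at dA dB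
  have gU : Good j (rp c 5) := h.d5 ▸ good_rp h.d1 hc 5
  have gV : Good (mm (4 * q + 1)) (rp c 6) := h.d6 ▸ good_rp h.d1 hc 6
  obtain ⟨α, β, hα, hβ, h1, h2, h3, h4, h5, -, -⟩ :=
    gadget_aux hN dA dB (AA_coprime hε q hab) gU gV heq
  exact ⟨(ε, α, β), ⟨hε, hα, hβ, h1, h2, h5⟩, hp, h3, h4⟩

theorem unique_label (hab : a ≠ b) (hq : 1 ≤ q) (h : Cls q j δ) {c : CI.CoefIndex 7 δ → k}
    (hc : c ∈ (XX k a b).morCone δ) {L L' : k × k[X] × k[X]} (hL : Valid a b q j L)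
    (hL' : Valid a b q j L') (h1 : LS q L c) (h2 : LS q L' c) : L = L' := by
  obtain ⟨ε, α, β⟩ := L
  obtain ⟨ε', α', β'⟩ := L'
  have hε : ε = 1 ∨ ε = -1 := hL.1
  have hε' : ε' = 1 ∨ ε' = -1 := hL'.1
  have hp : PT (gg ε (4 * q)) (gg ε (4 * q + 1)) (gg ε (4 * q + 2)) (rp c 3) (rp c 0) (rp c 2) :=
    h1.1
  have hp' : PT (gg ε' (4 * q)) (gg ε' (4 * q + 1)) (gg ε' (4 * q + 2)) (rp c 3) (rp c 0)
    (rp c 2) := h2.1
  have hee : ε = ε' := by
    rcases hε with rfl | rfl <;> rcases hε' with rfl | rfl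
    · rfl
    · exact (gg_disjoint (4 * q) hp hp' (tr_rp h hc)).elim
    · exact (gg_disjoint (4 * q) hp' hp (tr_rp h hc)).elim
    · rfl
  subst hee
  have heq := gadget_eq h hc hε hp.2.1
  have hN : 0 < mm (4 * q + 1) := by rw [mm_one]; positivity
  have dA := AA_natDegree hε q a
  have dB := AA_natDegree hε q b
  rw [← mm_one] at dA dB
  have gU : Good j (rp c 5) := h.d5 ▸ good_rp h.d1 hc 5
  have gV : Good (mm (4 * q + 1)) (rp c 6) := h.d6 ▸ good_rp h.d1 hc 6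
  obtain ⟨r1, r2⟩ := gadget_unique hN dA dB (AA_coprime hε q hab) gU gV heq hL.2.1 hL.2.2.1
    hL'.2.1 hL'.2.2.1 hL.2.2.2.1 hL.2.2.2.2.1 h1.2.1 h1.2.2 hL.2.2.2.2.2
    hL'.2.2.2.1 hL'.2.2.2.2.1 h2.2.1 h2.2.2 hL'.2.2.2.2.2
  simp only at r1 r2
  rw [r1, r2]

end

section closed

variable {k : Type u} [Field k] {δ : Fin 7 → ℕ}

/-- the universal reparametrised tuple -/
noncomputable def RP (k : Type u) [Field k] (δ : Fin 7 → ℕ) (i : Fin 7) (j : Fin 2) :
    (MvPolynomial (CI.CoefIndex 7 δ) k)[X] := rp (fun v => MvPolynomial.X v) i j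

theorem RP_map (c : CI.CoefIndex 7 δ → k) (i : Fin 7) (j : Fin 2) :
    (RP k δ i j).map (MvPolynomial.eval c) = rp c i j := by
  unfold RP
  rw [rp_map]
  congr 1
  ext v
  simp

theorem map_map_C (c : CI.CoefIndex 7 δ → k) (g : k[X]) :
    (g.map (MvPolynomial.C : k →+* MvPolynomial (CI.CoefIndex 7 δ) k)).map (MvPolynomial.eval c) =
      g := by
  rw [Polynomial.map_map]
  have : (MvPolynomial.eval c).comp (MvPolynomial.C : k →+* MvPolynomial (CI.CoefIndex 7 δ) k) =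
      RingHom.id k := by ext; simp
  rw [this, Polynomial.map_id]

theorem isClosed_PP (g : Fin 2 → k[X]) (i : Fin 7) :
    IsClosed {c : Aff k (CI.CoefIndex 7 δ) | PP g (rp c i)} := by
  have := isClosed_polymap_zero (k := k) (σ := CI.CoefIndex 7 δ)
    ((g 0).map MvPolynomial.C * RP k δ i 1 - (g 1).map MvPolynomial.C * RP k δ i 0)
  convert this using 1
  ext c
  show PP g (rp c i) ↔ Polynomial.map (MvPolynomial.eval (show CI.CoefIndex 7 δ → k from c)) _ = 0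
  rw [Polynomial.map_sub, Polynomial.map_mul, Polynomial.map_mul, RP_map, RP_map, map_map_C,
    map_map_C, sub_eq_zero]
  rfl

theorem isClosed_dvd {α : k[X]} (hα : α.Monic) (i : Fin 7) (j : Fin 2) :
    IsClosed {c : Aff k (CI.CoefIndex 7 δ) | α ∣ rp c i j} := by
  have hm : (α.map (MvPolynomial.C : k →+* MvPolynomial (CI.CoefIndex 7 δ) k)).Monic := hα.map _
  have := isClosed_polymap_zero (k := k) (σ := CI.CoefIndex 7 δ)
    (RP k δ i j %ₘ α.map MvPolynomial.C)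
  convert this using 1
  ext c
  show α ∣ rp c i j ↔ Polynomial.map (MvPolynomial.eval (show CI.CoefIndex 7 δ → k from c)) _ = 0
  rw [Polynomial.map_modByMonic _ hm, RP_map, map_map_C, modByMonic_eq_zero_iff_dvd hα]

theorem isClosed_LS [CharZero k] [IsAlgClosed k] {a b : Fin 3} {q j : ℕ}
    {L : k × k[X] × k[X]} (hL : Valid a b q j L) :
    IsClosed {c : Aff k (CI.CoefIndex 7 δ) | LS q L c} := by
  have h1 := isClosed_PP (δ := δ) (gg L.1 (4 * q)) 3
  have h2 := isClosed_PP (δ := δ) (gg L.1 (4 * q + 1)) 0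
  have h3 := isClosed_PP (δ := δ) (gg L.1 (4 * q + 2)) 2
  have h4 := isClosed_dvd (δ := δ) hL.2.1 5 1
  have h5 := isClosed_dvd (δ := δ) hL.2.2.1 5 0
  exact (h1.inter (h2.inter h3)).inter (h4.inter h5)

end closed

end Pool.Agent.Hhelper17.Batyrev
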