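import Mathlib
import Pool.Agent.Hhelper17.BatyrevLabel

/-!
# Curves with prescribed labels; counting components
-/

set_option linter.all false

namespace Pool.Agent.Hhelper17.Batyrev

open Polynomial

universe u

section scaling

variable {k : Type u} [Field k] {δ : Fin 7 → ℕ}

theorem co_smul {c c' : CI.CoefIndex 7 δ → k} {l : Fin 7 → k}
    (h : ∀ i j, c' ⟨i, j⟩ = l i * c ⟨i, j⟩) (i : Fin 7) (j : Fin 2) (n : ℕ) :
    co c' i j n = l i * co c i j n := by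
  unfold co
  split_ifs
  · exact h i _
  · rw [mul_zero]

theorem rp_smul {c c' : CI.CoefIndex 7 δ → k} {l : Fin 7 → k}
    (h : ∀ i j, c' ⟨i, j⟩ = l i * c ⟨i, j⟩) (i : Fin 7) (j : Fin 2) :
    rp c' i j = C (l i * l 1 ^ δ i) * rp c i j := by
  unfold rp
  rw [Finset.mul_sum]
  apply Finset.sum_congr rfl
  intro n hn
  have hn' : n ≤ δ i := Nat.lt_succ_iff.mp (Finset.mem_range.mp hn)
  rw [co_smul h, co_smul h, co_smul h, co_smul h, co_smul h]
  have e : (l 1) ^ δ i = l 1 ^ n * l 1 ^ (δ i - n) := by rw [← pow_add]; congr 1; omega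
  rw [e]
  have e1 : (C (l 1 * co c 1 1 0) * X - C (l 1 * co c 1 0 0) : k[X]) =
      C (l 1) * (C (co c 1 1 0) * X - C (co c 1 0 0)) := by simp only [C_mul]; ring
  have e2 : (C (l 1 * co c 1 0 1) - C (l 1 * co c 1 1 1) * X : k[X]) =
      C (l 1) * (C (co c 1 0 1) - C (co c 1 1 1) * X) := by simp only [C_mul]; ring
  rw [e1, e2, mul_pow, mul_pow]
  simp only [C_mul, C_pow]
  ring

theorem PP_smul {g r r' : Fin 2 → k[X]} {m : k} (hm : m ≠ 0) (h : ∀ j, r' j = C m * r j) :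
    PP g r' ↔ PP g r := by
  unfold PP
  rw [h, h]
  constructor
  · intro h'
    apply mul_left_cancel₀ (C_ne_zero.mpr hm)
    linear_combination h'
  · intro h'
    linear_combination (C m) * h'

theorem dvd_smul_iff {α r : k[X]} {m : k} (hm : m ≠ 0) : α ∣ C m * r ↔ α ∣ r := by
  have : IsUnit (C m) := isUnit_C.mpr (isUnit_iff_ne_zero.mpr hm)
  exact this.dvd_mul_left

variable [CharZero k] [IsAlgClosed k]

theorem LS_smul {c c' : CI.CoefIndex 7 δ → k} {l : Fin 7 → k} (hl : ∀ i, l i ≠ 0)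
    (h : ∀ i j, c' ⟨i, j⟩ = l i * c ⟨i, j⟩) (q : ℕ) (L : k × k[X] × k[X]) :
    LS q L c' ↔ LS q L c := by
  have hm : ∀ i, l i * l 1 ^ δ i ≠ 0 := fun i => mul_ne_zero (hl i) (pow_ne_zero _ (hl 1))
  unfold LS PT
  rw [PP_smul (hm 3) (rp_smul h 3), PP_smul (hm 0) (rp_smul h 0), PP_smul (hm 2) (rp_smul h 2),
    rp_smul h 5 1, rp_smul h 5 0, dvd_smul_iff (hm 5), dvd_smul_iff (hm 5)]

end scaling

section clopen

variable {k : Type u} [Field k] [CharZero k] [IsAlgClosed k] {δ : Fin 7 → ℕ} {a b : Fin 3}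
  {q j : ℕ}

omit [CharZero k] [IsAlgClosed k] in
/-- the underlying tuple of coefficients -/
def vl (c : (XX k a b).morCone δ) : CI.CoefIndex 7 δ → k := c.1

theorem LS_congr (q : ℕ) (L : k × k[X] × k[X]) (c c' : (XX k a b).morCone δ)
    (h : (XX k a b).morSetoid δ c c') : LS q L (vl c) = LS q L (vl c') := by
  obtain ⟨l, hl, h'⟩ := h
  have h'' : ∀ i j, (vl c') ⟨i, j⟩ = l i * (vl c) ⟨i, j⟩ := h'
  exact propext (LS_smul hl h'' q L).symm

/-- the set of morphisms with a given label -/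
def LQ (a b : Fin 3) (δ : Fin 7 → ℕ) (q : ℕ) (L : k × k[X] × k[X]) :
    Set ((XX k a b).Mor δ) :=
  {m | Quotient.lift (s := (XX k a b).morSetoid δ)
    (fun c : (XX k a b).morCone δ => LS q L (vl c)) (LS_congr q L) m}

theorem isClosed_LQ {L : k × k[X] × k[X]} (hL : Valid a b q j L) : IsClosed (LQ a b δ q L) := by
  have hq : Topology.IsQuotientMap (Quotient.mk ((XX k a b).morSetoid δ)) :=
    isQuotientMap_quotient_mk'
  refine hq.isClosed_preimage.mp ?_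
  have h1 := (isClosed_LS (δ := δ) hL).preimage
    (continuous_subtype_val : Continuous (Subtype.val : (XX k a b).morCone δ → _))
  exact h1

theorem LQ_cover (hab : a ≠ b) (hq : 1 ≤ q) (h : Cls q j δ) (m : (XX k a b).Mor δ) :
    ∃ L, Valid a b q j L ∧ m ∈ LQ a b δ q L := by
  obtain ⟨c, rfl⟩ := Quotient.exists_rep m
  exact exists_label hab hq h c.2

theorem LQ_unique (hab : a ≠ b) (hq : 1 ≤ q) (h : Cls q j δ) (m : (XX k a b).Mor δ)
    {L L' : k × k[X] × k[X]} (hL : Valid a b q j L) (hL' : Valid a b q j L')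
    (h1 : m ∈ LQ a b δ q L) (h2 : m ∈ LQ a b δ q L') : L = L' := by
  obtain ⟨c, rfl⟩ := Quotient.exists_rep m
  exact unique_label hab hq h c.2 hL hL' h1 h2

theorem isClopen_LQ (hab : a ≠ b) (hq : 1 ≤ q) (h : Cls q j δ) {L : k × k[X] × k[X]}
    (hL : Valid a b q j L) : IsClopen (LQ a b δ q L) := by
  refine ⟨isClosed_LQ hL, ?_⟩
  have hfin : {L' : k × k[X] × k[X] | Valid a b q j L' ∧ L' ≠ L}.Finite :=
    (finite_valid a b q j).subset fun L' h => h.1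
  have e : (LQ a b δ q L)ᶜ = ⋃ L' ∈ {L' : k × k[X] × k[X] | Valid a b q j L' ∧ L' ≠ L},
      LQ a b δ q L' := by
    ext m
    simp only [Set.mem_compl_iff, Set.mem_iUnion, Set.mem_setOf_eq, exists_prop]
    constructor
    · intro hm
      obtain ⟨L', hL', hm'⟩ := LQ_cover hab hq h m
      refine ⟨L', ⟨hL', ?_⟩, hm'⟩
      rintro rfl
      exact hm hm'
    · rintro ⟨L', ⟨hL', hne⟩, hm'⟩ hm
      exact hne (LQ_unique hab hq h m hL' hL hm' hm)
  rw [← isClosed_compl_iff, e]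
  exact hfin.isClosed_biUnion fun L' hL' => isClosed_LQ hL'.1

/-- the corresponding subset of the space of all curves of bounded degree -/
def LM (a b : Fin 3) (l : Fin 7 → ℕ) (d : ℕ) (δ : Fin 7 → ℕ) (hδ : ∑ i, l i * δ i ≤ d) (q : ℕ)
    (L : k × k[X] × k[X]) : Set ((XX k a b).MorLE l d) :=
  Sigma.mk (β := fun δ : {δ : Fin 7 → ℕ // ∑ i, l i * δ i ≤ d} => (XX k a b).Mor δ.1) ⟨δ, hδ⟩ ''
    (LQ a b δ q L)

theorem isClopen_LM (hab : a ≠ b) (hq : 1 ≤ q) (h : Cls q j δ) {L : k × k[X] × k[X]}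
    (hL : Valid a b q j L) (l : Fin 7 → ℕ) (d : ℕ) (hδ : ∑ i, l i * δ i ≤ d) :
    IsClopen (LM a b l d δ hδ q L) := by
  have h1 := isClopen_LQ hab hq h hL
  exact ⟨isClosedMap_sigmaMk _ h1.1, isOpenMap_sigmaMk _ h1.2⟩

theorem LM_disjoint (hab : a ≠ b) (hq : 1 ≤ q) (h : Cls q j δ) {L L' : k × k[X] × k[X]}
    (hL : Valid a b q j L) (hL' : Valid a b q j L') (hne : L ≠ L') (l : Fin 7 → ℕ) (d : ℕ)
    (hδ : ∑ i, l i * δ i ≤ d) : Disjoint (LM a b l d δ hδ q L) (LM a b l d δ hδ q L') := by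
  rw [Set.disjoint_left]
  rintro _ ⟨m, hm, rfl⟩ ⟨m', hm', he⟩
  have : m' = m := eq_of_heq (Sigma.mk.inj he).2
  subst this
  exact hne (LQ_unique hab hq h m' hL hL' hm hm')

end clopen

section points

variable {k : Type u} [Field k] {δ : Fin 7 → ℕ}

/-- the coefficients of a tuple of polynomials -/
def cf (δ : Fin 7 → ℕ) (P : Fin 7 → Fin 2 → k[X]) : CI.CoefIndex 7 δ → k :=
  fun v => (P v.1 v.2.1).coeff v.2.2

theorem co_cf (P : Fin 7 → Fin 2 → k[X]) (i : Fin 7) (j : Fin 2) {l : ℕ} (hl : l ≤ δ i) :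
    co (cf δ P) i j l = (P i j).coeff l := by
  unfold co
  rw [dif_pos (Nat.lt_succ_of_le hl)]
  rfl

theorem evalForm_cf (P : Fin 7 → Fin 2 → k[X]) (s : Fin 2 → k) (i : Fin 7) (j : Fin 2) :
    CI.evalForm (cf δ P) s (i, j) = hv (δ i) (P i j) s := by
  rw [evalForm_eq, hv_eq_sum]
  apply Finset.sum_congr rfl
  intro l hl
  rw [co_cf P i j (Nat.lt_succ_iff.mp (Finset.mem_range.mp hl))]

theorem rp_cf {P : Fin 7 → Fin 2 → k[X]} (h1 : δ 1 = 1) (hP : P 1 = xx)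
    (hd : ∀ i j, (P i j).natDegree ≤ δ i) (i : Fin 7) (j : Fin 2) : rp (cf δ P) i j = P i j := by
  have e1 : co (cf δ P) 1 1 0 = 1 := by rw [co_cf _ _ _ (by omega), hP]; simp [xx]
  have e2 : co (cf δ P) 1 0 0 = 0 := by rw [co_cf _ _ _ (by omega), hP]; simp [xx]
  have e3 : co (cf δ P) 1 0 1 = 1 := by rw [co_cf _ _ _ (by omega), hP]; simp [xx]
  have e4 : co (cf δ P) 1 1 1 = 0 := by
    rw [co_cf _ _ _ (by omega), hP]; simp [xx, coeff_one]
  unfold rp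
  rw [e1, e2, e3, e4]
  have e : (P i j) = ∑ l ∈ Finset.range (δ i + 1), C ((P i j).coeff l) * X ^ l :=
    (P i j).as_sum_range_C_mul_X_pow' (Nat.lt_succ_of_le (hd i j))
  conv_rhs => rw [e]
  apply Finset.sum_congr rfl
  intro l hl
  rw [co_cf P i j (Nat.lt_succ_iff.mp (Finset.mem_range.mp hl))]
  simp

theorem cf_mem_aux {a b : Fin 3} {P : Fin 7 → Fin 2 → k[X]} (hg : ∀ i, Good (δ i) (P i))
    (hF : FF (P 0) (P 1) (P 2) (P 3) (P 4) = 0)
    (hG : GG (C (CC a : k)) (C (CC b : k)) (P 0) (P 5) (P 6) = 0) (s : Fin 2 → k) (hs' : NZ s) :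
    (∀ i : Fin 7, NZ (fun j => CI.evalForm (cf δ P) s (i, j))) ∧
      MvPolynomial.eval (CI.evalForm (cf δ P) s) (Fp k) = 0 ∧
      MvPolynomial.eval (CI.evalForm (cf δ P) s) (Gp k a b) = 0 := by
  have e : ∀ i, (fun j => CI.evalForm (cf δ P) s (i, j)) = hV (δ i) (P i) s := by
    intro i; ext j; exact evalForm_cf P s i j
  refine ⟨?_, ?_, ?_⟩
  · intro i
    rw [e]
    exact (hg i).nz s hs'
  · rw [eval_Fp, e, e, e, e, e, ← hvFF (hg 0).deg (hg 1).deg (hg 2).deg (hg 3).deg (hg 4).deg rfl,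
      hF, hv_zero]
  · rw [eval_Gp, e, e, e]
    have d1 : ∀ x : k, (P 0 1 - C x * P 0 0).natDegree ≤ δ 0 := fun x =>
      (natDegree_sub_le _ _).trans (max_le ((hg 0).deg 1)
        ((natDegree_C_mul_le _ _).trans ((hg 0).deg 0)))
    have d2 : ∀ j, (P 5 j * P 6 j).natDegree ≤ δ 5 + δ 6 := fun j =>
      natDegree_mul_le_of_le ((hg 5).deg j) ((hg 6).deg j)
    have h1 : hv (δ 0 + (δ 5 + δ 6)) (GG (C (CC a : k)) (C (CC b : k)) (P 0) (P 5) (P 6)) s =
        GG (CC a : k) (CC b : k) (hV (δ 0) (P 0) s) (hV (δ 5) (P 5) s) (hV (δ 6) (P 6) s) := by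
      unfold GG
      rw [hv_sub, hv_mul (d1 _) (d2 _), hv_mul (d1 _) (d2 _), hv_sub, hv_sub, hv_C_mul, hv_C_mul,
        hv_mul ((hg 5).deg 0) ((hg 6).deg 0), hv_mul ((hg 5).deg 1) ((hg 6).deg 1)]
      rfl
    rw [← h1, hG, hv_zero]

theorem cf_mem {a b : Fin 3} {P : Fin 7 → Fin 2 → k[X]} (hg : ∀ i, Good (δ i) (P i))
    (hF : FF (P 0) (P 1) (P 2) (P 3) (P 4) = 0)
    (hG : GG (C (CC a : k)) (C (CC b : k)) (P 0) (P 5) (P 6) = 0) :
    cf δ P ∈ (XX k a b).morCone δ :=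
  fun s hs => mem_cone_iff.mpr (cf_mem_aux hg hF hG s (NZ_iff.mpr hs))

end points

end Pool.Agent.Hhelper17.Batyrev
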