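import Mathlib
import Pool.Agent.Hhelper17.BatyrevX

/-!
# The complete intersection is weak Fano
-/

set_option linter.all false

namespace Pool.Agent.Hhelper17.Batyrev

open MvPolynomial

section

theorem coeff_mul_pos {σ : Type} [DecidableEq σ] {p q : MvPolynomial σ ℕ} {m n : σ →₀ ℕ}
    (hp : 0 < coeff m p) (hq : 0 < coeff n q) : 0 < coeff (m + n) (p * q) := by
  classical
  rw [coeff_mul]
  apply lt_of_lt_of_le (Nat.mul_pos hp hq)
  exact Finset.single_le_sum (f := fun x : (σ →₀ ℕ) × (σ →₀ ℕ) => coeff x.1 p * coeff x.2 q)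
    (fun _ _ => Nat.zero_le _)
    (Finset.HasAntidiagonal.mem_antidiagonal.mpr rfl : (m, n) ∈ Finset.HasAntidiagonal.antidiagonal (m + n))

theorem coeff_linear_pos {c : Fin 7 → ℕ} {i : Fin 7} (hi : 0 < c i) :
    0 < coeff (Finsupp.single i 1) (∑ j, C (c j) * X j : MvPolynomial (Fin 7) ℕ) := by
  classical
  rw [coeff_sum]
  apply lt_of_lt_of_le hi
  have : c i = coeff (Finsupp.single i 1) (C (c i) * X i : MvPolynomial (Fin 7) ℕ) := by
    rw [coeff_C_mul, coeff_X]; simp
  rw [this]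
  exact Finset.single_le_sum (f := fun j => coeff (Finsupp.single i 1)
    (C (c j) * X j : MvPolynomial (Fin 7) ℕ)) (fun _ _ => Nat.zero_le _) (Finset.mem_univ i)

theorem fano_core {A : Fin 7 → ℕ} {D : Fin 2 → Fin 7 → ℕ} (hA : ∀ i, i ≠ 0 → 0 < A i)
    (h0 : 0 < D 0 1) (h1 : 0 < D 1 0) :
    0 < coeff (Finsupp.equivFunOnFinite.symm (fun _ : Fin 7 => 1))
      ((∑ i, C (A i) * X i) ^ 5 * ∏ j, ∑ i, C (D j i) * X i : MvPolynomial (Fin 7) ℕ) := by
  classical
  have e : (Finsupp.equivFunOnFinite.symm (fun _ : Fin 7 => 1) : Fin 7 →₀ ℕ) =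
      (Finsupp.single 2 1 + Finsupp.single 3 1 + Finsupp.single 4 1 + Finsupp.single 5 1
        + Finsupp.single 6 1) + (Finsupp.single 1 1 + Finsupp.single 0 1) := by
    ext i
    fin_cases i <;> simp [Finsupp.single_apply]
  rw [e, Fin.prod_univ_two]
  have e5 : ∀ p : MvPolynomial (Fin 7) ℕ, p ^ 5 = p * p * p * p * p := fun p => by ring
  rw [e5]
  refine coeff_mul_pos (coeff_mul_pos (coeff_mul_pos (coeff_mul_pos (coeff_mul_pos ?_ ?_) ?_) ?_)
    ?_) (coeff_mul_pos ?_ ?_)
  · exact coeff_linear_pos (hA 2 (by decide))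
  · exact coeff_linear_pos (hA 3 (by decide))
  · exact coeff_linear_pos (hA 4 (by decide))
  · exact coeff_linear_pos (hA 5 (by decide))
  · exact coeff_linear_pos (hA 6 (by decide))
  · exact coeff_linear_pos h0
  · exact coeff_linear_pos h1

theorem isWeakFano_XX (k : Type*) [Field k] (a b : Fin 3) : (XX k a b).IsWeakFano := by
  constructor
  · have : ∀ i : Fin 7, ∑ j : Fin 2, dd j i ≤ 2 := by decide
    exact this
  · have := fano_core (A := fun i => 2 - ∑ j : Fin 2, dd j i) (D := dd) (by decide) (by decide)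
      (by decide)
    exact this

end

end Pool.Agent.Hhelper17.Batyrev
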