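import Mathlib
import Pool.Agent.Hhelper17.BatyrevX
import Pool.Agent.Hhelper17.BatyrevTop

/-!
# Irreducibility of the complete intersection
-/

set_option linter.all false

namespace Pool.Agent.Hhelper17.Batyrev

open MvPolynomial

section

universe u
variable {k : Type u} [Field k]

/-- replace the coordinates of the factor `a` -/
def upd (x : Fin 7 × Fin 2 → k) (a : Fin 7) (v : Fin 2 → k) : Fin 7 × Fin 2 → k :=
  fun i => if i.1 = a then v i.2 else x i

theorem upd_same (x : Fin 7 × Fin 2 → k) (a : Fin 7) (v : Fin 2 → k) (j : Fin 2) :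
    upd x a v (a, j) = v j := by simp [upd]

theorem upd_ne (x : Fin 7 × Fin 2 → k) {a b : Fin 7} (h : b ≠ a) (v : Fin 2 → k) (j : Fin 2) :
    upd x a v (b, j) = x (b, j) := by simp [upd, h]

theorem upd_upd (x : Fin 7 × Fin 2 → k) (a : Fin 7) (v w : Fin 2 → k) :
    upd (upd x a v) a w = upd x a w := by
  ext ⟨i, j⟩
  by_cases h : i = a <;> simp [upd, h]

theorem upd_comm (x : Fin 7 × Fin 2 → k) {a b : Fin 7} (h : a ≠ b) (v w : Fin 2 → k) :
    upd (upd x a v) b w = upd (upd x b w) a v := by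
  ext ⟨i, j⟩
  by_cases h1 : i = a
  · subst h1
    simp [upd, h]
  · by_cases h2 : i = b
    · subst h2
      simp [upd, h.symm]
    · simp [upd, h1, h2]

theorem upd_self (x : Fin 7 × Fin 2 → k) (a : Fin 7) : upd x a (fun j => x (a, j)) = x := by
  ext ⟨i, j⟩
  by_cases h1 : i = a
  · subst h1; simp [upd]
  · simp [upd, h1]

/-- `f` is linear in the coordinates of the factor `a` -/
def Lin (f : (Fin 7 × Fin 2 → k) → k) (a : Fin 7) : Prop :=
  ∀ x v, f (upd x a v) = v 0 * f (upd x a (ee 0)) + v 1 * f (upd x a (ee 1))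

/-- `f` does not involve the coordinates of the factor `a` -/
def Indep (f : (Fin 7 × Fin 2 → k) → k) (a : Fin 7) : Prop := ∀ x v, f (upd x a v) = f x

/-- the solution of a linear equation -/
def sol (c0 c1 l : k) : Fin 2 → k := ![-(l * c1), l * c0]

/-- the parametrisation of a chart -/
def psi (f g : (Fin 7 × Fin 2 → k) → k) (a b : Fin 7) (p : Fin 7 × Fin 2 → k) :
    Fin 7 × Fin 2 → k :=
  upd (upd p a (sol (f (upd p a (ee 0))) (f (upd p a (ee 1))) (p (a, 0)))) b
    (sol (g (upd (upd p a (sol (f (upd p a (ee 0))) (f (upd p a (ee 1))) (p (a, 0)))) b (ee 0)))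
      (g (upd (upd p a (sol (f (upd p a (ee 0))) (f (upd p a (ee 1))) (p (a, 0)))) b (ee 1)))
      (p (b, 0)))

/-- the parametrisation as a map of affine spaces -/
def psiA (f g : (Fin 7 × Fin 2 → k) → k) (a b : Fin 7) (p : Aff k (Fin 7 × Fin 2)) :
    Aff k (Fin 7 × Fin 2) := psi f g a b p

theorem polyFun_upd {φ : (Fin 7 × Fin 2 → k) → Fin 7 × Fin 2 → k}
    {v : (Fin 7 × Fin 2 → k) → Fin 2 → k} {a : Fin 7}
    (hφ : ∀ i, PolyFun (fun x => φ x i)) (hv : ∀ j, PolyFun (fun x => v x j))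
    (i : Fin 7 × Fin 2) : PolyFun (fun x => upd (φ x) a (v x) i) := by
  by_cases h : i.1 = a
  · simp only [upd, h, if_true]; exact hv i.2
  · simp only [upd, h, if_false]; exact hφ i

theorem polyFun_sol {c0 c1 l : (Fin 7 × Fin 2 → k) → k} (h0 : PolyFun c0) (h1 : PolyFun c1)
    (hl : PolyFun l) (j : Fin 2) : PolyFun (fun x => sol (c0 x) (c1 x) (l x) j) := by
  revert j
  rw [Fin.forall_fin_two]
  exact ⟨(hl.mul h1).neg, hl.mul h0⟩

theorem polyFun_ee {σ : Type} (i j : Fin 2) : PolyFun (fun _ : σ → k => (ee i : Fin 2 → k) j) :=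
  PolyFun.const _

theorem polyFun_psi {f g : (Fin 7 × Fin 2 → k) → k} (hf : PolyFun f) (hg : PolyFun g)
    (a b : Fin 7) (i : Fin 7 × Fin 2) : PolyFun (fun x => psi f g a b x i) := by
  have h1 : ∀ j, PolyFun (fun p : Fin 7 × Fin 2 → k => f (upd p a (ee j))) := fun j =>
    hf.comp (polyFun_upd (fun i => PolyFun.coord i) (fun _ => polyFun_ee _ _))
  have h2 : ∀ i, PolyFun (fun p : Fin 7 × Fin 2 → k =>
      upd p a (sol (f (upd p a (ee 0))) (f (upd p a (ee 1))) (p (a, 0))) i) :=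
    polyFun_upd (fun i => PolyFun.coord i) (polyFun_sol (h1 0) (h1 1) (PolyFun.coord _))
  have h3 : ∀ j, PolyFun (fun p : Fin 7 × Fin 2 → k =>
      g (upd (upd p a (sol (f (upd p a (ee 0))) (f (upd p a (ee 1))) (p (a, 0)))) b (ee j))) :=
    fun j => hg.comp (polyFun_upd h2 (fun _ => polyFun_ee _ _))
  exact polyFun_upd h2 (polyFun_sol (h3 0) (h3 1) (PolyFun.coord _)) i

theorem sol_spec {c0 c1 : k} {v : Fin 2 → k} (hc : c0 ≠ 0 ∨ c1 ≠ 0) (h : v 0 * c0 + v 1 * c1 = 0) :
    ∃ l, v = sol c0 c1 l := by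
  rcases hc with hc | hc
  · refine ⟨v 1 / c0, ?_⟩
    ext j
    revert j
    rw [Fin.forall_fin_two]
    constructor
    · simp only [sol, Matrix.cons_val_zero]
      field_simp
      linear_combination h
    · simp only [sol, Matrix.cons_val_one, Matrix.cons_val_fin_one]
      field_simp
  · refine ⟨- v 0 / c1, ?_⟩
    ext j
    revert j
    rw [Fin.forall_fin_two]
    constructor
    · simp only [sol, Matrix.cons_val_zero]
      field_simp
    · simp only [sol, Matrix.cons_val_one, Matrix.cons_val_fin_one]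
      field_simp
      linear_combination h

theorem sol_nz {c0 c1 l : k} (h : NZ (sol c0 c1 l)) : c0 ≠ 0 ∨ c1 ≠ 0 := by
  rcases h with h | h
  · right; rintro rfl; exact h (by simp [sol])
  · left; rintro rfl; exact h (by simp [sol])

theorem isOpen_nz : IsOpen {x : Aff k (Fin 7 × Fin 2) | ∀ i : Fin 7, NZ (fun j => x (i, j))} := by
  have e : {x : Aff k (Fin 7 × Fin 2) | ∀ i : Fin 7, NZ (fun j => x (i, j))} =
      ⋂ i : Fin 7, ({x : Aff k (Fin 7 × Fin 2) | eval x (X (i, 0)) ≠ 0} ∪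
        {x : Aff k (Fin 7 × Fin 2) | eval x (X (i, 1)) ≠ 0}) := by
    ext x
    simp only [Set.mem_setOf_eq, Set.mem_iInter, Set.mem_union, NZ]
    apply forall_congr'
    intro i
    have h0 := @MvPolynomial.eval_X k (Fin 7 × Fin 2) _ x (i, 0)
    have h1 := @MvPolynomial.eval_X k (Fin 7 × Fin 2) _ x (i, 1)
    constructor
    · rintro (h | h)
      · left; intro hc; exact h (h0.symm.trans hc)
      · right; intro hc; exact h (h1.symm.trans hc)
    · rintro (h | h)
      · left; intro hc; exact h (h0.trans hc)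
      · right; intro hc; exact h (h1.trans hc)
  rw [e]
  exact isOpen_iInter_of_finite fun i => (isOpen_ne _).union (isOpen_ne _)

/-- a chart is irreducible -/
theorem chart_irreducible [Infinite k] {f g : (Fin 7 × Fin 2 → k) → k} (hf : PolyFun f)
    (hg : PolyFun g) {a b : Fin 7} (hab : a ≠ b) (lf : Lin f a) (lg : Lin g b) (ind : Indep f b)
    {V : Set (Aff k (Fin 7 × Fin 2))}
    (hV : ∀ x : Fin 7 × Fin 2 → k, x ∈ V ↔ (∀ i : Fin 7, NZ (fun j => x (i, j))) ∧ f x = 0 ∧
      g x = 0 ∧ (f (upd x a (ee 0)) ≠ 0 ∨ f (upd x a (ee 1)) ≠ 0) ∧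
      (g (upd x b (ee 0)) ≠ 0 ∨ g (upd x b (ee 1)) ≠ 0)) (hne : V.Nonempty) :
    IsIrreducible V := by
  set O : Set (Aff k (Fin 7 × Fin 2)) :=
    {p | ∀ i : Fin 7, NZ (fun j => psi f g a b p (i, j))} with hO
  have hcont : Continuous (psiA f g a b) := continuous_of_polyFun (polyFun_psi hf hg a b)
  have hOpen : IsOpen O := isOpen_nz.preimage hcont
  have himg : (psiA f g a b) '' O = V := by
    ext x
    constructor
    · rintro ⟨p, hp, rfl⟩
      refine (hV (psi f g a b p)).mpr ?_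
      set F0 := f (upd p a (ee 0)) with hF0
      set F1 := f (upd p a (ee 1)) with hF1
      set x1 := upd p a (sol F0 F1 (p (a, 0))) with hx1
      set G0 := g (upd x1 b (ee 0)) with hG0
      set G1 := g (upd x1 b (ee 1)) with hG1
      have hpsi : psi f g a b p = upd x1 b (sol G0 G1 (p (b, 0))) := rfl
      have hp' : ∀ i : Fin 7, NZ (fun j => psi f g a b p (i, j)) := hp
      refine ⟨hp', ?_, ?_, ?_, ?_⟩
      · show f (psi f g a b p) = 0
        rw [hpsi, ind, hx1, lf, ← hF0, ← hF1]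
        simp only [sol, Matrix.cons_val_zero, Matrix.cons_val_one, Matrix.cons_val_fin_one]
        ring
      · show g (psi f g a b p) = 0
        rw [hpsi, lg, ← hG0, ← hG1]
        simp only [sol, Matrix.cons_val_zero, Matrix.cons_val_one, Matrix.cons_val_fin_one]
        ring
      · show f (upd (psi f g a b p) a (ee 0)) ≠ 0 ∨ f (upd (psi f g a b p) a (ee 1)) ≠ 0
        rw [hpsi, upd_comm _ hab.symm, upd_comm _ hab.symm, ind, ind, hx1, upd_upd, upd_upd,
          ← hF0, ← hF1]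
        have := hp' a
        rw [hpsi] at this
        have e : (fun j => upd x1 b (sol G0 G1 (p (b, 0))) (a, j)) = sol F0 F1 (p (a, 0)) := by
          ext j
          rw [upd_ne _ hab, hx1, upd_same]
        rw [e] at this
        exact sol_nz this
      · show g (upd (psi f g a b p) b (ee 0)) ≠ 0 ∨ g (upd (psi f g a b p) b (ee 1)) ≠ 0
        rw [hpsi, upd_upd, upd_upd, ← hG0, ← hG1]
        have := hp' b
        rw [hpsi] at this
        have e : (fun j => upd x1 b (sol G0 G1 (p (b, 0))) (b, j)) = sol G0 G1 (p (b, 0)) := by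
          ext j
          rw [upd_same]
        rw [e] at this
        exact sol_nz this
    · intro hx
      obtain ⟨h1, h2, h3, h4, h5⟩ := (hV x).mp hx
      have h2' : x (a, 0) * f (upd x a (ee 0)) + x (a, 1) * f (upd x a (ee 1)) = 0 := by
        rw [← lf x (fun j => x (a, j)), upd_self]; exact h2
      have h3' : x (b, 0) * g (upd x b (ee 0)) + x (b, 1) * g (upd x b (ee 1)) = 0 := by
        rw [← lg x (fun j => x (b, j)), upd_self]; exact h3
      obtain ⟨l, hl⟩ := sol_spec (v := fun j => x (a, j)) h4 h2'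
      obtain ⟨m, hm⟩ := sol_spec (v := fun j => x (b, j)) h5 h3'
      have key : psi f g a b (upd (upd x a ![l, 0]) b ![m, 0]) = x := by
        set p := upd (upd x a ![l, 0]) b ![m, 0] with hp
        have e1 : ∀ v, f (upd p a v) = f (upd x a v) := by
          intro v
          rw [hp, upd_comm _ hab.symm, ind, upd_upd]
        have e2 : p (a, 0) = l := by
          rw [hp, upd_ne _ hab, upd_same]; rfl
        have e3 : p (b, 0) = m := by
          rw [hp, upd_same]; rfl
        have e4 : upd p a (sol (f (upd p a (ee 0))) (f (upd p a (ee 1))) (p (a, 0)))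
            = upd x b ![m, 0] := by
          rw [e1, e1, e2, ← hl, hp, upd_comm _ hab.symm, upd_upd, upd_self]
        unfold psi
        rw [e4, e3, upd_upd, upd_upd, upd_upd, ← hm, upd_self]
      refine ⟨upd (upd x a ![l, 0]) b ![m, 0], ?_, key⟩
      intro i
      show NZ (fun j => psi f g a b (upd (upd x a ![l, 0]) b ![m, 0]) (i, j))
      rw [key]
      exact h1 i
  have hOne : O.Nonempty := by
    obtain ⟨x, hx⟩ := hne
    rw [← himg] at hx
    obtain ⟨p, hp, -⟩ := hx
    exact ⟨p, hp⟩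
  have hOirr : IsIrreducible O :=
    ⟨hOne, ((aff_irreducible (k := k) (Fin 7 × Fin 2)).2).open_subset hOpen (Set.subset_univ _)⟩
  rw [← himg]
  exact hOirr.image _ hcont.continuousOn

theorem irreducible_of_cover' {α : Type*} [TopologicalSpace α] {ι : Type*} (S : Set α)
    (U : ι → Set α) (hU : ∀ i, IsOpen (U i)) (hirr : ∀ i, IsIrreducible (S ∩ U i)) (p : α)
    (hpS : p ∈ S) (hp : ∀ i, p ∈ U i) (hcov : ∀ x ∈ S, ∃ i, x ∈ U i) : IsIrreducible S := by
  refine ⟨⟨p, hpS⟩, ?_⟩
  intro A B hA hB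
  rintro ⟨a, haS, ha⟩ ⟨b, hbS, hb⟩
  obtain ⟨i, hi⟩ := hcov a haS
  obtain ⟨j, hj⟩ := hcov b hbS
  obtain ⟨c, ⟨hcS, hci⟩, hcA, hcj⟩ := (hirr i).2 A (U j) hA (hU j) ⟨a, ⟨haS, hi⟩, ha⟩
    ⟨p, ⟨hpS, hp i⟩, hp j⟩
  obtain ⟨d, ⟨hdS, hdj⟩, hdA, hdB⟩ := (hirr j).2 A B hA hB ⟨c, ⟨hcS, hcj⟩, hcA⟩ ⟨b, ⟨hbS, hj⟩, hb⟩
  exact ⟨d, hdS, hdA, hdB⟩

end

end Pool.Agent.Hhelper17.Batyrev
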