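import Mathlib
import Pool.Agent.Hhelper17.BatyrevIrr

/-!
# Irreducibility of the complete intersection, II
-/

set_option linter.all false

namespace Pool.Agent.Hhelper17.Batyrev

open MvPolynomial

section

universe u
variable {k : Type u} [Field k]

/-- the first equation as a function -/
noncomputable def fF (x : Fin 7 × Fin 2 → k) : k := eval x (Fp k)

/-- the second equation as a function -/
noncomputable def gG (a b : Fin 3) (x : Fin 7 × Fin 2 → k) : k := eval x (Gp k a b)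

theorem fF_0 (x : Fin 7 × Fin 2 → k) (v : Fin 2 → k) : fF (upd x 0 v) =
    FF v (fun j => x (1, j)) (fun j => x (2, j)) (fun j => x (3, j)) (fun j => x (4, j)) := by
  rw [fF, eval_Fp]; simp [upd]
theorem fF_1 (x : Fin 7 × Fin 2 → k) (v : Fin 2 → k) : fF (upd x 1 v) =
    FF (fun j => x (0, j)) v (fun j => x (2, j)) (fun j => x (3, j)) (fun j => x (4, j)) := by
  rw [fF, eval_Fp]; simp [upd]
theorem fF_2 (x : Fin 7 × Fin 2 → k) (v : Fin 2 → k) : fF (upd x 2 v) =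
    FF (fun j => x (0, j)) (fun j => x (1, j)) v (fun j => x (3, j)) (fun j => x (4, j)) := by
  rw [fF, eval_Fp]; simp [upd]
theorem fF_3 (x : Fin 7 × Fin 2 → k) (v : Fin 2 → k) : fF (upd x 3 v) =
    FF (fun j => x (0, j)) (fun j => x (1, j)) (fun j => x (2, j)) v (fun j => x (4, j)) := by
  rw [fF, eval_Fp]; simp [upd]
theorem fF_4 (x : Fin 7 × Fin 2 → k) (v : Fin 2 → k) : fF (upd x 4 v) =
    FF (fun j => x (0, j)) (fun j => x (1, j)) (fun j => x (2, j)) (fun j => x (3, j)) v := by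
  rw [fF, eval_Fp]; simp [upd]
theorem fF_5 (x : Fin 7 × Fin 2 → k) (v : Fin 2 → k) : fF (upd x 5 v) = fF x := by
  rw [fF, fF, eval_Fp, eval_Fp]; simp [upd]
theorem fF_6 (x : Fin 7 × Fin 2 → k) (v : Fin 2 → k) : fF (upd x 6 v) = fF x := by
  rw [fF, fF, eval_Fp, eval_Fp]; simp [upd]

theorem gG_0 (a b : Fin 3) (x : Fin 7 × Fin 2 → k) (v : Fin 2 → k) : gG a b (upd x 0 v) =
    GG (CC a : k) (CC b : k) v (fun j => x (5, j)) (fun j => x (6, j)) := by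
  rw [gG, eval_Gp]; simp [upd]
theorem gG_5 (a b : Fin 3) (x : Fin 7 × Fin 2 → k) (v : Fin 2 → k) : gG a b (upd x 5 v) =
    GG (CC a : k) (CC b : k) (fun j => x (0, j)) v (fun j => x (6, j)) := by
  rw [gG, eval_Gp]; simp [upd]
theorem gG_6 (a b : Fin 3) (x : Fin 7 × Fin 2 → k) (v : Fin 2 → k) : gG a b (upd x 6 v) =
    GG (CC a : k) (CC b : k) (fun j => x (0, j)) (fun j => x (5, j)) v := by
  rw [gG, eval_Gp]; simp [upd]
theorem gG_1 (a b : Fin 3) (x : Fin 7 × Fin 2 → k) (v : Fin 2 → k) :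
    gG a b (upd x 1 v) = gG a b x := by
  rw [gG, gG, eval_Gp, eval_Gp]; simp [upd]
theorem gG_2 (a b : Fin 3) (x : Fin 7 × Fin 2 → k) (v : Fin 2 → k) :
    gG a b (upd x 2 v) = gG a b x := by
  rw [gG, gG, eval_Gp, eval_Gp]; simp [upd]
theorem gG_3 (a b : Fin 3) (x : Fin 7 × Fin 2 → k) (v : Fin 2 → k) :
    gG a b (upd x 3 v) = gG a b x := by
  rw [gG, gG, eval_Gp, eval_Gp]; simp [upd]
theorem gG_4 (a b : Fin 3) (x : Fin 7 × Fin 2 → k) (v : Fin 2 → k) :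
    gG a b (upd x 4 v) = gG a b x := by
  rw [gG, gG, eval_Gp, eval_Gp]; simp [upd]

theorem lin_F {i : Fin 7} (hi : i = 0 ∨ i = 1 ∨ i = 2 ∨ i = 3 ∨ i = 4) :
    Lin (fF : (Fin 7 × Fin 2 → k) → k) i := by
  intro x v
  rcases hi with rfl | rfl | rfl | rfl | rfl
  · rw [fF_0, fF_0, fF_0]; exact FF_t _ _ _ _ _
  · rw [fF_1, fF_1, fF_1]; exact FF_x _ _ _ _ _
  · rw [fF_2, fF_2, fF_2]; exact FF_y _ _ _ _ _
  · rw [fF_3, fF_3, fF_3]; exact FF_z _ _ _ _ _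
  · rw [fF_4, fF_4, fF_4]; exact FF_w _ _ _ _ _

theorem lin_G (a b : Fin 3) {i : Fin 7} (hi : i = 0 ∨ i = 5 ∨ i = 6) :
    Lin (gG a b : (Fin 7 × Fin 2 → k) → k) i := by
  intro x v
  rcases hi with rfl | rfl | rfl
  · rw [gG_0, gG_0, gG_0]
    simp only [GG, ee_zero_zero, ee_zero_one, ee_one_zero, ee_one_one]; ring
  · rw [gG_5, gG_5, gG_5]
    simp only [GG, ee_zero_zero, ee_zero_one, ee_one_zero, ee_one_one]; ring
  · rw [gG_6, gG_6, gG_6]
    simp only [GG, ee_zero_zero, ee_zero_one, ee_one_zero, ee_one_one]; ring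

theorem indep_F {i : Fin 7} (hi : i = 5 ∨ i = 6) :
    Indep (fF : (Fin 7 × Fin 2 → k) → k) i := by
  intro x v
  rcases hi with rfl | rfl
  · exact fF_5 x v
  · exact fF_6 x v

theorem indep_G (a b : Fin 3) {i : Fin 7} (hi : i = 1 ∨ i = 2 ∨ i = 3 ∨ i = 4) :
    Indep (gG a b : (Fin 7 × Fin 2 → k) → k) i := by
  intro x v
  rcases hi with rfl | rfl | rfl | rfl
  · exact gG_1 a b x v
  · exact gG_2 a b x v
  · exact gG_3 a b x v
  · exact gG_4 a b x v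

theorem polyFun_F : PolyFun (fF : (Fin 7 × Fin 2 → k) → k) := PolyFun.eval _
theorem polyFun_G (a b : Fin 3) : PolyFun (gG a b : (Fin 7 × Fin 2 → k) → k) := PolyFun.eval _

/-- the common point of all charts -/
def P0 (a b : Fin 3) : Fin 7 × Fin 2 → k := fun i =>
  (![![1, 0], ![1, 0], ![1, 0], ![1, 2], ![-6, 1], ![1, 1], ![(CC b : k), (CC a : k)]] :
    Fin 7 → Fin 2 → k) i.1 i.2

/-- index set of the charts -/
def ChartIdx : Type := {p : Fin 7 × Fin 7 //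
  ((p.1 = 0 ∨ p.1 = 1 ∨ p.1 = 2 ∨ p.1 = 3 ∨ p.1 = 4) ∧ (p.2 = 5 ∨ p.2 = 6)) ∨
  ((p.1 = 1 ∨ p.1 = 2 ∨ p.1 = 3 ∨ p.1 = 4) ∧ p.2 = 0)}

/-- the open sets of the charts -/
def UU (a b : Fin 3) (p : ChartIdx) : Set (Aff k (Fin 7 × Fin 2)) :=
  {x | (fF (upd x p.1.1 (ee 0)) ≠ 0 ∨ fF (upd x p.1.1 (ee 1)) ≠ 0) ∧
    (gG a b (upd x p.1.2 (ee 0)) ≠ 0 ∨ gG a b (upd x p.1.2 (ee 1)) ≠ 0)}

theorem isOpen_of_polyFun {σ : Type} {f : (σ → k) → k} (hf : PolyFun f) :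
    IsOpen {x : Aff k σ | f x ≠ 0} := by
  obtain ⟨p, hp⟩ := hf
  have : {x : Aff k σ | f x ≠ 0} = {x : Aff k σ | eval x p ≠ 0} := by
    ext x
    show f x ≠ 0 ↔ eval (show σ → k from x) p ≠ 0
    rw [hp]
  rw [this]
  exact isOpen_ne p

theorem isOpen_UU (a b : Fin 3) (p : ChartIdx) : IsOpen (UU a b p : Set (Aff k _)) := by
  have h1 : ∀ j, IsOpen {x : Aff k (Fin 7 × Fin 2) | fF (upd x p.1.1 (ee j)) ≠ 0} := fun j =>
    isOpen_of_polyFun (polyFun_F.comp (polyFun_upd (fun i => PolyFun.coord i)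
      (fun _ => polyFun_ee _ _)))
  have h2 : ∀ j, IsOpen {x : Aff k (Fin 7 × Fin 2) | gG a b (upd x p.1.2 (ee j)) ≠ 0} := fun j =>
    isOpen_of_polyFun ((polyFun_G a b).comp (polyFun_upd (fun i => PolyFun.coord i)
      (fun _ => polyFun_ee _ _)))
  exact ((h1 0).union (h1 1)).inter ((h2 0).union (h2 1))

variable [CharZero k]

omit [Field k] [CharZero k] in
theorem CCZ_ne_zero (a : Fin 3) : CC a ≠ 0 := by
  revert a; decide

omit [Field k] [CharZero k] in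
theorem fin_aux1 : ∀ i : Fin 7, (i = 0 ∨ i = 1 ∨ i = 2 ∨ i = 3 ∨ i = 4) → (i = 5 ∨ i = 6) →
    False := by decide
omit [Field k] [CharZero k] in
theorem fin_aux2 : ∀ i : Fin 7, (i = 1 ∨ i = 2 ∨ i = 3 ∨ i = 4) → i = 0 → False := by decide
omit [Field k] [CharZero k] in
theorem fin_aux3 : ∀ i : Fin 7, ¬ (i = 0 ∨ i = 1 ∨ i = 2 ∨ i = 3 ∨ i = 4) → (i = 5 ∨ i = 6) := by
  decide
omit [Field k] [CharZero k] in
theorem fin_aux4 : ∀ i : Fin 7, ¬ (i = 0 ∨ i = 5 ∨ i = 6) → (i = 1 ∨ i = 2 ∨ i = 3 ∨ i = 4) := by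
  decide
omit [Field k] [CharZero k] in
theorem fin_aux5 : ∀ i : Fin 7, i = 0 ∨ (i = 1 ∨ i = 2 ∨ i = 3 ∨ i = 4) ∨ (i = 5 ∨ i = 6) := by
  decide

theorem P0_mem_cone (a b : Fin 3) : (P0 a b : Fin 7 × Fin 2 → k) ∈ (XX k a b).cone := by
  rw [mem_cone_iff]
  refine ⟨?_, ?_, ?_⟩
  · intro i
    fin_cases i
    · left; simp [P0]
    · left; simp [P0]
    · left; simp [P0]
    · left; simp [P0]
    · right; simp [P0]
    · left; simp [P0]
    · left; simp [P0, CCZ_ne_zero]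
  · rw [eval_Fp]; simp [P0, FF]; norm_num
  · rw [eval_Gp]; simp [P0, GG]; ring

theorem P0_mem_UU {a b : Fin 3} (hab : a ≠ b) (p : ChartIdx) :
    (P0 a b : Fin 7 × Fin 2 → k) ∈ (UU a b p : Set (Aff k _)) := by
  have hF : ∀ i : Fin 7, (i = 0 ∨ i = 1 ∨ i = 2 ∨ i = 3 ∨ i = 4) →
      (fF (upd (P0 a b : Fin 7 × Fin 2 → k) i (ee 0)) ≠ 0 ∨
        fF (upd (P0 a b : Fin 7 × Fin 2 → k) i (ee 1)) ≠ 0) := by
    intro i hi
    rcases hi with rfl | rfl | rfl | rfl | rfl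
    · right; rw [fF_0]; simp [P0, FF]
    · right; rw [fF_1]; simp [P0, FF]; norm_num
    · right; rw [fF_2]; simp [P0, FF]; norm_num
    · left; rw [fF_3]; simp [P0, FF]
    · left; rw [fF_4]; simp [P0, FF]
  have hG : ∀ i : Fin 7, (i = 5 ∨ i = 6 ∨ i = 0) →
      (gG a b (upd (P0 a b : Fin 7 × Fin 2 → k) i (ee 0)) ≠ 0 ∨
        gG a b (upd (P0 a b : Fin 7 × Fin 2 → k) i (ee 1)) ≠ 0) := by
    intro i hi
    rcases hi with rfl | rfl | rfl
    · left; rw [gG_5]; simp [P0, GG, CCZ_ne_zero]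
    · left; rw [gG_6]; simp [P0, GG, CCZ_ne_zero]
    · right; rw [gG_0]; simp [P0, GG]
      have := CC_ne' (k := k) hab
      exact sub_ne_zero.mpr this.symm
  obtain ⟨⟨i, j⟩, hp⟩ := p
  rcases hp with ⟨h1, h2⟩ | ⟨h1, h2⟩
  · exact ⟨hF i h1, hG j (by rcases h2 with h | h; exact Or.inl h; exact Or.inr (Or.inl h))⟩
  · exact ⟨hF i (Or.inr h1), hG j (Or.inr (Or.inr h2))⟩

theorem chart_irr {a b : Fin 3} (hab : a ≠ b) (p : ChartIdx) :
    IsIrreducible ((XX k a b).cone ∩ (UU a b p : Set (Aff k _))) := by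
  haveI : Infinite k := inferInstance
  have hne : ((XX k a b).cone ∩ (UU a b p : Set (Aff k _))).Nonempty :=
    ⟨P0 a b, P0_mem_cone a b, P0_mem_UU hab p⟩
  obtain ⟨⟨i, j⟩, hp⟩ := p
  rcases hp with ⟨h1, h2⟩ | ⟨h1, h2⟩
  · have hij : i ≠ j := by
      intro h
      subst h
      exact fin_aux1 i h1 h2
    refine chart_irreducible polyFun_F (polyFun_G a b) hij (lin_F h1)
      (lin_G a b (Or.inr h2)) (indep_F h2) ?_ hne
    intro x
    constructor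
    · rintro ⟨hx, hU⟩
      obtain ⟨e1, e2, e3⟩ := mem_cone_iff.mp hx
      exact ⟨e1, e2, e3, hU.1, hU.2⟩
    · rintro ⟨e1, e2, e3, e4, e5⟩
      exact ⟨mem_cone_iff.mpr ⟨e1, e2, e3⟩, e4, e5⟩
  · have hij : j ≠ i := by
      intro h
      subst h
      exact fin_aux2 j h1 h2
    refine chart_irreducible (polyFun_G a b) polyFun_F hij (lin_G a b (Or.inl h2))
      (lin_F (Or.inr h1)) (indep_G a b h1) ?_ hne
    intro x
    constructor
    · rintro ⟨hx, hU⟩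
      obtain ⟨e1, e2, e3⟩ := mem_cone_iff.mp hx
      exact ⟨e1, e3, e2, hU.2, hU.1⟩
    · rintro ⟨e1, e2, e3, e4, e5⟩
      exact ⟨mem_cone_iff.mpr ⟨e1, e3, e2⟩, e5, e4⟩

omit [CharZero k] in
theorem pd_F_upd (x : Fin 7 × Fin 2 → k) {i : Fin 7}
    (hi : i = 0 ∨ i = 1 ∨ i = 2 ∨ i = 3 ∨ i = 4) (j : Fin 2) :
    eval x (pderiv (i, j) (Fp k)) = fF (upd x i (ee j)) := by
  rcases hi with rfl | rfl | rfl | rfl | rfl
  · rw [fF_0]; exact (pd_F x j).1
  · rw [fF_1]; exact (pd_F x j).2.1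
  · rw [fF_2]; exact (pd_F x j).2.2.1
  · rw [fF_3]; exact (pd_F x j).2.2.2.1
  · rw [fF_4]; exact (pd_F x j).2.2.2.2.1

omit [CharZero k] in
theorem pd_F_zero (x : Fin 7 × Fin 2 → k) {i : Fin 7} (hi : i = 5 ∨ i = 6) (j : Fin 2) :
    eval x (pderiv (i, j) (Fp k)) = 0 := by
  rcases hi with rfl | rfl
  · exact (pd_F x j).2.2.2.2.2.1
  · exact (pd_F x j).2.2.2.2.2.2

omit [CharZero k] in
theorem pd_G_upd (a b : Fin 3) (x : Fin 7 × Fin 2 → k) {i : Fin 7}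
    (hi : i = 0 ∨ i = 5 ∨ i = 6) (j : Fin 2) :
    eval x (pderiv (i, j) (Gp k a b)) = gG a b (upd x i (ee j)) := by
  rcases hi with rfl | rfl | rfl
  · rw [gG_0]; exact (pd_G a b x j).1
  · rw [gG_5]; exact (pd_G a b x j).2.2.2.2.2.1
  · rw [gG_6]; exact (pd_G a b x j).2.2.2.2.2.2

omit [CharZero k] in
theorem pd_G_zero (a b : Fin 3) (x : Fin 7 × Fin 2 → k) {i : Fin 7}
    (hi : i = 1 ∨ i = 2 ∨ i = 3 ∨ i = 4) (j : Fin 2) :
    eval x (pderiv (i, j) (Gp k a b)) = 0 := by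
  rcases hi with rfl | rfl | rfl | rfl
  · exact (pd_G a b x j).2.1
  · exact (pd_G a b x j).2.2.1
  · exact (pd_G a b x j).2.2.2.1
  · exact (pd_G a b x j).2.2.2.2.1

/-- the charts cover the cone -/
theorem charts_cover {a b : Fin 3} (hab : a ≠ b) (x : Fin 7 × Fin 2 → k)
    (hx : x ∈ (XX k a b).cone) : ∃ p, x ∈ (UU a b p : Set (Aff k _)) := by
  obtain ⟨hnz, hF, hG⟩ := mem_cone_iff.mp hx
  by_contra hcon
  push Not at hcon

  set dF : Fin 7 → Prop := fun i => fF (upd x i (ee 0)) ≠ 0 ∨ fF (upd x i (ee 1)) ≠ 0 with hdF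
  set dG : Fin 7 → Prop := fun i => gG a b (upd x i (ee 0)) ≠ 0 ∨ gG a b (upd x i (ee 1)) ≠ 0
    with hdG
  have nF : ∀ i, ¬ dF i → ∀ j, fF (upd x i (ee j)) = 0 := by
    intro i hi j
    simp only [hdF, not_or, not_not] at hi
    revert j
    rw [Fin.forall_fin_two]
    exact hi
  have nG : ∀ i, ¬ dG i → ∀ j, gG a b (upd x i (ee j)) = 0 := by
    intro i hi j
    simp only [hdG, not_or, not_not] at hi
    revert j
    rw [Fin.forall_fin_two]
    exact hi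
  have c1 : ∀ i j : Fin 7, (i = 0 ∨ i = 1 ∨ i = 2 ∨ i = 3 ∨ i = 4) → (j = 5 ∨ j = 6) →
      ¬ (dF i ∧ dG j) := fun i j hi hj h => hcon ⟨(i, j), Or.inl ⟨hi, hj⟩⟩ h
  have c2 : ∀ i : Fin 7, (i = 1 ∨ i = 2 ∨ i = 3 ∨ i = 4) → ¬ (dF i ∧ dG 0) :=
    fun i hi h => hcon ⟨(i, 0), Or.inr ⟨hi, rfl⟩⟩ h
  -- `dF ≠ 0`
  have e1 : ∃ i, (i = 0 ∨ i = 1 ∨ i = 2 ∨ i = 3 ∨ i = 4) ∧ dF i := by
    by_contra h
    push Not at h
    have := smooth_core hab x hnz 1 0 (by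
      rintro ⟨i, j⟩
      rw [one_mul, zero_mul, add_zero]
      by_cases hi : i = 0 ∨ i = 1 ∨ i = 2 ∨ i = 3 ∨ i = 4
      · rw [pd_F_upd x hi]; exact nF i (h i hi) j
      · exact pd_F_zero x (fin_aux3 i hi) j)
    exact one_ne_zero this.1
  obtain ⟨i, hi, hFi⟩ := e1
  have g5 : ¬ dG 5 := fun h => c1 i 5 hi (Or.inl rfl) ⟨hFi, h⟩
  have g6 : ¬ dG 6 := fun h => c1 i 6 hi (Or.inr rfl) ⟨hFi, h⟩
  have g0 : dG 0 := by
    by_contra h
    have := smooth_core hab x hnz 0 1 (by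
      rintro ⟨i, j⟩
      rw [one_mul, zero_mul, zero_add]
      by_cases hi : i = 0 ∨ i = 5 ∨ i = 6
      · rw [pd_G_upd a b x hi]
        rcases hi with rfl | rfl | rfl
        · exact nG 0 h j
        · exact nG 5 g5 j
        · exact nG 6 g6 j
      · exact pd_G_zero a b x (fin_aux4 i hi) j)
    exact one_ne_zero this.2
  have f14 : ∀ i, (i = 1 ∨ i = 2 ∨ i = 3 ∨ i = 4) → ¬ dF i := fun i hi h => c2 i hi ⟨h, g0⟩
  -- Euler relations
  have E1 : x (0, 0) * fF (upd x 0 (ee 0)) + x (0, 1) * fF (upd x 0 (ee 1)) = 0 := by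
    rw [← lin_F (Or.inl rfl) x (fun j => x (0, j)), upd_self]; exact hF
  have E2 : x (0, 0) * gG a b (upd x 0 (ee 0)) + x (0, 1) * gG a b (upd x 0 (ee 1)) = 0 := by
    rw [← lin_G a b (Or.inl rfl) x (fun j => x (0, j)), upd_self]; exact hG
  have det : fF (upd x 0 (ee 0)) * gG a b (upd x 0 (ee 1))
      - fF (upd x 0 (ee 1)) * gG a b (upd x 0 (ee 0)) = 0 := by
    rcases hnz 0 with h | h
    · apply (mul_eq_zero.mp (_ : x (0, 0) * _ = 0)).resolve_left h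
      linear_combination (gG a b (upd x 0 (ee 1))) * E1 - (fF (upd x 0 (ee 1))) * E2
    · apply (mul_eq_zero.mp (_ : x (0, 1) * _ = 0)).resolve_left h
      linear_combination (fF (upd x 0 (ee 0))) * E2 - (gG a b (upd x 0 (ee 0))) * E1
  have main : ∀ α β : k, (∀ j, α * fF (upd x 0 (ee j)) + β * gG a b (upd x 0 (ee j)) = 0) →
      α = 0 ∧ β = 0 := by
    intro α β h
    apply smooth_core hab x hnz α β
    rintro ⟨i, j⟩
    rcases fin_aux5 i with rfl | hi' | hi''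
    · rw [pd_F_upd x (Or.inl rfl), pd_G_upd a b x (Or.inl rfl)]; exact h j
    · rw [pd_F_upd x (Or.inr hi'), pd_G_zero a b x hi', nF i (f14 i hi')]; ring
    · rw [pd_F_zero x hi'', pd_G_upd a b x (Or.inr hi'')]
      rcases hi'' with rfl | rfl
      · rw [nG 5 g5]; ring
      · rw [nG 6 g6]; ring
  have m1 := main (gG a b (upd x 0 (ee 0))) (- fF (upd x 0 (ee 0))) (by
    rw [Fin.forall_fin_two]
    exact ⟨by ring, by linear_combination -det⟩)
  have m2 := main (gG a b (upd x 0 (ee 1))) (- fF (upd x 0 (ee 1))) (by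
    rw [Fin.forall_fin_two]
    exact ⟨by linear_combination det, by ring⟩)
  rcases g0 with h | h
  · exact h m1.1
  · exact h m2.1

/-- the cone is irreducible -/
theorem cone_irreducible {a b : Fin 3} (hab : a ≠ b) :
    IsIrreducible ((XX k a b).cone) :=
  irreducible_of_cover' _ (UU a b) (isOpen_UU a b) (chart_irr hab) (P0 a b)
    (P0_mem_cone a b) (P0_mem_UU hab) (charts_cover hab)

theorem point_irreducible {a b : Fin 3} (hab : a ≠ b) : IrreducibleSpace (XX k a b).Point := by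
  haveI : IrreducibleSpace (XX k a b).cone := Subtype.irreducibleSpace (cone_irreducible hab)
  have hs : Function.Surjective (Quotient.mk (XX k a b).pointSetoid) := Quotient.mk_surjective
  exact hs.irreducibleSpace continuous_quotient_mk'

end

end Pool.Agent.Hhelper17.Batyrev
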