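import Mathlib
import Pool.Agent.Hhelper17.BatyrevCount

/-!
# Curves with prescribed labels
-/

set_option linter.all false

namespace Pool.Agent.Hhelper17.Batyrev

open Polynomial

universe u

section

variable {k : Type u} [Field k] [CharZero k] [IsAlgClosed k]

/-- The class. -/
def cls (q j : ℕ) : Fin 7 → ℕ :=
  ![mm (4 * q + 1), 1, mm (4 * q + 2), mm (4 * q),
    2 + mm (4 * q + 1) + mm (4 * q + 2) + mm (4 * q), j, mm (4 * q + 1)]

theorem cls_Cls (q j : ℕ) : Cls q j (cls q j) where
  d0 := rfl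
  d1 := rfl
  d2 := rfl
  d3 := rfl
  d4 := by
    show 1 + mm (4 * q + 1) + mm (4 * q + 2) + mm (4 * q) <
      2 + mm (4 * q + 1) + mm (4 * q + 2) + mm (4 * q)
    omega
  d5 := rfl
  d6 := rfl

/-- the product of the `X - x`, `x ∈ I` -/
noncomputable def aI (I : Finset k) : k[X] := (I.val.map (fun x => X - C x)).prod

omit [CharZero k] [IsAlgClosed k] in
theorem aI_monic (I : Finset k) : (aI I).Monic := monic_multisetProd_X_sub_C _

omit [CharZero k] [IsAlgClosed k] in
theorem aI_natDegree (I : Finset k) : (aI I).natDegree = I.card := by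
  unfold aI
  rw [natDegree_multiset_prod_X_sub_C_eq_card]
  rfl

omit [CharZero k] [IsAlgClosed k] in
theorem aI_injective : Function.Injective (aI : Finset k → k[X]) := by
  intro I J h
  unfold aI at h
  have h1 := congrArg Polynomial.roots h
  rw [roots_multiset_prod_X_sub_C, roots_multiset_prod_X_sub_C] at h1
  exact Finset.val_injective h1

/-- powers of `X` and one -/
noncomputable def ww (M : ℕ) : Fin 2 → k[X] := ![X ^ M, 1]

omit [CharZero k] [IsAlgClosed k] in
theorem good_ww (M : ℕ) : Good M (ww M : Fin 2 → k[X]) := by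
  refine Good.mk' ?_ ?_ ?_
  · rw [Fin.forall_fin_two]; constructor
    · simp [ww]
    · simp [ww]
  · simp only [ww, Matrix.cons_val_zero, Matrix.cons_val_one, Matrix.cons_val_fin_one]
    exact isCoprime_one_right
  · left; simp [ww]

/-- the existence of a curve with a given label -/
theorem exists_point {a b : Fin 3} (hab : a ≠ b) {q j : ℕ} (I : Finset k)
    (hI : ∀ x ∈ I, (AA (1 : k) q a).IsRoot x) (hj : I.card = j) :
    Valid a b q j ((1 : k), aI I, (1 : k[X])) ∧ (LQ a b (cls q j) q ((1 : k), aI I, (1 : k[X]))).Nonempty := by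
  classical
  have h1 : (1 : k) = 1 ∨ (1 : k) = -1 := Or.inl rfl
  set A := AA (1 : k) q a with hA
  set B := AA (1 : k) q b with hB
  have hA0 : A ≠ 0 := AA_ne_zero h1 q a
  have hB0 : B ≠ 0 := AA_ne_zero h1 q b
  have dA : A.natDegree = mm (4 * q + 1) := by rw [mm_one]; exact AA_natDegree h1 q a
  have dB : B.natDegree = mm (4 * q + 1) := by rw [mm_one]; exact AA_natDegree h1 q b
  have hdvd : aI I ∣ A := by
    unfold aI
    rw [Multiset.prod_X_sub_C_dvd_iff_le_roots hA0, Multiset.le_iff_subset I.nodup]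
    intro x hx
    exact (mem_roots hA0).mpr (hI x hx)
  obtain ⟨A', hA'⟩ := hdvd
  have hA'0 : A' ≠ 0 := by rintro rfl; exact hA0 (by rw [hA', mul_zero])
  have dI : (aI I).natDegree = j := by rw [aI_natDegree, hj]
  have dA' : j + A'.natDegree = mm (4 * q + 1) := by
    rw [← dA, hA', natDegree_mul (aI_monic I).ne_zero hA'0, dI]
  -- a point where `A B` does not vanish
  obtain ⟨z, hz⟩ : ∃ z, (A * B).eval z ≠ 0 := by
    by_contra hcon
    push Not at hcon
    exact mul_ne_zero hA0 hB0 (Polynomial.funext (by simpa using hcon))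
  rw [eval_mul] at hz
  have hzA : A.eval z ≠ 0 := left_ne_zero_of_mul hz
  have hzB : B.eval z ≠ 0 := right_ne_zero_of_mul hz
  have cop : ∀ P : k[X], P.eval z ≠ 0 → IsCoprime ((X - C z) ^ j) P := by
    intro P hP
    apply IsCoprime.pow_left
    have hirr : Irreducible (X - C z) := irreducible_X_sub_C z
    refine (hirr.coprime_iff_not_dvd).mpr ?_
    rw [dvd_iff_isRoot]
    exact hP
  have hzI : (aI I).eval z ≠ 0 := by
    intro h; apply hzA; rw [hA', eval_mul, h, zero_mul]
  have hAB : IsCoprime A B := AA_coprime h1 q hab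
  have dpow : ((X - C z) ^ j : k[X]).natDegree = j := by
    rw [natDegree_pow, natDegree_X_sub_C, mul_one]
  -- the components
  set U : Fin 2 → k[X] := ![(X - C z) ^ j, aI I] with hU
  set V : Fin 2 → k[X] := ![B, A' * (X - C z) ^ j] with hV
  have gU : Good j U := by
    refine Good.mk' ?_ ?_ ?_
    · rw [Fin.forall_fin_two]
      exact ⟨dpow.le, dI.le⟩
    · exact cop _ hzI
    · right
      show (aI I).coeff j ≠ 0
      rw [← dI, (aI_monic I).coeff_natDegree]
      exact one_ne_zero
  have gV : Good (mm (4 * q + 1)) V := by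
    refine Good.mk' ?_ ?_ ?_
    · rw [Fin.forall_fin_two]
      refine ⟨dB.le, ?_⟩
      show (A' * (X - C z) ^ j).natDegree ≤ _
      refine natDegree_mul_le.trans ?_
      rw [dpow]; omega
    · show IsCoprime B (A' * (X - C z) ^ j)
      refine IsCoprime.mul_right ?_ (cop B hzB).symm
      rw [hA'] at hAB
      exact hAB.of_mul_left_right.symm
    · left
      show B.coeff (mm (4 * q + 1)) ≠ 0
      rw [← dB]
      exact leadingCoeff_ne_zero.mpr hB0
  set P : Fin 7 → Fin 2 → k[X] := ![gg 1 (4 * q + 1), xx, gg 1 (4 * q + 2), gg 1 (4 * q),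
    ww (2 + mm (4 * q + 1) + mm (4 * q + 2) + mm (4 * q)), U, V] with hP
  have T := tr_gg h1 (4 * q)
  have gP : ∀ i, Good (cls q j i) (P i) := by
    intro i
    fin_cases i
    · exact T.gb
    · exact good_xx
    · exact T.gc
    · exact T.ga
    · exact good_ww _
    · exact gU
    · exact gV
  have hF : FF (P 0) (P 1) (P 2) (P 3) (P 4) = 0 := by
    rw [FF_w]
    have hr := T.rel
    have e4 : (4 * q) % 4 = 0 := by omega
    have h0 := hr 0
    have h1 := hr 1
    simp only [Phi, e4, if_true] at h0 h1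
    have e0 : FF (P 0) (P 1) (P 2) (P 3) (ee 0) = 0 := h0
    have e1 : FF (P 0) (P 1) (P 2) (P 3) (ee 1) = 0 := h1
    rw [e0, e1]
    ring
  have hG : GG (C (CC a : k)) (C (CC b : k)) (P 0) (P 5) (P 6) = 0 := by
    have e : GG (C (CC a : k)) (C (CC b : k)) (P 0) (P 5) (P 6) =
        A * ((X - C z) ^ j * B) - B * (aI I * (A' * (X - C z) ^ j)) := rfl
    rw [e]
    nth_rewrite 1 [hA']
    ring
  have hmem := cf_mem (a := a) (b := b) gP hF hG
  have hrp : ∀ i j', rp (cf (cls q j) P) i j' = P i j' :=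
    rp_cf rfl rfl (fun i j' => (gP i).deg j')
  refine ⟨⟨h1, aI_monic I, monic_one, ⟨A', hA'⟩, one_dvd _, ?_⟩, ?_⟩
  · show (aI I).natDegree + (1 : k[X]).natDegree = j
    rw [natDegree_one, add_zero, dI]
  · refine ⟨Quotient.mk _ ⟨cf (cls q j) P, hmem⟩, ?_⟩
    show LS q ((1 : k), aI I, (1 : k[X])) (cf (cls q j) P)
    have e : ∀ i, rp (cf (cls q j) P) i = P i := fun i => funext fun j' => hrp i j'
    refine ⟨⟨?_, ?_, ?_⟩, ?_, one_dvd _⟩
    · show PP (gg 1 (4 * q)) (rp (cf (cls q j) P) 3)
      rw [e]; exact mul_comm _ _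
    · show PP (gg 1 (4 * q + 1)) (rp (cf (cls q j) P) 0)
      rw [e]; exact mul_comm _ _
    · show PP (gg 1 (4 * q + 2)) (rp (cf (cls q j) P) 2)
      rw [e]; exact mul_comm _ _
    · show aI I ∣ rp (cf (cls q j) P) 5 1
      rw [hrp]; exact dvd_refl _

/-- the lower bound for the number of components -/
theorem numComp_ge [DecidableEq k] {a b : Fin 3} (hab : a ≠ b) {q : ℕ} (hq : 1 ≤ q) (j : ℕ)
    (l : Fin 7 → ℕ) (d : ℕ) (hd : ∑ i, l i * cls q j i ≤ d) :
    ((((AA (1 : k) q a).roots.toFinset.card.choose j : ℕ)) : ℕ∞) ≤ (XX k a b).numComp l d := by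
  classical
  set s : Finset (k × k[X] × k[X]) :=
    ((AA (1 : k) q a).roots.toFinset.powersetCard j).image (fun I => ((1 : k), aI I, (1 : k[X])))
    with hs
  have hcard : s.card = (AA (1 : k) q a).roots.toFinset.card.choose j := by
    rw [hs, Finset.card_image_of_injective, Finset.card_powersetCard]
    intro I J h
    have : aI I = aI J := congrArg (fun p : k × k[X] × k[X] => p.2.1) h
    exact aI_injective this
  have key : ∀ L ∈ s, Valid a b q j L ∧ (LQ a b (cls q j) q L).Nonempty := by
    intro L hL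
    rw [hs, Finset.mem_image] at hL
    obtain ⟨I, hI, rfl⟩ := hL
    rw [Finset.mem_powersetCard] at hI
    refine exists_point hab I (fun x hx => ?_) hI.2
    have := hI.1 hx
    rw [Multiset.mem_toFinset] at this
    exact isRoot_of_mem_roots this
  rw [← hcard]
  refine card_le_components (α := (XX k a b).MorLE l d) s
    (LM a b l d (cls q j) hd q) ?_ ?_ ?_
  · intro L hL
    exact isClopen_LM hab hq (cls_Cls q j) (key L hL).1 l d hd
  · intro L hL
    exact (key L hL).2.image _
  · intro L hL L' hL' hne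
    exact LM_disjoint hab hq (cls_Cls q j) (key L hL).1 (key L' hL').1 hne l d hd

end

end Pool.Agent.Hhelper17.Batyrev
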