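import Mathlib
import Pool.Agent.Hhelper17.BatyrevPoints
import Pool.Agent.Hhelper17.BatyrevIrrX
import Pool.Agent.Hhelper17.BatyrevFano

/-!
# Exponential growth of the number of components
-/

set_option linter.all false

namespace Pool.Agent.Hhelper17.Batyrev

open Polynomial

universe u

theorem two_pow_le_choose {R j : ℕ} (h : 2 * j ≤ R) : 2 ^ j ≤ R.choose j := by
  rcases Nat.eq_zero_or_pos j with rfl | hj
  · simp
  have h1 : (2 * j).choose j ≤ R.choose j := Nat.choose_le_choose j h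
  have h2 : 4 ^ j ≤ 2 * j * j.centralBinom := Nat.four_pow_le_two_mul_self_mul_centralBinom j hj
  have h3 : 2 * j ≤ 2 ^ j := by
    obtain ⟨i, rfl⟩ : ∃ i, j = i + 1 := ⟨j - 1, by omega⟩
    have := Nat.lt_two_pow_self (n := i)
    rw [pow_succ]; omega
  have h4 : j.centralBinom = (2 * j).choose j := Nat.centralBinom_eq_two_mul_choose j
  rw [← h4] at h1
  refine le_trans ?_ h1
  have h5 : 2 ^ j * 2 ^ j ≤ 2 ^ j * j.centralBinom := by
    calc 2 ^ j * 2 ^ j = 4 ^ j := by rw [← mul_pow]; norm_num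
      _ ≤ 2 * j * j.centralBinom := h2
      _ ≤ 2 ^ j * j.centralBinom := Nat.mul_le_mul_right _ h3
  exact Nat.le_of_mul_le_mul_left h5 (by positivity)

theorem cls_le {q j : ℕ} (hq : 1 ≤ q) (hj : j ≤ 4 * q ^ 2) (i : Fin 7) :
    cls q j i ≤ 16 * q ^ 2 := by
  have h1 := mm_one q
  have h2 := mm_two q
  have h0 := mm_zero_le q
  have hq2 : q ≤ q ^ 2 := by nlinarith
  have hq1 : 1 ≤ q ^ 2 := by nlinarith
  fin_cases i
  · show mm (4 * q + 1) ≤ _; omega
  · show 1 ≤ _; omega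
  · show mm (4 * q + 2) ≤ _; omega
  · show mm (4 * q) ≤ _; omega
  · show 2 + mm (4 * q + 1) + mm (4 * q + 2) + mm (4 * q) ≤ _; omega
  · show j ≤ _; omega
  · show mm (4 * q + 1) ≤ _; omega

/-- the polynomials grow slower than exponentials -/
theorem eventually_poly_lt (P : Polynomial ℝ) {b : ℝ} (hb : 1 < b) :
    ∀ᶠ n : ℕ in Filter.atTop, P.eval (n : ℝ) < b ^ n := by
  have h1 : (fun n : ℕ => P.eval (n : ℝ)) =o[Filter.atTop] fun n : ℕ => b ^ n := by
    have e : (fun n : ℕ => P.eval (n : ℝ)) =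
        ∑ i ∈ Finset.range (P.natDegree + 1), fun n : ℕ => P.coeff i * (n : ℝ) ^ i := by
      ext n
      rw [eval_eq_sum_range, Finset.sum_apply]
    rw [e]
    apply Asymptotics.IsLittleO.sum
    intro i _
    exact (isLittleO_pow_const_const_pow_of_one_lt i hb).const_mul_left _
  have h2 := h1.bound (show (0 : ℝ) < 1 / 2 by norm_num)
  filter_upwards [h2] with n hn
  have hbn : 0 < b ^ n := by positivity
  rw [Real.norm_eq_abs, Real.norm_eq_abs, abs_of_pos hbn] at hn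
  have := le_abs_self (P.eval (n : ℝ))
  linarith

/-- exponential growth -/
theorem exp_growth (k : Type u) [Field k] [CharZero k] [IsAlgClosed k] :
    ∃ a b : Fin 3, a ≠ b ∧ ∀ l : Fin 7 → ℕ, (∀ i, 0 < l i) → ∃ β : ℝ, 1 < β ∧
      ∀ D : ℕ, ∃ d m : ℕ, D ≤ d ∧ β ^ d ≤ (m : ℝ) ∧ (m : ℕ∞) ≤ (XX k a b).numComp l d := by
  classical
  obtain ⟨a, ha⟩ := exists_good_c k
  obtain ⟨b, hab⟩ : ∃ b : Fin 3, a ≠ b := by
    have : ∀ a : Fin 3, ∃ b : Fin 3, a ≠ b := by decide
    exact this a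
  refine ⟨a, b, hab, fun l hl => ?_⟩
  set s : ℕ := ∑ i, l i with hs
  have hs0 : 0 < s := Finset.sum_pos (fun i _ => hl i) Finset.univ_nonempty
  set n : ℕ := 48 * s with hn
  have hn0 : n ≠ 0 := by omega
  set β : ℝ := (2 : ℝ) ^ ((n : ℝ)⁻¹) with hβ
  have hβn : β ^ n = 2 := Real.rpow_inv_natCast_pow (by norm_num) hn0
  have hβ1 : 1 < β := by
    rw [hβ]
    apply Real.one_lt_rpow (by norm_num)
    positivity
  refine ⟨β, hβ1, fun D => ?_⟩
  obtain ⟨q, hqD, hq, hR⟩ := ha D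
  set R := (AA (1 : k) q a).roots.toFinset.card with hRdef
  have hR4 : R ≤ 4 * q ^ 2 := by
    rw [← AA_natDegree (k := k) (Or.inl rfl) q a]
    exact (Multiset.toFinset_card_le _).trans (card_roots' _)
  set j := R / 2 with hj
  have hj3 : q ^ 2 ≤ 3 * j := by
    have : 1 ≤ q ^ 2 := Nat.one_le_pow _ _ hq
    omega
  have hj4 : j ≤ 4 * q ^ 2 := by omega
  refine ⟨∑ i, l i * cls q j i, R.choose j, ?_, ?_, numComp_ge hab hq j l _ le_rfl⟩
  · calc D ≤ q := hqD
      _ ≤ 1 * (4 * q ^ 2) := by nlinarith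
      _ ≤ l 0 * (4 * q ^ 2) := Nat.mul_le_mul_right _ (hl 0)
      _ = l 0 * cls q j 0 := by rw [show cls q j 0 = mm (4 * q + 1) from rfl, mm_one]
      _ ≤ ∑ i, l i * cls q j i :=
        Finset.single_le_sum (f := fun i => l i * cls q j i) (fun _ _ => Nat.zero_le _)
          (Finset.mem_univ 0)
  · have hd : ∑ i, l i * cls q j i ≤ n * j := by
      calc ∑ i, l i * cls q j i ≤ ∑ i, l i * (16 * q ^ 2) :=
            Finset.sum_le_sum fun i _ => Nat.mul_le_mul_left _ (cls_le hq hj4 i)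
        _ = s * (16 * q ^ 2) := by rw [← Finset.sum_mul]
        _ ≤ s * (16 * (3 * j)) := by gcongr
        _ = n * j := by rw [hn]; ring
    calc β ^ (∑ i, l i * cls q j i) ≤ β ^ (n * j) := pow_le_pow_right₀ hβ1.le hd
      _ = 2 ^ j := by rw [pow_mul, hβn]
      _ ≤ (R.choose j : ℝ) := by
        have := two_pow_le_choose (show 2 * j ≤ R by omega)
        exact_mod_cast this

end Pool.Agent.Hhelper17.Batyrev
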